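import Pool.Agent.Lib.Ell.Phi

set_option autoImplicit false

/-!
MODULE Ell.Base (uses Phi.lean and what it imports).

A positive element of the block which is good at every time.

PROOF.  e₀ := eb (0,0), E₀ := the projection on e₀ (rank one operator h ↦ ⟪e₀, h⟫ • e₀).
For b : ℕ → S3 let Q b := dsum (fun i => V (b i) * E₀ * star (V (b i))), a projection.  The fields
x ↦ Q (pa x) and x ↦ Q (pb x) are strongly continuous (SCont.dsum) and rotation invariant (V_rot,
the phases cancel), hence so are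
A x := V ee * Q (pa x) * star (V ee) and B x := V (x none) * Q (pb x) * star (V (x none)),
two projections in BB.  y t := (1-t) • A + t • B (norm continuous in t), y 0 is InB0, y 1 is InB1.
Good: Re ⟪f, (star y y)(t)(x) f⟫ = ‖y f‖² ≤ 2 ((1-t)² ‖A f‖² + t² ‖B f‖²) ≤ 2 ‖A f‖² + 2 ‖B f‖² and
‖A f‖² = Re ⟪f, A f⟫ = ∑_i ‖⟪ℓ (false,i) x, f⟫‖², ‖B f‖² = ∑_i ‖⟪ℓ (true,i) x, f⟫‖² with
ℓ (false,i) x = V ee (S i (V (x (some (false,i))) e₀)), weight 1 at some (false, i), 0 elsewhere;
ℓ (true,i) x = V (x none) (S i (V (x (some (true,i))) e₀)), weight 1 at none and at some (true, i).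
So GoodIn univ with ι = Bool × ℕ, r = id and the fields √2 • ℓ (absorbing the constant 2);
finite partial sums approximate the HasSum (hasSum_inner_dsum), this gives the ε.
At t = 0: y 0 = A, A x ≠ 0 since A x (V ee (S 0 (V (x (some (false,0))) e₀))) is that vector, and
A * (V ee * star (V ee)) = A since star (V ee) * V ee = 1.
-/

open scoped InnerProductSpace BoundedContinuousFunction unitInterval

namespace Pool.Agent.Lib.Ell

open Pool.Agent.Lib.P81d4f5 (S3)

/-- the base vector -/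
noncomputable def bz : Hb := eb (0, 0)

/-- the projection on the base vector -/
noncomputable def bE : Op := (innerSL ℂ bz).smulRight bz

theorem bE_apply (f : Hb) : bE f = ⟪bz, f⟫_ℂ • bz := rfl

/-- the projection on `V ζ bz` -/
noncomputable def bT (ζ : S3) : Op := V ζ * bE * star (V ζ)

theorem bT_apply (ζ : S3) (f : Hb) : bT ζ f = ⟪V ζ bz, f⟫_ℂ • V ζ bz := by
  change V ζ (bE (star (V ζ) f)) = _
  rw [bE_apply, map_smul, inner_star_right]

theorem norm_Vbz (ζ : S3) : ‖V ζ bz‖ = 1 := by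
  rw [norm_of_star_mul_self (star_V_mul_V ζ), bz, norm_eb]

theorem inner_bT (ζ : S3) (f : Hb) : ⟪f, bT ζ f⟫_ℂ = ((‖⟪V ζ bz, f⟫_ℂ‖ ^ 2 : ℝ) : ℂ) := by
  rw [bT_apply, inner_smul_right, ← inner_conj_symm f (V ζ bz), Complex.mul_conj,
    Complex.normSq_eq_norm_sq]

theorem bE_star : star bE = bE := by
  ext1 f
  apply ext_inner_left ℂ
  intro g
  rw [inner_star_right, bE_apply, bE_apply, inner_smul_left, inner_smul_right,
    inner_conj_symm, mul_comm]

theorem bE_mul : bE * bE = bE := by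
  ext1 f
  rw [mul_apply', bE_apply f, map_smul, bE_apply, bz, inner_eb_eb, if_pos rfl, one_smul]

theorem bT_star (ζ : S3) : star (bT ζ) = bT ζ := by
  rw [bT, star_mul, star_mul, star_star, bE_star, mul_assoc]

theorem bT_mul (ζ : S3) : bT ζ * bT ζ = bT ζ := by
  rw [bT, VcV_mul, bE_mul]

theorem norm_bT_le (ζ : S3) : ‖bT ζ‖ ≤ ‖bE‖ := by
  have h1 : ‖V ζ * bE‖ ≤ 1 * ‖bE‖ := (norm_mul_le _ _).trans (by gcongr; exact norm_V_le ζ)
  have h2 : ‖star (V ζ)‖ ≤ 1 := by rw [norm_star]; exact norm_V_le ζ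
  calc ‖bT ζ‖ ≤ ‖V ζ * bE‖ * ‖star (V ζ)‖ := norm_mul_le _ _
    _ ≤ (1 * ‖bE‖) * 1 := by gcongr
    _ = ‖bE‖ := by ring

theorem bT_rot (z : Circle) (ζ : S3) : bT (S3.rot z ζ) = bT ζ := by
  have hz : (z : ℂ) * (starRingEnd ℂ) (z : ℂ) = 1 := by
    rw [Complex.mul_conj, Complex.normSq_eq_norm_sq, Circle.norm_coe]; simp
  rw [bT, V_rot, star_smul, smul_mul_assoc, smul_mul_assoc, mul_smul_comm, smul_smul]
  change ((z : ℂ) * (starRingEnd ℂ) (z : ℂ)) • _ = _
  rw [hz, one_smul, bT]

/-- the direct sum of the projections -/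
noncomputable def bQ (b : ℕ → S3) : Op := dsum fun i => bT (b i)

theorem bQ_ub (b : ℕ → S3) : UB fun i => bT (b i) := ⟨‖bE‖, fun _ => norm_bT_le _⟩

theorem bQ_star (b : ℕ → S3) : star (bQ b) = bQ b := by
  rw [bQ, dsum_star (bQ_ub b)]
  simp only [bT_star]

theorem bQ_mul (b : ℕ → S3) : bQ b * bQ b = bQ b := by
  rw [bQ, dsum_mul (bQ_ub b) (bQ_ub b)]
  simp only [bT_mul]

theorem cont_co (c : Ix) : Continuous fun x : XX => x c := continuous_apply c

theorem scont_bT {c : Ix} : SCont fun x : XX => bT (x c) :=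
  ((SCont.V (cont_co c)).mul (SCont.const bE)).mul (SCont.V (cont_co c)).star

theorem scont_bQ {p : ℕ → Ix} : SCont fun x : XX => bQ fun i => x (p i) :=
  SCont.dsum (fun _ => scont_bT) ⟨‖bE‖, fun _ _ => norm_bT_le _⟩

theorem bQ_rot {p : ℕ → Ix} (c : Ix) (z : Circle) (x : XX) :
    (bQ fun i => rotAt c z x (p i)) = bQ fun i => x (p i) := by
  unfold bQ
  congr 1
  funext i
  beta_reduce
  by_cases h : p i = c
  · rw [h, rotAt_self, bT_rot]
  · rw [rotAt_of_ne h]

theorem isF_bA : IsF fun x => V ee * bQ (pa x) * star (V ee) :=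
  ⟨((SCont.const _).mul scont_bQ).mul (SCont.const _), fun c z x => by
    have := bQ_rot (p := fun i => some (false, i)) c z x
    change V ee * (bQ fun i => rotAt c z x (some (false, i))) * star (V ee) = _
    rw [this]; rfl⟩

theorem isF_bB : IsF fun x => V (x none) * bQ (pb x) * star (V (x none)) :=
  ⟨((SCont.V (cont_co none)).mul (scont_bQ (p := fun i => some (true, i)))).mul
    (SCont.V (cont_co none)).star,
    fun c z x => by
    have h1 := bQ_rot (p := fun i => some (true, i)) c z x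
    change V (rotAt c z x none) * (bQ fun i => rotAt c z x (some (true, i))) *
      star (V (rotAt c z x none)) = _
    rw [h1]
    change _ = V (x none) * (bQ fun i => x (some (true, i))) * star (V (x none))
    by_cases h : (none : Ix) = c
    · rw [← h, rotAt_self, V_rot, star_smul, smul_mul_assoc, smul_mul_assoc, mul_smul_comm,
        smul_smul]
      have hz : (z : ℂ) * (starRingEnd ℂ) (z : ℂ) = 1 := by
        rw [Complex.mul_conj, Complex.normSq_eq_norm_sq, Circle.norm_coe]; simp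
      change ((z : ℂ) * (starRingEnd ℂ) (z : ℂ)) • _ = _
      rw [hz, one_smul]
    · rw [rotAt_of_ne h]⟩

theorem norm_sq_VQV (ζ : S3) (b : ℕ → S3) (f : Hb) :
    HasSum (fun i => ‖⟪V ζ (S i (V (b i) bz)), f⟫_ℂ‖ ^ 2)
      (‖(V ζ * bQ b * star (V ζ)) f‖ ^ 2) := by
  have h1 := Complex.hasSum_re (hasSum_inner_dsum (bQ_ub b) (star (V ζ) f))
  have h2 : (⟪star (V ζ) f, dsum (fun i => bT (b i)) (star (V ζ) f)⟫_ℂ).re =
      ‖(V ζ * bQ b * star (V ζ)) f‖ ^ 2 := by
    have hs : star (V ζ * bQ b * star (V ζ)) = V ζ * bQ b * star (V ζ) := by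
      rw [star_mul, star_mul, star_star, bQ_star, mul_assoc]
    have h3 : star (V ζ * bQ b * star (V ζ)) * (V ζ * bQ b * star (V ζ)) =
        V ζ * bQ b * star (V ζ) := by
      rw [hs, VcV_mul, bQ_mul]
    have h4 : ⟪(V ζ * bQ b * star (V ζ)) f, (V ζ * bQ b * star (V ζ)) f⟫_ℂ =
        ⟪star (V ζ) f, dsum (fun i => bT (b i)) (star (V ζ) f)⟫_ℂ := by
      rw [← inner_star_right, ← mul_apply', h3, inner_star_left]
      rfl
    rw [← h4, inner_self_eq_norm_sq_to_K]
    norm_cast
  rw [h2] at h1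
  convert h1 using 1
  funext i
  rw [inner_bT, Complex.ofReal_re, inner_star_right, inner_star_right]

/-- the line bundles -/
noncomputable def bl (κ : Bool × ℕ) (x : XX) : Hb :=
  V (if κ.1 then x none else ee) (S κ.2 (V (x (some κ)) bz))

theorem continuous_bl (κ : Bool × ℕ) : Continuous (bl κ) := by
  have h1 : Continuous fun x : XX => V (x (some κ)) bz :=
    (continuous_V.comp (cont_co (some κ))).clm_apply continuous_const
  have h2 : Continuous fun x : XX => V (if κ.1 then x none else ee) := by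
    cases κ.1
    · simpa using continuous_const
    · have h3 := continuous_V.comp (cont_co none)
      simp only [if_true]
      exact h3
  exact h2.clm_apply ((S κ.2).continuous.comp h1)

/-- the weights of the line bundles -/
def bw (κ : Bool × ℕ) (c : Ix) : ℕ :=
  (if c = some κ then 1 else 0) + (if κ.1 ∧ c = none then 1 else 0)

theorem hasW_bl (κ : Bool × ℕ) : HasW (bw κ) (bl κ) := by
  intro c z x
  obtain ⟨β, i⟩ := κ
  have h1 : V (rotAt c z x (some (β, i))) =
      ((z : ℂ) ^ (if c = some (β, i) then 1 else 0)) • V (x (some (β, i))) := by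
    split_ifs with h
    · rw [h, rotAt_self, V_rot, pow_one]
    · rw [rotAt_of_ne (Ne.symm h), pow_zero, one_smul]
  have h2 : V (if β then rotAt c z x none else ee) =
      ((z : ℂ) ^ (if β ∧ c = none then 1 else 0)) • V (if β then x none else ee) := by
    cases β
    · simp
    · simp only [if_true, true_and]
      split_ifs with h
      · rw [h, rotAt_self, V_rot, pow_one]
      · rw [rotAt_of_ne (Ne.symm h), pow_zero, one_smul]
  simp only [bl, bw]
  rw [h1, h2, pow_add]
  simp only [smul_apply, map_smul, smul_smul]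

theorem good_aux (y : XX → Op) (a b : ℂ) (ha : ‖a‖ ≤ 1) (hb : ‖b‖ ≤ 1)
    (hy : ∀ x, y x = a • (V ee * bQ (pa x) * star (V ee)) +
      b • (V (x none) * bQ (pb x) * star (V (x none)))) :
    GoodIn Set.univ fun x => star (y x) * y x := by
  refine ⟨Bool × ℕ, fun κ x => (Real.sqrt 2 : ℂ) • bl κ x, bw, id,
    fun κ => by
      have h3 := (continuous_const_smul (Real.sqrt 2 : ℂ)).comp (continuous_bl κ)
      exact h3, fun κ c z x => ?_, Function.injective_id,
    fun _ => Set.mem_univ _, fun κ => ?_, fun x f ε hε => ?_⟩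
  · beta_reduce
    rw [hasW_bl κ c z x, smul_comm]
  · simp [bw]
  · have h1 := norm_sq_VQV ee (pa x) f
    have h2 := norm_sq_VQV (x none) (pb x) f
    set A := (V ee * bQ (pa x) * star (V ee)) f with hA
    set B := (V (x none) * bQ (pb x) * star (V (x none))) f with hB
    have h3 := (h1.eventually (lt_mem_nhds (show ‖A‖ ^ 2 - ε / 4 < ‖A‖ ^ 2 by linarith))).and
      (h2.eventually (lt_mem_nhds (show ‖B‖ ^ 2 - ε / 4 < ‖B‖ ^ 2 by linarith)))
    obtain ⟨N, hN1, hN2⟩ := h3.exists
    refine ⟨Finset.univ ×ˢ N, ?_⟩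
    rw [Finset.sum_product, Fintype.sum_bool]
    have h4 : (⟪f, (star (y x) * y x) f⟫_ℂ).re = ‖a • A + b • B‖ ^ 2 := by
      rw [mul_apply', inner_star_right, inner_self_eq_norm_sq_to_K]
      have : (y x) f = a • A + b • B := by rw [hy x]; rfl
      rw [this]
      norm_cast
    have h5 : ‖a • A + b • B‖ ≤ ‖A‖ + ‖B‖ := by
      refine (norm_add_le _ _).trans ?_
      rw [norm_smul, norm_smul]
      have := norm_nonneg A
      have := norm_nonneg B
      nlinarith
    have h6 : ‖a • A + b • B‖ ^ 2 ≤ 2 * ‖A‖ ^ 2 + 2 * ‖B‖ ^ 2 := by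
      have h7 := norm_nonneg (a • A + b • B)
      nlinarith [sq_nonneg (‖A‖ - ‖B‖)]
    have h8 : ∀ v : Hb, ‖⟪(Real.sqrt 2 : ℂ) • v, f⟫_ℂ‖ ^ 2 = 2 * ‖⟪v, f⟫_ℂ‖ ^ 2 := by
      intro v
      rw [inner_smul_left, norm_mul, mul_pow, RCLike.norm_conj, Complex.norm_real,
        Real.norm_eq_abs, sq_abs, Real.sq_sqrt (by norm_num)]
    have h9 : ∀ i, bl (false, i) x = V ee (S i (V (pa x i) bz)) := fun i => rfl
    have h10 : ∀ i, bl (true, i) x = V (x none) (S i (V (pb x i) bz)) := fun i => rfl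
    simp only [h8, h9, h10, ← Finset.mul_sum]
    rw [h4]
    linarith

theorem exists_base : ∃ y : II, (∀ t, GoodIn Set.univ ((star y * y).at' t).fn) ∧
    ∀ x, (y.at' 0).fn x ≠ 0 ∧ (y.at' 0).fn x * (V ee * star (V ee)) = (y.at' 0).fn x := by
  let fA : BB := BB.mk _ isF_bA
  let fB : BB := BB.mk _ isF_bB
  let p : I → BB := fun t => ((1 - (t : ℝ) : ℝ) : ℂ) • fA + ((t : ℝ) : ℂ) • fB
  have hp : Continuous p := by
    have h1 : Continuous fun t : I => (((1 - (t : ℝ) : ℝ)) : ℂ) := by fun_prop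
    have h2 : Continuous fun t : I => (((t : ℝ)) : ℂ) := by fun_prop
    exact (h1.smul continuous_const).add (h2.smul continuous_const)
  have hp0 : p 0 = fA := by simp [p]
  have hp1 : p 1 = fB := by simp [p]
  have h0 : InB0 (p 0) := by rw [hp0]; exact ⟨bQ, fun x => rfl⟩
  have h1 : InB1 (p 1) := by rw [hp1]; exact ⟨bQ, fun x => rfl⟩
  refine ⟨II.mk p hp h0 h1, fun t => ?_, fun x => ?_⟩
  · have h2 := good_aux (fun x => (p t).fn x) ((1 - (t : ℝ) : ℝ) : ℂ) ((t : ℝ) : ℂ) (by
      rw [Complex.norm_real, Real.norm_eq_abs, abs_of_nonneg (by linarith [t.2.2])]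
      linarith [t.2.1]) (by
      rw [Complex.norm_real, Real.norm_eq_abs, abs_of_nonneg t.2.1]
      exact t.2.2) (fun x => rfl)
    exact h2
  · rw [II.at'_mk, hp0]
    change V ee * bQ (pa x) * star (V ee) ≠ 0 ∧ V ee * bQ (pa x) * star (V ee) *
      (V ee * star (V ee)) = V ee * bQ (pa x) * star (V ee)
    constructor
    · intro h3
      have h4 := norm_sq_VQV ee (pa x) (V ee (S 0 (V (pa x 0) bz)))
      have h4' : HasSum (fun i => ‖⟪V ee (S i (V (pa x i) bz)),
          V ee (S 0 (V (pa x 0) bz))⟫_ℂ‖ ^ 2) (0 : ℝ) := by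
        rw [h3] at h4
        simpa using h4
      have h5 := (hasSum_zero_iff_of_nonneg (fun i => by positivity)).1 h4'
      have h6 := congrFun h5 (0 : ℕ)
      have h7 : ‖V ee (S 0 (V (pa x 0) bz))‖ = 1 := by
        rw [norm_of_star_mul_self (star_V_mul_V ee), norm_S, norm_Vbz]
      simp only [inner_self_eq_norm_sq_to_K, h7] at h6
      norm_num at h6
    · have : V ee * bQ (pa x) * star (V ee) * (V ee * star (V ee)) =
          V ee * bQ (pa x) * (star (V ee) * V ee) * star (V ee) := by noncomm_ring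
      rw [this, star_V_mul_V, mul_one]

end Pool.Agent.Lib.Ell
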