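import Pool.Agent.Lib.Ell.Fld

set_option autoImplicit false

/-!
Two isometries of `BB` under a projection `c`, each having room (an isometry under `c` with
orthogonal range), are joined by a norm continuous path of isometries under `c`.
-/

open scoped InnerProductSpace unitInterval

namespace Pool.Agent.Lib.Ell

/-- isometries under `c` -/
def IsoIn (c : BB) : Set BB := {f | star f * f = 1 ∧ c * f = f}

/-! ### nearly orthogonal isometries are joined -/

section Near

variable {A : Type*} [CStarAlgebra A]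

/-- the function `x ^ (-1/2)` -/
noncomputable def isq (x : ℝ) : ℝ := (Real.sqrt x)⁻¹

theorem isq_cont : ContinuousOn isq (Set.Icc (1/2) (3/2)) := by
  apply ContinuousOn.inv₀ Real.continuous_sqrt.continuousOn
  intro x hx
  have : 0 < x := by linarith [hx.1]
  exact (Real.sqrt_pos.2 this).ne'

theorem spec_near {d : A} (hd : ‖d - 1‖ ≤ 1/2) : spectrum ℝ d ⊆ Set.Icc (1/2) (3/2) := by
  intro x hx
  rcases subsingleton_or_nontrivial A with hA | hA
  · exfalso
    rw [spectrum.mem_iff] at hx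
    exact hx (isUnit_of_subsingleton _)
  have h1 : x - 1 ∈ spectrum ℝ (d - 1) := by
    rw [spectrum.mem_iff] at hx ⊢
    have : (algebraMap ℝ A) (x - 1) - (d - 1) = (algebraMap ℝ A) x - d := by
      rw [map_sub, map_one]; abel
    rw [this]; exact hx
  have h2 := spectrum.norm_le_norm_of_mem h1
  have h3 : |x - 1| ≤ 1/2 := h2.trans hd
  rw [abs_le] at h3
  constructor <;> linarith [h3.1, h3.2]

theorem isq_mul {d : A} (hsa : IsSelfAdjoint d) (hd : ‖d - 1‖ ≤ 1/2) :
    cfc isq d * d * cfc isq d = 1 := by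
  have hs := spec_near hd
  have hc : ContinuousOn isq (spectrum ℝ d) := isq_cont.mono hs
  have h1 : cfc isq d * d * cfc isq d = cfc (fun x => isq x * x * isq x) d := by
    rw [cfc_mul (fun x => isq x * x) isq d (hc.mul continuousOn_id) hc,
      cfc_mul isq (fun x => x) d hc continuousOn_id, cfc_id' ℝ d]
  rw [h1]
  rw [cfc_congr (g := fun _ => (1:ℝ))]
  · exact cfc_const_one ℝ d
  · intro x hx
    have hx0 : 0 < x := by linarith [(hs hx).1]
    have hsq : 0 < Real.sqrt x := Real.sqrt_pos.2 hx0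
    have h2 : Real.sqrt x * Real.sqrt x = x := Real.mul_self_sqrt hx0.le
    simp only [isq]
    field_simp
    nlinarith [h2]

theorem isq_one : cfc isq (1 : A) = 1 := by
  have h := cfc_algebraMap (A := A) (1 : ℝ) isq
  rw [map_one] at h
  rw [h]
  simp [isq]

/-- isometries with small inner product are joined -/
theorem joined_near {c α β : A} (hα : star α * α = 1) (hβ : star β * β = 1) (cα : c * α = α)
    (cβ : c * β = β) (h : ‖star β * α‖ ≤ 1 / 4) :
    JoinedIn {f : A | star f * f = 1 ∧ c * f = f} α β := by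
  set δ : ℝ → A := fun θ => ((Real.cos (Real.pi / 2 * θ) : ℝ) : ℂ) • α +
    ((Real.sin (Real.pi / 2 * θ) : ℝ) : ℂ) • β with hδ
  set d : ℝ → A := fun θ => star (δ θ) * δ θ with hd
  have hδc : Continuous δ := by
    apply Continuous.add
    · exact (Complex.continuous_ofReal.comp (Real.continuous_cos.comp
        (continuous_const.mul continuous_id))).smul continuous_const
    · exact (Complex.continuous_ofReal.comp (Real.continuous_sin.comp
        (continuous_const.mul continuous_id))).smul continuous_const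
  have hdc : Continuous d := (continuous_star.comp hδc).mul hδc
  have hdsa : ∀ θ, IsSelfAdjoint (d θ) := fun θ => IsSelfAdjoint.star_mul_self _
  have hnd : ∀ θ, ‖d θ - 1‖ ≤ 1/2 := by
    intro θ
    set co : ℝ := Real.cos (Real.pi / 2 * θ) with hco
    set si : ℝ := Real.sin (Real.pi / 2 * θ) with hsi
    have hcs : co ^ 2 + si ^ 2 = 1 := Real.cos_sq_add_sin_sq _
    have e : d θ - 1 = ((co * si : ℝ) : ℂ) • (star α * β + star β * α) := by
      have e1 : d θ = (((co ^ 2 : ℝ)) : ℂ) • (star α * α) + ((si ^ 2 : ℝ) : ℂ) • (star β * β) +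
          ((co * si : ℝ) : ℂ) • (star α * β + star β * α) := by
        simp only [hd, hδ, ← hco, ← hsi]
        simp only [star_add, star_smul, add_mul, mul_add, smul_mul_assoc, mul_smul_comm,
          smul_smul, smul_add, RCLike.star_def, Complex.conj_ofReal]
        push_cast
        module
      have e2 : (((co ^ 2 : ℝ)) : ℂ) • (1 : A) + ((si ^ 2 : ℝ) : ℂ) • (1 : A) = 1 := by
        rw [← add_smul, ← Complex.ofReal_add, hcs]; simp
      rw [e1, hα, hβ, e2]; abel
    have h1 : ‖star α * β‖ ≤ 1/4 := by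
      have : star α * β = star (star β * α) := by rw [star_mul, star_star]
      rw [this, norm_star]; exact h
    have h2 : ‖star α * β + star β * α‖ ≤ 1/2 := (norm_add_le _ _).trans (by linarith)
    have h3 : |co * si| ≤ 1 := by
      rw [abs_le]; constructor <;> nlinarith [sq_nonneg (co + si), sq_nonneg (co - si)]
    rw [e, norm_smul, Complex.norm_real, Real.norm_eq_abs]
    calc |co * si| * ‖star α * β + star β * α‖ ≤ 1 * (1/2) :=
          mul_le_mul h3 h2 (norm_nonneg _) zero_le_one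
      _ = 1/2 := one_mul _
  set r : ℝ → A := fun θ => cfc isq (d θ) with hr
  have hrc : Continuous r :=
    Continuous.cfc' (s := Set.Icc (1/2 : ℝ) (3/2)) isCompact_Icc isq hdc
      (fun θ => spec_near (hnd θ)) isq_cont hdsa
  have hrsa : ∀ θ, star (r θ) = r θ := fun θ => (cfc_predicate isq (d θ)).star_eq
  have hcδ : ∀ θ, c * δ θ = δ θ := by
    intro θ
    simp only [hδ, mul_add, mul_smul_comm, cα, cβ]
  refine JoinedIn.ofLine (f := fun θ => δ θ * r θ) (hδc.mul hrc).continuousOn ?_ ?_ ?_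
  · have e0 : δ 0 = α := by simp [hδ]
    have e1 : d 0 = 1 := by simp only [hd]; rw [e0, hα]
    simp only [hr]; rw [e0, e1, isq_one, mul_one]
  · have e0 : δ 1 = β := by simp [hδ]
    have e1 : d 1 = 1 := by simp only [hd]; rw [e0, hβ]
    simp only [hr]; rw [e0, e1, isq_one, mul_one]
  · rintro _ ⟨θ, _, rfl⟩
    constructor
    · have h1 := isq_mul (hdsa θ) (hnd θ)
      simp only
      rw [star_mul, hrsa]
      calc r θ * star (δ θ) * (δ θ * r θ) = r θ * d θ * r θ := by
            simp only [hd, mul_assoc]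
        _ = 1 := h1
    · simp only
      rw [← mul_assoc, hcδ]

end Near

/-! ### the sparse lemma -/

/-- coefficients of a continuous vector field over a compact space are uniformly small -/
theorem unif_small {g : XX → Hb} (hg : Continuous g) {ε : ℝ} (hε : 0 < ε) :
    ∃ F : Finset (ℕ × ℕ), ∀ l ∉ F, ∀ x, ‖⟪eb l, g x⟫_ℂ‖ ≤ ε := by
  classical
  have hfin : ∀ h : Hb, {l : ℕ × ℕ | ε / 2 < ‖⟪eb l, h⟫_ℂ‖}.Finite := by
    intro h
    have h1 : Summable fun l => ‖⟪eb l, h⟫_ℂ‖ ^ 2 := orthonormal_eb.inner_products_summable h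
    have h2 := h1.tendsto_cofinite_zero
    have h3 : ∀ᶠ l in Filter.cofinite, ‖⟪eb l, h⟫_ℂ‖ ^ 2 < (ε / 2) ^ 2 :=
      h2.eventually_lt_const (by positivity)
    rw [Filter.eventually_cofinite] at h3
    refine h3.subset ?_
    intro l hl
    simp only [Set.mem_ofPred_eq, not_lt] at hl ⊢
    exact pow_le_pow_left₀ (by positivity) hl.le 2
  obtain ⟨t, ht⟩ := isCompact_univ.elim_finite_subcover
    (fun x0 : XX => {x | ‖g x - g x0‖ < ε / 2})
    (fun x0 => isOpen_lt ((hg.sub continuous_const).norm) continuous_const)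
    (fun x _ => Set.mem_iUnion.2 ⟨x, by simp [hε]⟩)
  refine ⟨t.biUnion fun x0 => (hfin (g x0)).toFinset, ?_⟩
  intro l hl x
  have hx := ht (Set.mem_univ x)
  rw [Set.mem_iUnion₂] at hx
  obtain ⟨x0, hx0, hxx⟩ := hx
  have h1 : ‖⟪eb l, g x0⟫_ℂ‖ ≤ ε / 2 := by
    by_contra hcon
    apply hl
    rw [Finset.mem_biUnion]
    exact ⟨x0, hx0, by simpa using hcon⟩
  have h2 : ‖⟪eb l, g x - g x0⟫_ℂ‖ ≤ ε / 2 := by
    refine (norm_inner_le_norm _ _).trans ?_
    rw [norm_eb, one_mul]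
    have hxx' : ‖g x - g x0‖ < ε / 2 := hxx
    exact hxx'.le
  have e : ⟪eb l, g x⟫_ℂ = ⟪eb l, g x0⟫_ℂ + ⟪eb l, g x - g x0⟫_ℂ := by
    rw [← inner_add_right]; congr 1; abel
  rw [e]
  exact (norm_add_le _ _).trans (by linarith)

/-- the entries of a field -/
noncomputable def ent (T : BB) (l k : ℕ × ℕ) (x : XX) : ℝ := ‖⟪eb l, T.fn x (eb k)⟫_ℂ‖

theorem ent_small_left (T : BB) (k : ℕ × ℕ) {ε : ℝ} (hε : 0 < ε) :
    ∃ F : Finset (ℕ × ℕ), ∀ l ∉ F, ∀ x, ent T l k x ≤ ε :=
  unif_small (T.scont.cont (eb k)) hε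

theorem ent_small_right (T : BB) (l : ℕ × ℕ) {ε : ℝ} (hε : 0 < ε) :
    ∃ F : Finset (ℕ × ℕ), ∀ k ∉ F, ∀ x, ent T l k x ≤ ε := by
  obtain ⟨F, hF⟩ := unif_small (T.scont.cont_star (eb l)) hε
  refine ⟨F, fun k hk x => ?_⟩
  have h := hF k hk x
  rw [inner_star_right] at h
  rw [ent, norm_inner_symm]
  exact h

/-- the relation used to build the sparse sequences -/
def spr (T : BB) (p q : ℕ × (ℕ × ℕ) × (ℕ × ℕ)) : Prop :=
  p.1 < q.1 ∧ p.2.1 ≠ q.2.1 ∧ p.2.2 ≠ q.2.2 ∧
    (∀ x, ent T q.2.2 p.2.1 x ≤ (1/2) ^ (p.1 + q.1 + 4)) ∧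
    (∀ x, ent T p.2.2 q.2.1 x ≤ (1/2) ^ (p.1 + q.1 + 4))

theorem exists_sparse_seq (T : BB) : ∃ f : ℕ → ℕ × (ℕ × ℕ) × (ℕ × ℕ),
    (∀ n x, ent T (f n).2.2 (f n).2.1 x ≤ (1/2) ^ ((f n).1 + (f n).1 + 4)) ∧
    ∀ m n, m < n → spr T (f m) (f n) := by
  classical
  have key := exists_seq_of_forall_finset_exists
    (fun p : ℕ × (ℕ × ℕ) × (ℕ × ℕ) => ∀ x, ent T p.2.2 p.2.1 x ≤ (1/2) ^ (p.1 + p.1 + 4))
    (spr T) ?_
  · exact key
  intro s _
  set b : ℕ := s.sup (fun p => p.1) + 1 with hb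
  have hlt : ∀ p ∈ s, p.1 < b := fun p hp => Nat.lt_succ_of_le (Finset.le_sup (f := fun p => p.1) hp)
  choose FR hFR using fun l : ℕ × ℕ => ent_small_right T l
    (ε := (1/2) ^ (b + b + 4)) (by positivity)
  choose FL hFL using fun k : ℕ × ℕ => ent_small_left T k
    (ε := (1/2) ^ (b + b + 4)) (by positivity)
  obtain ⟨k, hk⟩ := Infinite.exists_notMem_finset
    (s.biUnion (fun p => FR p.2.2) ∪ s.image (fun p => p.2.1))
  obtain ⟨l, hl⟩ := Infinite.exists_notMem_finset
    (s.biUnion (fun p => FL p.2.1) ∪ s.image (fun p => p.2.2) ∪ FL k)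
  simp only [Finset.mem_union, Finset.mem_biUnion, Finset.mem_image, not_or, not_exists,
    not_and] at hk hl
  refine ⟨(b, k, l), fun x => hFL k l hl.2 x, ?_⟩
  intro p hp
  have hpow : ((1:ℝ)/2) ^ (b + b + 4) ≤ (1/2) ^ (p.1 + b + 4) :=
    pow_le_pow_of_le_one (by norm_num) (by norm_num) (by have := hlt p hp; omega)
  refine ⟨hlt p hp, hk.2 p hp, hl.1.2 p hp, fun x => ?_, fun x => ?_⟩
  · exact (hFL p.2.1 l (hl.1.1 p hp) x).trans hpow
  · exact (hFR p.2.2 k (hk.1 p hp) x).trans hpow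

theorem hasSum_pair : HasSum (fun i : ℕ × ℕ => ((1:ℝ)/2) ^ (Nat.pair i.1 i.2)) 2 := by
  have h := hasSum_geometric_two
  have h2 := (Equiv.hasSum_iff Nat.pairEquiv).2 h
  exact h2

theorem norm_le_of_entries {A : Op}
    (hA : ∀ j i : ℕ × ℕ, ‖⟪eb j, A (eb i)⟫_ℂ‖ ≤
      (1/16) * ((1/2) ^ (Nat.pair i.1 i.2) * (1/2) ^ (Nat.pair j.1 j.2))) : ‖A‖ ≤ 1/4 := by
  have h1 : ∀ i, ‖A (eb i)‖ ≤ (1/8) * (1/2) ^ (Nat.pair i.1 i.2) := by
    intro i
    have hs := hasSum_eb (A (eb i))
    have hg : HasSum (fun j : ℕ × ℕ => (1/16 * (1/2) ^ (Nat.pair i.1 i.2)) *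
        ((1:ℝ)/2) ^ (Nat.pair j.1 j.2)) ((1/16 * (1/2) ^ (Nat.pair i.1 i.2)) * 2) :=
      hasSum_pair.mul_left _
    have := hs.norm_le_of_bounded hg (fun j => by
      rw [norm_smul, norm_eb, mul_one]
      refine (hA j i).trans (le_of_eq ?_)
      ring)
    refine this.trans (le_of_eq ?_)
    ring
  apply ContinuousLinearMap.opNorm_le_bound _ (by norm_num)
  intro f
  have hs := (hasSum_eb f).mapL A
  have hg : HasSum (fun i : ℕ × ℕ => (‖f‖ * (1/8)) * ((1:ℝ)/2) ^ (Nat.pair i.1 i.2))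
      ((‖f‖ * (1/8)) * 2) := hasSum_pair.mul_left _
  have := hs.norm_le_of_bounded hg (fun i => by
    rw [map_smul, norm_smul]
    have h2 : ‖⟪eb i, f⟫_ℂ‖ ≤ ‖f‖ := by
      refine (norm_inner_le_norm _ _).trans ?_
      rw [norm_eb, one_mul]
    calc ‖⟪eb i, f⟫_ℂ‖ * ‖A (eb i)‖ ≤ ‖f‖ * ((1/8) * (1/2) ^ (Nat.pair i.1 i.2)) :=
          mul_le_mul h2 (h1 i) (norm_nonneg _) (norm_nonneg _)
      _ = _ := by ring)
  refine this.trans (le_of_eq ?_)
  ring

theorem exists_sparse (T : BB) : ∃ u w : Op, star u * u = 1 ∧ star w * w = 1 ∧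
    ‖star (BB.cst w) * T * BB.cst u‖ ≤ 1 / 4 := by
  obtain ⟨f, hd, hr⟩ := exists_sparse_seq T
  have hmono : StrictMono fun n => (f n).1 := fun m n hmn => (hr m n hmn).1
  have hge : ∀ n, n ≤ (f n).1 := fun n => hmono.le_apply
  have hki : Function.Injective fun n => (f n).2.1 := by
    intro m n h
    rcases lt_trichotomy m n with h1 | h1 | h1
    · exact absurd h (hr m n h1).2.1
    · exact h1
    · exact absurd h.symm (hr n m h1).2.1
  have hli : Function.Injective fun n => (f n).2.2 := by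
    intro m n h
    rcases lt_trichotomy m n with h1 | h1 | h1
    · exact absurd h (hr m n h1).2.2.1
    · exact h1
    · exact absurd h.symm (hr n m h1).2.2.1
  have hent : ∀ m n x, ent T (f m).2.2 (f n).2.1 x ≤ (1/2) ^ (n + m + 4) := by
    intro m n x
    have hp : ∀ a b : ℕ, n ≤ a → m ≤ b → ((1:ℝ)/2) ^ (a + b + 4) ≤ (1/2) ^ (n + m + 4) :=
      fun a b ha hb => pow_le_pow_of_le_one (by norm_num) (by norm_num) (by omega)
    rcases lt_trichotomy m n with h1 | h1 | h1
    · refine ((hr m n h1).2.2.2.2 x).trans ?_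
      rw [add_comm (f m).1 (f n).1]
      exact hp _ _ (hge n) (hge m)
    · subst h1
      exact (hd m x).trans (hp _ _ (hge m) (hge m))
    · exact ((hr n m h1).2.2.2.1 x).trans (hp _ _ (hge n) (hge m))
  have hpinj : Function.Injective fun i : ℕ × ℕ => Nat.pair i.1 i.2 := by
    rintro ⟨a, b⟩ ⟨c, d⟩ h
    have := Nat.pair_eq_pair.1 h
    exact Prod.ext this.1 this.2
  set U : Op := pm (fun i => (f (Nat.pair i.1 i.2)).2.1) (hki.comp hpinj) with hU
  set W : Op := pm (fun i => (f (Nat.pair i.1 i.2)).2.2) (hli.comp hpinj) with hW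
  refine ⟨U, W, star_pm_mul _ _, star_pm_mul _ _, ?_⟩
  apply BB.norm_le (by norm_num)
  intro x
  apply norm_le_of_entries
  intro j i
  have e : (star (BB.cst W) * T * BB.cst U).fn x = star W * T.fn x * U := by simp
  rw [e, mul_apply', mul_apply', inner_star_right, hU, hW, pm_eb, pm_eb]
  refine (hent (Nat.pair j.1 j.2) (Nat.pair i.1 i.2) x).trans (le_of_eq ?_)
  rw [pow_add, pow_add]; norm_num; ring

theorem joined_isoIn (c : BB) {α β γα γβ : BB} (hα : α ∈ IsoIn c)
    (hβ : β ∈ IsoIn c) (hγα : γα ∈ IsoIn c) (hγβ : γβ ∈ IsoIn c)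
    (h1 : star γα * α = 0) (h2 : star γβ * β = 0) : JoinedIn (IsoIn c) α β := by
  obtain ⟨u, w, hu, hw, huw⟩ := exists_sparse (star β * α)
  have hu' : star (BB.cst u) * BB.cst u = 1 := by
    apply BB.ext; intro x; simp [hu]
  have hw' : star (BB.cst w) * BB.cst w = 1 := by
    apply BB.ext; intro x; simp [hw]
  have hαu : α * BB.cst u ∈ IsoIn c := by
    refine ⟨?_, ?_⟩
    · calc star (α * BB.cst u) * (α * BB.cst u) = star (BB.cst u) * (star α * α) * BB.cst u := by
            rw [star_mul]; simp only [mul_assoc]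
        _ = 1 := by rw [hα.1, mul_one, hu']
    · rw [← mul_assoc, hα.2]
  have hβw : β * BB.cst w ∈ IsoIn c := by
    refine ⟨?_, ?_⟩
    · calc star (β * BB.cst w) * (β * BB.cst w) = star (BB.cst w) * (star β * β) * BB.cst w := by
            rw [star_mul]; simp only [mul_assoc]
        _ = 1 := by rw [hβ.1, mul_one, hw']
    · rw [← mul_assoc, hβ.2]
  have j1 : JoinedIn (IsoIn c) α γα :=
    joined_near hα.1 hγα.1 hα.2 hγα.2 (by rw [h1, norm_zero]; norm_num)
  have j2 : JoinedIn (IsoIn c) (α * BB.cst u) γα :=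
    joined_near hαu.1 hγα.1 hαu.2 hγα.2 (by
      rw [← mul_assoc, h1, zero_mul, norm_zero]; norm_num)
  have j3 : JoinedIn (IsoIn c) (α * BB.cst u) (β * BB.cst w) :=
    joined_near hαu.1 hβw.1 hαu.2 hβw.2 (by
      have : star (β * BB.cst w) * (α * BB.cst u) = star (BB.cst w) * (star β * α) * BB.cst u := by
        rw [star_mul]; simp only [mul_assoc]
      rw [this]; exact huw)
  have j4 : JoinedIn (IsoIn c) (β * BB.cst w) γβ :=
    joined_near hβw.1 hγβ.1 hβw.2 hγβ.2 (by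
      rw [← mul_assoc, h2, zero_mul, norm_zero]; norm_num)
  have j5 : JoinedIn (IsoIn c) β γβ :=
    joined_near hβ.1 hγβ.1 hβ.2 hγβ.2 (by rw [h2, norm_zero]; norm_num)
  exact j1.trans (j2.symm.trans (j3.trans (j4.trans j5.symm)))

end Pool.Agent.Lib.Ell
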