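import Mathlib

set_option autoImplicit false

/-!
MODULE Ell.ProjHom (pure C*-algebra theory, no dependence on other files).

Close projections are unitarily equivalent; lifting of paths of projections to paths of unitaries.
-/

open scoped unitInterval

namespace Pool.Agent.Lib.Ell

theorem exists_unitary_of_norm_lt {A : Type*} [CStarAlgebra A] {p q : A}
    (hp : IsStarProjection p) (hq : IsStarProjection q) (h : ‖p - q‖ < 1) :
    ∃ u : A, u ∈ unitary A ∧ u * p * star u = q := by
  have hpp : p * p = p := hp.isIdempotentElem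
  have hqq : q * q = q := hq.isIdempotentElem
  have hps : star p = p := hp.isSelfAdjoint
  have hqs : star q = q := hq.isSelfAdjoint
  set z : A := q * p + (1 - q) * (1 - p) with hz
  have hzp : z * p = q * z := by
    have h1 : z * p = q * p := by
      rw [hz, add_mul, mul_assoc, hpp, mul_assoc, sub_mul 1 p p, one_mul, hpp, sub_self,
        mul_zero, add_zero]
    have h2 : q * z = q * p := by
      rw [hz, mul_add, ← mul_assoc, hqq, ← mul_assoc, mul_sub q 1 q, mul_one, hqq, sub_self,
        zero_mul, add_zero]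
    rw [h1, h2]
  -- the unitary `2 q - 1`
  have hs2 : (2 * q - 1) * (2 * q - 1) = 1 := by
    have : (2 * q - 1) * (2 * q - 1) = 4 * (q * q) - 4 * q + 1 := by noncomm_ring
    rw [this, hqq]; noncomm_ring
  have hss : star (2 * q - 1) = 2 * q - 1 := by
    rw [star_sub, star_one, two_mul, star_add, hqs]
  have hsU : (2 * q - 1) ∈ unitary A := by
    rw [Unitary.mem_iff, hss]; exact ⟨hs2, hs2⟩
  have h1z : 1 - z = (2 * q - 1) * (q - p) := by
    have : (2 * q - 1) * (q - p) = 2 * (q * q) - 2 * (q * p) - q + p := by noncomm_ring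
    rw [this, hqq, hz]; noncomm_ring
  have hn : ‖1 - z‖ < 1 := by
    rw [h1z, CStarRing.norm_mem_unitary_mul _ hsU, ← norm_neg, neg_sub]; exact h
  have hzu : IsUnit z := by
    have := (Units.oneSub (1 - z) hn).isUnit
    simpa using this
  set b : A := star z * z with hb
  have hbu : IsUnit b := hzu.star.mul hzu
  have hbsa : IsSelfAdjoint b := IsSelfAdjoint.star_mul_self z
  have hzq : star z * q = p * star z := by
    have := congrArg star hzp
    rw [star_mul, star_mul, hps, hqs] at this
    exact this.symm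
  have hbp : Commute b p := by
    show b * p = p * b
    rw [hb, mul_assoc, hzp, ← mul_assoc, hzq, mul_assoc]
  have hpos : ∀ x ∈ spectrum ℝ b, 0 < x := by
    intro x hx
    have h0 : 0 ≤ x := spectrum_star_mul_self_nonneg x hx
    rcases h0.lt_or_eq with h0 | h0
    · exact h0
    · exfalso
      rw [← h0] at hx
      exact (spectrum.zero_notMem_iff ℝ).2 hbu hx
  set r : A := cfc (fun x : ℝ => (Real.sqrt x)⁻¹) b with hr
  have hrsa : star r = r := by
    have : IsSelfAdjoint r := cfc_predicate _ _
    exact this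
  have hrp : Commute r p := Commute.cfc_real hbp _
  have hcont : ContinuousOn (fun x : ℝ => (Real.sqrt x)⁻¹) (spectrum ℝ b) := by
    apply ContinuousOn.inv₀
    · exact Real.continuous_sqrt.continuousOn
    · intro x hx
      exact (Real.sqrt_pos.2 (hpos x hx)).ne'
  have hrbr : r * b * r = 1 := by
    have hid : b = cfc (fun x : ℝ => x) b := (cfc_id' ℝ b).symm
    have e1 : r * b = cfc (fun x : ℝ => (Real.sqrt x)⁻¹ * x) b := by
      rw [cfc_mul (fun x : ℝ => (Real.sqrt x)⁻¹) (fun x : ℝ => x) b hcont continuousOn_id, ← hid]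
    have e2 : r * b * r = cfc (fun x : ℝ => (Real.sqrt x)⁻¹ * x * (Real.sqrt x)⁻¹) b := by
      rw [cfc_mul (fun x : ℝ => (Real.sqrt x)⁻¹ * x) (fun x : ℝ => (Real.sqrt x)⁻¹) b
        (hcont.mul continuousOn_id) hcont, ← e1]
    rw [e2]
    have e3 : cfc (fun x : ℝ => (Real.sqrt x)⁻¹ * x * (Real.sqrt x)⁻¹) b
        = cfc (fun _ : ℝ => (1 : ℝ)) b := by
      apply cfc_congr
      intro x hx
      have hx0 := hpos x hx
      have hs := Real.mul_self_sqrt hx0.le
      have hs0 : Real.sqrt x ≠ 0 := (Real.sqrt_pos.2 hx0).ne'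
      show (Real.sqrt x)⁻¹ * x * (Real.sqrt x)⁻¹ = 1
      field_simp
      nlinarith [hs]
    rw [e3]
    exact cfc_const_one ℝ b
  have hbr : b * r = r * b := ((Commute.cfc_real (Commute.refl b) _ : Commute r b)).symm
  have hru : IsUnit r := by
    refine ⟨⟨r, b * r, ?_, ?_⟩, rfl⟩
    · rw [← mul_assoc, hrbr]
    · rw [hbr, hrbr]
  refine ⟨z * r, ?_, ?_⟩
  · refine (hzu.mul hru).mem_unitary_of_star_mul_self ?_
    rw [star_mul, hrsa, mul_assoc, ← mul_assoc (star z), ← hb, ← mul_assoc, hrbr]
  · have hU : z * r ∈ unitary A := by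
      refine (hzu.mul hru).mem_unitary_of_star_mul_self ?_
      rw [star_mul, hrsa, mul_assoc, ← mul_assoc (star z), ← hb, ← mul_assoc, hrbr]
    have hup : z * r * p = q * (z * r) := by
      have := hrp.eq
      rw [mul_assoc, this, ← mul_assoc, hzp, mul_assoc]
    rw [hup, mul_assoc, Unitary.mul_star_self_of_mem hU, mul_one]

/-- The end points of a path of projections are unitarily equivalent. -/
theorem exists_unitary_of_path {A : Type*} [CStarAlgebra A] (p : C(I, A))
    (hp : ∀ t, IsStarProjection (p t)) (s t : I) :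
    ∃ u : A, u ∈ unitary A ∧ u * p s * star u = p t := by
  refine PreconnectedSpace.induction₂' (fun s t : I => ∃ u : A, u ∈ unitary A ∧
    u * p s * star u = p t) ?_ ?_ s t
  · intro x
    have hc : ContinuousAt p x := p.continuous.continuousAt
    have := Metric.continuousAt_iff'.1 hc 1 one_pos
    filter_upwards [this] with y hy
    rw [dist_eq_norm] at hy
    refine ⟨?_, exists_unitary_of_norm_lt (hp y) (hp x) hy⟩
    rw [← norm_neg, neg_sub] at hy
    exact exists_unitary_of_norm_lt (hp x) (hp y) hy
  · refine ⟨?_⟩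
    rintro x y z ⟨u, hu, h1⟩ ⟨v, hv, h2⟩
    refine ⟨v * u, mul_mem hv hu, ?_⟩
    rw [star_mul, ← h2, ← h1]
    simp only [mul_assoc]

theorem lift_path {B : Type*} [CStarAlgebra B] (p : C(I, B)) (hp : ∀ t, IsStarProjection (p t)) :
    ∃ u : C(I, B), (∀ t, u t ∈ unitary B) ∧ u 0 = 1 ∧ ∀ t, u t * p 0 * star (u t) = p t := by
  let m : C(I × I, I) := ⟨fun st => st.1 * st.2, by fun_prop⟩
  let P : C(I, C(I, B)) := (p.comp m).curry
  have hP : ∀ s t, P s t = p (s * t) := fun s t => rfl
  have hproj : ∀ s, IsStarProjection (P s) := by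
    intro s
    refine ⟨?_, ?_⟩
    · ext t
      exact (hp (s * t)).isIdempotentElem
    · ext t
      exact (hp (s * t)).isSelfAdjoint
  obtain ⟨w, hw, hw2⟩ := exists_unitary_of_path P hproj 0 1
  have hwt : ∀ t, w t ∈ unitary B := by
    intro t
    rw [Unitary.mem_iff] at hw ⊢
    exact ⟨by simpa using congrArg (fun f : C(I, B) => f t) hw.1,
      by simpa using congrArg (fun f : C(I, B) => f t) hw.2⟩
  have hconj : ∀ t, w t * p 0 * star (w t) = p t := by
    intro t
    have := congrArg (fun f : C(I, B) => f t) hw2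
    simpa [hP] using this
  have h0 := hconj 0
  have h0' : star (w 0) * p 0 * w 0 = p 0 := by
    have : star (w 0) * (w 0 * p 0 * star (w 0)) * w 0 = star (w 0) * p 0 * w 0 := by rw [h0]
    rw [← this]
    have e : star (w 0) * (w 0 * p 0 * star (w 0)) * w 0
        = (star (w 0) * w 0) * p 0 * (star (w 0) * w 0) := by simp only [mul_assoc]
    rw [e, Unitary.star_mul_self_of_mem (hwt 0), one_mul, mul_one]
  refine ⟨⟨fun t => w t * star (w 0), by fun_prop⟩, ?_, ?_, ?_⟩
  · intro t
    exact mul_mem (hwt t) (Unitary.star_mem (hwt 0))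
  · exact Unitary.mul_star_self_of_mem (hwt 0)
  · intro t
    show w t * star (w 0) * p 0 * star (w t * star (w 0)) = p t
    rw [star_mul, star_star]
    have e : w t * star (w 0) * p 0 * (w 0 * star (w t))
        = w t * (star (w 0) * p 0 * w 0) * star (w t) := by simp only [mul_assoc]
    rw [e, h0', hconj]

end Pool.Agent.Lib.Ell
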