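import Pool.Agent.Lib.Ell.Fld

set_option autoImplicit false

/-!
MODULE Ell.Triv (uses Fld.lean and Hilb.lean only).

Trivialisation of the infinite multiple of the Hopf line bundle.

PROOF.  Write ζ = x none, ζ_j = S3.co j ζ, V = V ζ (V* V = 1, V (rot z ζ) = z V ζ).
* J(x) = conj(ζ_0) V S 0 + conj(ζ_1) V S 1 is an isometry in BB (rotation invariant since the
  phases cancel; strongly continuous by the SCont lemmas), and J J* ≤ V V*, i.e. V V* J = J.
* r = V V* - J J* is a projection, J* r = 0, r V V* = r.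
* R∞ = dsum (fun _ => r) = ∑ S m r (S m)^* (projection; `dsum` lemmas), Sh = the constant isometry
  with Sh S m = S (m+1) (e.g. `pm` of the injection (pair m a, b) ↦ (pair (m+1) a, b); then
  Sh* S 0 = 0, Sh* S (m+1) = S m).
* W = Sh R∞ + (1 - R∞).  Then W* W = 1 (the cross terms vanish: R∞ Sh* (1 - R∞) = 0 because
  Sh R∞ = R∞ Sh R∞, check on S m) and W W* = 1 - S 0 r (S 0)^*, in particular W* S 0 r = 0.
* D = J W* + r (S 0)^*.  D* D = W W* + S 0 r (S 0)^* = 1 and D D* = J J* + r = V V*.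
* G(x) = ζ_0 V⊥ S 0 + ζ_1 V⊥ S 1 with V⊥ = -conj(ζ_1) s 0 + conj(ζ_0) s 1 (isometry of weight -1,
  V* V⊥ = 0), so G is an isometry in BB with V* G = 0, hence G* D = G* V V* D = 0.
-/

open scoped InnerProductSpace unitInterval

namespace Pool.Agent.Lib.Ell

open Pool.Agent.Lib.P81d4f5 (S3)

/-! ### the shift -/

/-- the injection behind the shift -/
def shf (i : ℕ × ℕ) : ℕ × ℕ := (Nat.pair ((Nat.unpair i.1).1 + 1) (Nat.unpair i.1).2, i.2)

theorem shf_injective : Function.Injective shf := by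
  rintro ⟨a, b⟩ ⟨c, d⟩ h
  simp only [shf, Prod.mk.injEq, Nat.pair_eq_pair, add_left_inj] at h
  refine Prod.ext ?_ h.2
  change a = c
  rw [← Nat.pair_unpair a, ← Nat.pair_unpair c, h.1.1, h.1.2]

/-- the constant shift isometry -/
noncomputable def Sh : Op := pm shf shf_injective

theorem star_Sh_mul : star Sh * Sh = 1 := star_pm_mul _ _

theorem Sh_mul_S (m : ℕ) : Sh * S m = S (m + 1) := by
  apply op_ext
  rintro ⟨a, b⟩
  rw [mul_apply', S_eb, S_eb, Sh, pm_eb]
  simp [shf, Sf]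

theorem star_Sh_mul_S_succ (m : ℕ) : star Sh * S (m + 1) = S m := by
  rw [← Sh_mul_S, ← mul_assoc, star_Sh_mul, one_mul]

theorem star_Sh_mul_S_zero : star Sh * S 0 = 0 := by
  apply op_ext
  rintro ⟨a, b⟩
  rw [mul_apply', S_eb, Sh, star_pm_eb_of_notMem]
  · rfl
  · rintro ⟨c, d⟩ h
    simp only [shf, Sf, Prod.mk.injEq, Nat.pair_eq_pair] at h
    omega

/-! ### pointwise algebra: the trivialising isometry -/

section Alg

variable {J v r : Op}

/-- the isometry `W` -/
noncomputable def Wr (r : Op) : Op := Sh * dsum (fun _ => r) + (1 - dsum fun _ => r)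

theorem Wr_mul_S (r : Op) (m : ℕ) : Wr r * S m = S (m + 1) * r + S m - S m * r := by
  rw [Wr, add_mul, sub_mul, one_mul, mul_assoc, dsum_mul_S (UB.const r), ← mul_assoc, Sh_mul_S]
  abel

theorem star_Wr_mul_S_zero (hs : star r = r) : star (Wr r) * S 0 = S 0 - S 0 * r := by
  have h1 : star (dsum fun _ => r) = dsum fun _ => r := by
    rw [dsum_star (UB.const r)]; simp only [hs]
  rw [Wr, star_add, star_mul, star_sub, star_one, h1, add_mul, mul_assoc, star_Sh_mul_S_zero,
    mul_zero, zero_add, sub_mul, one_mul, dsum_mul_S (UB.const r)]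

theorem star_Wr_mul_S_succ (hs : star r = r) (m : ℕ) :
    star (Wr r) * S (m + 1) = S m * r + (S (m + 1) - S (m + 1) * r) := by
  have h1 : star (dsum fun _ => r) = dsum fun _ => r := by
    rw [dsum_star (UB.const r)]; simp only [hs]
  rw [Wr, star_add, star_mul, star_sub, star_one, h1, add_mul, mul_assoc, star_Sh_mul_S_succ,
    sub_mul, one_mul, dsum_mul_S (UB.const r), dsum_mul_S (UB.const r)]

theorem star_Wr_mul_Wr (hs : star r = r) (hr : r * r = r) : star (Wr r) * Wr r = 1 := by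
  apply ext_S
  intro m
  rw [mul_assoc, Wr_mul_S, mul_sub, mul_add, ← mul_assoc, star_Wr_mul_S_succ hs, ← mul_assoc,
    one_mul]
  rcases m with _ | m
  · rw [star_Wr_mul_S_zero hs]
    simp only [add_mul, sub_mul, mul_assoc, hr]
    abel
  · rw [star_Wr_mul_S_succ hs]
    simp only [add_mul, sub_mul, mul_assoc, hr]
    abel

theorem Wr_mul_star_Wr (hs : star r = r) (hr : r * r = r) :
    Wr r * star (Wr r) = 1 - S 0 * r * star (S 0) := by
  apply ext_S
  intro m
  rw [mul_assoc, sub_mul, one_mul]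
  rcases m with _ | m
  · rw [star_Wr_mul_S_zero hs, mul_sub, ← mul_assoc, Wr_mul_S, mul_assoc (S 0 * r),
      star_S_mul_self, mul_one]
    simp only [add_mul, sub_mul, mul_assoc, hr]
    abel
  · rw [star_Wr_mul_S_succ hs, mul_add, mul_sub, ← mul_assoc, ← mul_assoc, Wr_mul_S, Wr_mul_S,
      mul_assoc (S 0 * r), star_S_mul_of_ne (Nat.succ_ne_zero m).symm, mul_zero, sub_zero]
    simp only [add_mul, sub_mul, mul_assoc, hr]
    abel

theorem star_Wr_mul_S_zero_mul (hs : star r = r) (hr : r * r = r) :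
    star (Wr r) * S 0 * r = 0 := by
  rw [star_Wr_mul_S_zero hs, sub_mul, mul_assoc, hr, sub_self]

/-- the trivialising isometry `D` -/
noncomputable def Dr (J r : Op) : Op := J * star (Wr r) + r * star (S 0)

theorem star_Dr_mul_Dr (hJ : star J * J = 1) (hs : star r = r) (hr : r * r = r)
    (hJr : star J * r = 0) : star (Dr J r) * Dr J r = 1 := by
  have hrJ : r * J = 0 := by
    have := congrArg star hJr
    simpa [hs] using this
  have e1 : star (Dr J r) * Dr J r =
      Wr r * (star J * J) * star (Wr r) + Wr r * (star J * r) * star (S 0)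
        + (S 0 * (r * J) * star (Wr r) + S 0 * (r * r) * star (S 0)) := by
    rw [Dr, star_add, star_mul, star_mul, star_star, star_star, hs]
    simp only [add_mul, mul_add, mul_assoc]
    abel
  rw [e1, hJ, hJr, hrJ, hr, mul_one, mul_zero, mul_zero, zero_mul, zero_mul, add_zero, zero_add,
    Wr_mul_star_Wr hs hr, sub_add_cancel]

theorem Dr_mul_star_Dr (hs : star r = r) (hr : r * r = r) :
    Dr J r * star (Dr J r) = J * star J + r := by
  have e0 : r * (star (S 0) * Wr r) = 0 := by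
    have := congrArg star (star_Wr_mul_S_zero_mul hs hr)
    simpa [hs, mul_assoc] using this
  have e1 : Dr J r * star (Dr J r) =
      J * (star (Wr r) * Wr r) * star J + J * (star (Wr r) * S 0 * r)
        + (r * (star (S 0) * Wr r) * star J + r * (star (S 0) * S 0) * r) := by
    rw [Dr, star_add, star_mul, star_mul, star_star, star_star, hs]
    simp only [add_mul, mul_add, mul_assoc]
    abel
  rw [e1, star_Wr_mul_Wr hs hr, star_Wr_mul_S_zero_mul hs hr, e0, star_S_mul_self]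
  simp [hr]

end Alg

/-! ### the fields -/

/-- the isometry `J` -/
noncomputable def Jf (ζ : S3) : Op :=
  (starRingEnd ℂ) (S3.co 0 ζ) • (V ζ * S 0) + (starRingEnd ℂ) (S3.co 1 ζ) • (V ζ * S 1)

/-- the orthogonal isometry -/
noncomputable def Vp (ζ : S3) : Op :=
  (-(starRingEnd ℂ) (S3.co 1 ζ)) • s 0 + (starRingEnd ℂ) (S3.co 0 ζ) • s 1

/-- the isometry `G` -/
noncomputable def Gf (ζ : S3) : Op :=
  S3.co 0 ζ • (Vp ζ * S 0) + S3.co 1 ζ • (Vp ζ * S 1)

theorem co_sum (ζ : S3) : (starRingEnd ℂ) (S3.co 0 ζ) * S3.co 0 ζ +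
    (starRingEnd ℂ) (S3.co 1 ζ) * S3.co 1 ζ = 1 := ip_self ζ

theorem star_Jf (ζ : S3) : star (Jf ζ) = S3.co 0 ζ • (star (S 0) * star (V ζ)) +
    S3.co 1 ζ • (star (S 1) * star (V ζ)) := by
  rw [Jf, star_add, star_smul, star_smul, star_mul, star_mul]
  simp

theorem star_Gf (ζ : S3) : star (Gf ζ) =
    (starRingEnd ℂ) (S3.co 0 ζ) • (star (S 0) * star (Vp ζ)) +
    (starRingEnd ℂ) (S3.co 1 ζ) • (star (S 1) * star (Vp ζ)) := by
  rw [Gf, star_add, star_smul, star_smul, star_mul, star_mul]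
  rfl

theorem star_Vp (ζ : S3) : star (Vp ζ) =
    (-(S3.co 1 ζ)) • star (s 0) + S3.co 0 ζ • star (s 1) := by
  rw [Vp, star_add, star_smul, star_smul]
  simp

theorem star_Vp_mul_Vp (ζ : S3) : star (Vp ζ) * Vp ζ = 1 := by
  rw [star_Vp, Vp]
  simp only [add_mul, mul_add, smul_mul_smul_comm, star_s_mul_self,
    star_s_mul_of_ne (show (0 : Fin 2) ≠ 1 by decide),
    star_s_mul_of_ne (show (1 : Fin 2) ≠ 0 by decide), smul_zero, add_zero, zero_add]
  rw [← add_smul, ← one_smul ℂ (1 : Op), ← co_sum ζ]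
  congr 1
  · ring
  · rw [co_sum, one_smul]

theorem star_Vp_mul_V (ζ : S3) : star (Vp ζ) * V ζ = 0 := by
  rw [star_Vp, V]
  simp only [add_mul, mul_add, smul_mul_smul_comm, star_s_mul_self,
    star_s_mul_of_ne (show (0 : Fin 2) ≠ 1 by decide),
    star_s_mul_of_ne (show (1 : Fin 2) ≠ 0 by decide), smul_zero, add_zero, zero_add]
  rw [← add_smul]
  have : -S3.co 1 ζ * S3.co 0 ζ + S3.co 0 ζ * S3.co 1 ζ = 0 := by ring
  rw [this, zero_smul]

/-- a pair of scalars and an isometry give an isometry -/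
theorem iso_aux {a b a' b' : ℂ} (h : a * a' + b * b' = 1) {U : Op} (hU : star U * U = 1) :
    (a • (star (S 0) * star U) + b • (star (S 1) * star U)) *
      (a' • (U * S 0) + b' • (U * S 1)) = 1 := by
  have e : ∀ i j : ℕ, star (S i) * star U * (U * S j) = star (S i) * S j := by
    intro i j
    rw [mul_assoc, ← mul_assoc (star U), hU, one_mul]
  simp only [add_mul, mul_add, smul_mul_smul_comm, e, star_S_mul_self,
    star_S_mul_of_ne (show (0 : ℕ) ≠ 1 by decide),
    star_S_mul_of_ne (show (1 : ℕ) ≠ 0 by decide), smul_zero, add_zero, zero_add]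
  rw [← add_smul, h, one_smul]

theorem star_Jf_mul_Jf (ζ : S3) : star (Jf ζ) * Jf ζ = 1 := by
  rw [star_Jf, Jf]
  refine iso_aux ?_ (star_V_mul_V ζ)
  rw [← co_sum ζ]; ring

theorem star_Gf_mul_Gf (ζ : S3) : star (Gf ζ) * Gf ζ = 1 := by
  rw [star_Gf, Gf]
  exact iso_aux (co_sum ζ) (star_Vp_mul_Vp ζ)

theorem V_star_Jf (ζ : S3) : V ζ * star (V ζ) * Jf ζ = Jf ζ := by
  rw [Jf, mul_add, mul_smul_comm, mul_smul_comm, mul_assoc, mul_assoc, ← mul_assoc (star (V ζ)),
    ← mul_assoc (star (V ζ)), star_V_mul_V, one_mul, one_mul]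

theorem star_Gf_mul_V (ζ : S3) : star (Gf ζ) * V ζ = 0 := by
  rw [star_Gf, add_mul, smul_mul_assoc, smul_mul_assoc, mul_assoc, mul_assoc, star_Vp_mul_V,
    mul_zero, mul_zero, smul_zero, smul_zero, add_zero]

/-- the remaining projection -/
noncomputable def rf (ζ : S3) : Op := V ζ * star (V ζ) - Jf ζ * star (Jf ζ)

theorem star_rf (ζ : S3) : star (rf ζ) = rf ζ := by
  simp [rf]

theorem star_Jf_V (ζ : S3) : star (Jf ζ) * (V ζ * star (V ζ)) = star (Jf ζ) := by
  have := congrArg star (V_star_Jf ζ)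
  simpa [mul_assoc] using this

theorem star_Jf_mul_rf (ζ : S3) : star (Jf ζ) * rf ζ = 0 := by
  rw [rf, mul_sub, star_Jf_V, ← mul_assoc, star_Jf_mul_Jf, one_mul, sub_self]

theorem rf_mul_rf (ζ : S3) : rf ζ * rf ζ = rf ζ := by
  have e1 : V ζ * star (V ζ) * rf ζ = rf ζ := by
    rw [rf, mul_sub, ← mul_assoc, ← mul_assoc, V_star_Jf, mul_assoc (V ζ), star_V_mul_V, mul_one]
  nth_rewrite 1 [rf]
  rw [sub_mul, e1, mul_assoc, star_Jf_mul_rf, mul_zero, sub_zero]

/-! ### strong continuity and invariance -/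

theorem continuous_coconj (j : Fin 2) {Y : Type*} [TopologicalSpace Y] {f : Y → S3}
    (hf : Continuous f) : Continuous fun y => (starRingEnd ℂ) (S3.co j (f y)) :=
  Complex.continuous_conj.comp ((S3.continuous_co j).comp hf)

theorem bdd_coconj (j : Fin 2) {Y : Type*} (f : Y → S3) :
    ∃ C, ∀ y, ‖(starRingEnd ℂ) (S3.co j (f y))‖ ≤ C :=
  ⟨1, fun y => by rw [Complex.norm_conj]; exact S3.norm_co_le j (f y)⟩

theorem bdd_co (j : Fin 2) {Y : Type*} (f : Y → S3) :
    ∃ C, ∀ y, ‖S3.co j (f y)‖ ≤ C :=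
  ⟨1, fun y => S3.norm_co_le j (f y)⟩

section Sc

variable {Y : Type*} [TopologicalSpace Y] {f : Y → S3}

theorem sc_Jf (hf : Continuous f) : SCont fun y => Jf (f y) :=
  (((SCont.V hf).mul (SCont.const (S 0))).smul (continuous_coconj 0 hf) (bdd_coconj 0 f)).add
    (((SCont.V hf).mul (SCont.const (S 1))).smul (continuous_coconj 1 hf) (bdd_coconj 1 f))

theorem sc_Vp (hf : Continuous f) : SCont fun y => Vp (f y) :=
  ((SCont.const (s 0)).smul (continuous_coconj 1 hf).neg
    (by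
      obtain ⟨C, hC⟩ := bdd_coconj 1 f
      exact ⟨C, fun y => by rw [Pi.neg_apply, norm_neg]; exact hC y⟩)).add
    ((SCont.const (s 1)).smul (continuous_coconj 0 hf) (bdd_coconj 0 f))

theorem sc_Gf (hf : Continuous f) : SCont fun y => Gf (f y) :=
  (((sc_Vp hf).mul (SCont.const (S 0))).smul ((S3.continuous_co 0).comp hf) (bdd_co 0 f)).add
    (((sc_Vp hf).mul (SCont.const (S 1))).smul ((S3.continuous_co 1).comp hf) (bdd_co 1 f))

theorem sc_rf (hf : Continuous f) : SCont fun y => rf (f y) :=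
  ((SCont.V hf).mul (SCont.V hf).star).sub ((sc_Jf hf).mul (sc_Jf hf).star)

theorem sc_Wr (hf : Continuous f) : SCont fun y => Wr (rf (f y)) := by
  have h1 : SCont fun y => dsum fun _ => rf (f y) := by
    apply SCont.dsum fun _ => sc_rf hf
    obtain ⟨C, hC⟩ := (sc_rf hf).bdd
    exact ⟨C, fun _ => hC⟩
  exact ((SCont.const Sh).mul h1).add ((SCont.const 1).sub h1)

theorem sc_Dr (hf : Continuous f) : SCont fun y => Dr (Jf (f y)) (rf (f y)) :=
  ((sc_Jf hf).mul (sc_Wr hf).star).add ((sc_rf hf).mul (SCont.const (star (S 0))))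

end Sc

theorem circ_conj (z : Circle) : (starRingEnd ℂ) (z : ℂ) * (z : ℂ) = 1 := by
  rw [mul_comm, Complex.mul_conj, Complex.normSq_eq_norm_sq, Circle.norm_coe]
  simp

theorem Jf_rot (z : Circle) (ζ : S3) : Jf (S3.rot z ζ) = Jf ζ := by
  have h : ∀ a : ℂ, (starRingEnd ℂ) ((z : ℂ) * a) * (z : ℂ) = (starRingEnd ℂ) a := by
    intro a
    rw [map_mul, mul_right_comm, circ_conj, one_mul]
  simp only [Jf, V_rot, S3.co_rot, smul_mul_assoc, smul_smul, h]

theorem Vp_rot (z : Circle) (ζ : S3) : Vp (S3.rot z ζ) = (starRingEnd ℂ) (z : ℂ) • Vp ζ := by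
  simp only [Vp, S3.co_rot, map_mul, smul_add, smul_smul, mul_neg]

theorem Gf_rot (z : Circle) (ζ : S3) : Gf (S3.rot z ζ) = Gf ζ := by
  have h : ∀ a : ℂ, (z : ℂ) * a * (starRingEnd ℂ) (z : ℂ) = a := by
    intro a
    rw [mul_right_comm, mul_comm (z : ℂ), circ_conj, one_mul]
  simp only [Gf, Vp_rot, S3.co_rot, smul_mul_assoc, smul_smul, h]

theorem rf_rot (z : Circle) (ζ : S3) : rf (S3.rot z ζ) = rf ζ := by
  rw [rf, rf, Jf_rot, V_rot, star_smul, smul_mul_smul_comm]
  have : (z : ℂ) * star (z : ℂ) = 1 := by rw [mul_comm]; exact circ_conj z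
  rw [this, one_smul]

/-- a rotation invariant field of the special coordinate -/
theorem isF_none {F : S3 → Op} (hF : SCont F) (hr : ∀ z ζ, F (S3.rot z ζ) = F ζ) :
    IsF fun x : XX => F (x none) := by
  refine ⟨hF.comp (continuous_apply none), fun c z x => ?_⟩
  by_cases h : (none : Ix) = c
  · subst h
    rw [rotAt_self, hr]
  · rw [rotAt_of_ne h]

theorem exists_triv : ∃ D G : BB, star D * D = 1 ∧
    (∀ x, D.fn x * star (D.fn x) = V (x none) * star (V (x none))) ∧
    star G * G = 1 ∧ star G * D = 0 := by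
  have hD : IsF fun x : XX => Dr (Jf (x none)) (rf (x none)) :=
    isF_none (F := fun ζ => Dr (Jf ζ) (rf ζ)) (sc_Dr continuous_id) fun z ζ => by
      simp only [Jf_rot, rf_rot]
  have hG : IsF fun x : XX => Gf (x none) :=
    isF_none (F := Gf) (sc_Gf continuous_id) Gf_rot
  have hDD : ∀ ζ, Dr (Jf ζ) (rf ζ) * star (Dr (Jf ζ) (rf ζ)) = V ζ * star (V ζ) := by
    intro ζ
    rw [Dr_mul_star_Dr (star_rf ζ) (rf_mul_rf ζ), rf, add_sub_cancel]
  have hD1 : ∀ ζ, star (Dr (Jf ζ) (rf ζ)) * Dr (Jf ζ) (rf ζ) = 1 := fun ζ =>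
    star_Dr_mul_Dr (star_Jf_mul_Jf ζ) (star_rf ζ) (rf_mul_rf ζ) (star_Jf_mul_rf ζ)
  refine ⟨BB.mk _ hD, BB.mk _ hG, ?_, ?_, ?_, ?_⟩
  · apply BB.ext
    intro x
    simp only [BB.fn_mul, BB.fn_star, BB.fn_mk, BB.fn_one]
    exact hD1 _
  · intro x
    simp only [BB.fn_mk]
    exact hDD _
  · apply BB.ext
    intro x
    simp only [BB.fn_mul, BB.fn_star, BB.fn_mk, BB.fn_one]
    exact star_Gf_mul_Gf _
  · apply BB.ext
    intro x
    simp only [BB.fn_mul, BB.fn_star, BB.fn_mk, BB.fn_zero]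
    have h1 : Dr (Jf (x none)) (rf (x none)) =
        V (x none) * star (V (x none)) * Dr (Jf (x none)) (rf (x none)) := by
      rw [← hDD, mul_assoc, hD1, mul_one]
    rw [h1, ← mul_assoc, ← mul_assoc, star_Gf_mul_V, zero_mul, zero_mul]

end Pool.Agent.Lib.Ell
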