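import Pool.Agent.Lib.Ell.Blk
import Pool.Agent.Lib.Ell.ProjHom
import Pool.Agent.Lib.Ell.Join
import Pool.Agent.Lib.Ell.Triv
import Pool.Agent.Lib.Ell.Rank

set_option autoImplicit false

/-!
MODULE Ell.Class (uses ProjHom, Join, Triv, Rank).

There is a projection q in the block algebra II with q(0) = V_e V_e^* such that every non-zero
projection of II dominates a copy of q (with something left over).

PROOF.  Let D, G be from `exists_triv`.
* q.  The isometries BB.cst (s 0) (= V ee) and D of BB have room (BB.cst (s 1), resp. G), so by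
  `joined_isoIn 1` there is a norm continuous path δ : I → BB of isometries with δ 0 = cst (s 0),
  δ 1 = D.  q t = δ t * star (δ t), q 0 = V_e V_e^*, q 1 = V_ζ V_ζ^* (both end conditions with c = 1).
* Let p ≠ 0 be a projection in II: p(0)(x) = V_e c₀(a) V_e^*, p(1)(x) = V_ζ c₁(b) V_ζ^*
  (a = pa x, b = pb x, ζ = x none; c₀ = cf0, c₁ = cf1 of Blk.lean; they are projections for every
  a, b).  Let u be from `lift_path` for p.toMM : u 0 = 1, u t p(0) u t^* = p(t).  Put u₁ = u 1 : BB.
  p ≠ 0 implies p(0)(x) ≠ 0 for some x, so c₀(a₀) ≠ 0 for some a₀, hence (via u₁ at points with first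
  coordinates a₀) c₁(b) ≠ 0 for all b, hence c₀(a) ≠ 0 for all a.
* `rank_infinite` for U ζ = u₁.fn (mkx a₀ b₀ ζ), b₀ any point (say constant ee) and c₀(a₀), c₁(b₀):
  isometries j₀, j₁ : Op with c₀(a₀) j₀ = j₀, c₁(b₀) j₁ = j₁.
* θ₀(a) = V_e^* u₁(a, b₀, ee)^* V_e j₁  (note V ee = V of the special coordinate ee at that point):
  an isometry, c₀(a) θ₀(a) = θ₀(a), strongly continuous and rotation invariant in a.
  θ₁(b) = V_e^* u₁(a₀, b, ee) V_e j₀: an isometry with c₁(b) θ₁(b) = θ₁(b).
* In BB let c = (x ↦ c₀(pa x)) (a projection of BB), α = θ₀(pa x) S 0, γα = θ₀(pa x) S 1,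
  β = V_e^* u₁^* V_ζ θ₁(pb x) S 0 V_ζ^* D, γβ = V_e^* u₁^* V_ζ θ₁(pb x) S 1 V_ζ^* D; all four are in
  IsoIn c (for β: V_ζ θ₁ has range in p(1), u₁^* maps it into the range of p(0) = V_e c₀ V_e^*; and
  V_ζ^* D is a (weight -1) isometry since D D* = V_ζ V_ζ^*; all the fields are rotation invariant:
  the two phases of V_ζ and V_ζ^* cancel; use IsF / SCont lemmas), star γα * α = 0, star γβ * β = 0.
  `joined_isoIn c` gives a path θ'' from α to β in IsoIn c.
* v t = u t * cst (V ee) * θ'' t * star (δ t).  v* v = δ δ* = q, p v = v.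
  v 0 = V_e θ₀(a) S 0 V_e^* (δ 0 = V_e, u 0 = 1), v 1 = u₁ V_e β D^* = V_ζ θ₁(b) S 0 V_ζ^* D D^* =
  V_ζ θ₁(b) S 0 V_ζ^* (use V_e V_e^* u₁^* V_ζ θ₁ = u₁^* V_ζ θ₁ and D D^* = V_ζ V_ζ^*).  So v ∈ II.
* v v* ≠ p: at time 0, v v*(0) = V_e θ₀ S0 S0^* θ₀^* V_e^*, while p(0) fixes V_e θ₀ S 1 h ≠ 0 and
  v v*(0) kills it.
-/

open scoped InnerProductSpace unitInterval

namespace Pool.Agent.Lib.Ell

open Pool.Agent.Lib.P81d4f5 (S3)

/-- transport of an isometry through an intertwining unitary -/
theorem inter_left {R : Type*} [Ring R] [StarRing R] {a b c d w j : R} (ha : star a * a = 1)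
    (hb : star b * b = 1) (hw : star w * w = 1)
    (h : w * (a * c * star a) * star w = b * d * star b) (hj : d * j = j) :
    a * (star a * star w * b * j) = star w * b * j ∧
      c * (star a * star w * b * j) = star a * star w * b * j := by
  have h1 : star w * b * j = a * c * star a * (star w * b * j) := by
    calc star w * b * j = star w * b * (d * j) := by rw [hj]
      _ = star w * (b * d * star b) * b * j := by
          calc star w * b * (d * j) = star w * b * d * 1 * j := by noncomm_ring
            _ = star w * b * d * (star b * b) * j := by rw [hb]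
            _ = _ := by noncomm_ring
      _ = star w * (w * (a * c * star a) * star w) * b * j := by rw [h]
      _ = (star w * w) * (a * c * star a) * star w * b * j := by noncomm_ring
      _ = _ := by rw [hw]; noncomm_ring
  constructor
  · calc a * (star a * star w * b * j) = a * star a * (star w * b * j) := by noncomm_ring
      _ = a * star a * (a * c * star a * (star w * b * j)) := by rw [← h1]
      _ = a * (star a * a) * c * star a * (star w * b * j) := by noncomm_ring
      _ = a * c * star a * (star w * b * j) := by rw [ha]; noncomm_ring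
      _ = _ := h1.symm
  · calc c * (star a * star w * b * j) = 1 * c * star a * (star w * b * j) := by noncomm_ring
      _ = (star a * a) * c * star a * (star w * b * j) := by rw [ha]
      _ = star a * (a * c * star a * (star w * b * j)) := by noncomm_ring
      _ = star a * (star w * b * j) := by rw [← h1]
      _ = _ := by noncomm_ring

theorem inter_iso {R : Type*} [Ring R] [StarRing R] {a b c d w j k : R} (ha : star a * a = 1)
    (hb : star b * b = 1) (hw : star w * w = 1) (hw' : w * star w = 1)
    (h : w * (a * c * star a) * star w = b * d * star b) (hj : d * j = j) (hk : d * k = k) :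
    star (star a * star w * b * k) * (star a * star w * b * j) = star k * j := by
  obtain ⟨h1, -⟩ := inter_left ha hb hw h hj
  obtain ⟨h2, -⟩ := inter_left ha hb hw h hk
  calc star (star a * star w * b * k) * (star a * star w * b * j)
      = star (star a * star w * b * k) * 1 * (star a * star w * b * j) := by noncomm_ring
    _ = star (star a * star w * b * k) * (star a * a) * (star a * star w * b * j) := by rw [ha]
    _ = star (a * (star a * star w * b * k)) * (a * (star a * star w * b * j)) := by
        rw [star_mul a]; noncomm_ring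
    _ = star (star w * b * k) * (star w * b * j) := by rw [h1, h2]
    _ = star k * star b * (w * star w) * b * j := by
        simp only [star_mul, star_star]; noncomm_ring
    _ = star k * (star b * b) * j := by rw [hw']; noncomm_ring
    _ = star k * j := by rw [hb]; noncomm_ring

/-- the field depending on the first coordinates only -/
noncomputable def fa (f : BB) : BB := BB.mk (fun x => f.fn (mkx (pa x) (fun _ => ee) ee))
  ⟨f.scont.comp (continuous_mkx continuous_pa continuous_const continuous_const), by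
    intro c z x
    rcases c with _ | ⟨_ | _, i⟩
    · congr 1
    · have : mkx (pa (rotAt (some (false, i)) z x)) (fun _ => ee) ee =
          rotAt (some (false, i)) z (mkx (pa x) (fun _ => ee) ee) := by
        funext d
        by_cases hd : d = some (false, i)
        · subst hd
          rw [rotAt_self]
          simp [mkx, pa, rotAt]
        · rw [rotAt_of_ne hd]
          rcases d with _ | ⟨_ | _, k⟩
          · rfl
          · simp [mkx, pa, rotAt_of_ne hd]
          · rfl
      rw [this, f.inv]
    · congr 1⟩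

theorem fa_fn (f : BB) (x : XX) : (fa f).fn x = f.fn (mkx (pa x) (fun _ => ee) ee) := rfl

/-- the field depending on the second coordinates only -/
noncomputable def fb (f : BB) : BB := BB.mk (fun x => f.fn (mkx (fun _ => ee) (pb x) ee))
  ⟨f.scont.comp (continuous_mkx continuous_const continuous_pb continuous_const), by
    intro c z x
    rcases c with _ | ⟨_ | _, i⟩
    · congr 1
    · congr 1
    · have : mkx (fun _ => ee) (pb (rotAt (some (true, i)) z x)) ee =
          rotAt (some (true, i)) z (mkx (fun _ => ee) (pb x) ee) := by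
        funext d
        by_cases hd : d = some (true, i)
        · subst hd
          rw [rotAt_self]
          simp [mkx, pb, rotAt]
        · rw [rotAt_of_ne hd]
          rcases d with _ | ⟨_ | _, k⟩
          · rfl
          · rfl
          · simp [mkx, pb, rotAt_of_ne hd]
      rw [this, f.inv]⟩

theorem fb_fn (f : BB) (x : XX) : (fb f).fn x = f.fn (mkx (fun _ => ee) (pb x) ee) := rfl

/-- conjugation by the twisting isometry of the special coordinate -/
noncomputable def tw (f : BB) : BB :=
  BB.mk (fun x => V (x none) * f.fn x * star (V (x none)))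
  ⟨((SCont.V (continuous_apply none)).mul f.scont).mul (SCont.V (continuous_apply none)).star, by
    intro c z x
    rw [f.inv]
    rcases c with _ | c
    · rw [rotAt_self, V_rot, star_smul]
      simp only [smul_mul_assoc, mul_smul_comm, smul_smul]
      have h : (z : ℂ) * star (z : ℂ) = 1 := by
        rw [← starRingEnd_apply, Complex.mul_conj, Complex.normSq_eq_norm_sq, Circle.norm_coe]
        simp
      rw [mul_comm, h, one_smul]
    · rw [rotAt_of_ne (by simp)]⟩

theorem tw_fn (f : BB) (x : XX) : (tw f).fn x = V (x none) * f.fn x * star (V (x none)) := rfl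

theorem proj_comp {V' c : Op} (hV : star V' * V' = 1)
    (h : IsStarProjection (V' * c * star V')) : IsStarProjection c := by
  have e : star V' * (V' * c * star V') * V' = c := by
    calc star V' * (V' * c * star V') * V' = (star V' * V') * c * (star V' * V') := by noncomm_ring
      _ = c := by rw [hV]; noncomm_ring
  constructor
  · have h1 := h.isIdempotentElem.eq
    change c * c = c
    calc c * c = (star V' * V') * c * (star V' * V') * c * (star V' * V') := by rw [hV]; noncomm_ring
      _ = star V' * ((V' * c * star V') * (V' * c * star V')) * V' := by noncomm_ring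
      _ = star V' * (V' * c * star V') * V' := by rw [h1]
      _ = c := e
  · have h1 : star (V' * c * star V') = V' * c * star V' := h.isSelfAdjoint
    change star c = c
    calc star c = star (star V' * (V' * c * star V') * V') := by rw [e]
      _ = star V' * star (V' * c * star V') * V' := by simp only [star_mul, star_star]; noncomm_ring
      _ = star V' * (V' * c * star V') * V' := by rw [h1]
      _ = c := e

theorem eq_zero_of_VcV {V' c : Op} (hV : star V' * V' = 1) (h : V' * c * star V' = 0) : c = 0 := by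
  calc c = (star V' * V') * c * (star V' * V') := by rw [hV]; noncomm_ring
    _ = star V' * (V' * c * star V') * V' := by noncomm_ring
    _ = 0 := by rw [h]; noncomm_ring

/-- the unitary and the isometries under the coefficient projections -/
theorem exists_data (p : II) (hp : IsStarProjection p) (hne : p ≠ 0) :
    ∃ u : C(I, BB), (∀ t, u t ∈ unitary BB) ∧ u 0 = 1 ∧
      (∀ t, u t * p.at' 0 * star (u t) = p.at' t) ∧
      ∃ j₀ j₁ : Op, star j₀ * j₀ = 1 ∧ star j₁ * j₁ = 1 ∧
        cf0 (p.at' 0) (fun _ => ee) * j₀ = j₀ ∧ cf1 (p.at' 1) (fun _ => ee) * j₁ = j₁ := by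
  have hpt : ∀ t, IsStarProjection (p.at' t) := by
    intro t
    constructor
    · exact congrArg (fun g : II => g.at' t) hp.isIdempotentElem.eq
    · exact congrArg (fun g : II => g.at' t) hp.isSelfAdjoint
  obtain ⟨u, hu, hu0, hup⟩ := lift_path p.toMM hpt
  have hup' : ∀ t, u t * p.at' 0 * star (u t) = p.at' t := hup
  have hfn : ∀ t x, IsStarProjection ((p.at' t).fn x) := by
    intro t x
    constructor
    · exact congrArg (fun g : BB => g.fn x) (hpt t).isIdempotentElem.eq
    · exact congrArg (fun g : BB => g.fn x) (hpt t).isSelfAdjoint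
  have hu1 : star (u 1) * u 1 = 1 := Unitary.star_mul_self_of_mem (hu 1)
  have hu2 : u 1 * star (u 1) = 1 := Unitary.mul_star_self_of_mem (hu 1)
  have hx : ∀ x, (u 1).fn x * (V ee * cf0 (p.at' 0) (pa x) * star (V ee)) * star ((u 1).fn x) =
      V (x none) * cf1 (p.at' 1) (pb x) * star (V (x none)) := by
    intro x
    rw [← p.mem0.eq x, ← p.mem1.eq x, ← hup' 1]
    rfl
  have hx' : ∀ x, star ((u 1).fn x) * (V (x none) * cf1 (p.at' 1) (pb x) * star (V (x none))) *
      (u 1).fn x = V ee * cf0 (p.at' 0) (pa x) * star (V ee) := by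
    intro x
    have e1 : star ((u 1).fn x) * (u 1).fn x = 1 := congrArg (fun g : BB => g.fn x) hu1
    rw [← hx x]
    calc _ = (star ((u 1).fn x) * (u 1).fn x) * (V ee * cf0 (p.at' 0) (pa x) * star (V ee)) *
          (star ((u 1).fn x) * (u 1).fn x) := by noncomm_ring
      _ = _ := by rw [e1]; noncomm_ring
  -- some coefficient of the first kind is non-zero
  have h1 : ∃ a, cf0 (p.at' 0) a ≠ 0 := by
    by_contra hcon
    push Not at hcon
    apply hne
    have h0 : p.at' 0 = 0 := by
      ext1 x
      rw [p.mem0.eq x, hcon]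
      simp
    apply II.ext
    intro t
    rw [← hup' t, h0]
    simp
  obtain ⟨a, ha⟩ := h1
  have h2 : ∀ b, cf1 (p.at' 1) b ≠ 0 := by
    intro b hb
    have h3 := hx' (mkx a b ee)
    simp only [pa_mkx, pb_mkx, mkx_none, hb, mul_zero, zero_mul] at h3
    exact ha (eq_zero_of_VcV (star_V_mul_V _) h3.symm)
  have h3 : ∀ a, cf0 (p.at' 0) a ≠ 0 := by
    intro a' ha'
    have h3 := hx (mkx a' (fun _ => ee) ee)
    simp only [pa_mkx, pb_mkx, mkx_none, ha', mul_zero, zero_mul] at h3
    exact h2 _ (eq_zero_of_VcV (star_V_mul_V _) h3.symm)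
  have hc0 : IsStarProjection (cf0 (p.at' 0) (fun _ => ee)) := by
    have := hfn 0 (mkx (fun _ => ee) (fun _ => ee) ee)
    rw [p.mem0.eq, pa_mkx] at this
    exact proj_comp (star_V_mul_V _) this
  have hc1 : IsStarProjection (cf1 (p.at' 1) (fun _ => ee)) := by
    have := hfn 1 (mkx (fun _ => ee) (fun _ => ee) ee)
    rw [p.mem1.eq, pb_mkx] at this
    exact proj_comp (star_V_mul_V _) this
  obtain ⟨⟨j₀, hj0, hj0'⟩, ⟨j₁, hj1, hj1'⟩⟩ :=
    rank_infinite (cf0 (p.at' 0) (fun _ => ee)) (cf1 (p.at' 1) (fun _ => ee)) hc0 hc1 (h3 _)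
    (fun ζ => (u 1).fn (mkx (fun _ => ee) (fun _ => ee) ζ))
    (fun h => ((u 1).scont.cont h).comp
      (continuous_mkx continuous_const continuous_const continuous_id))
    (by
      intro z ζ
      have e : mkx (fun _ => ee) (fun _ => ee) (S3.rot z ζ) =
          rotAt none z (mkx (fun _ => ee) (fun _ => ee) ζ) := by
        funext d
        rcases d with _ | ⟨_ | _, k⟩
        · rw [rotAt_self]; rfl
        · rw [rotAt_of_ne (by simp)]; rfl
        · rw [rotAt_of_ne (by simp)]; rfl
      rw [e, (u 1).inv])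
    (by
      intro ζ
      rw [Unitary.mem_iff]
      exact ⟨congrArg (fun g : BB => g.fn (mkx (fun _ => ee) (fun _ => ee) ζ)) hu1,
        congrArg (fun g : BB => g.fn (mkx (fun _ => ee) (fun _ => ee) ζ)) hu2⟩)
    (by
      intro ζ
      exact hx (mkx (fun _ => ee) (fun _ => ee) ζ))
  exact ⟨u, hu, hu0, hup', j₀, j₁, hj0, hj1, hj0', hj1'⟩

theorem exists_q : ∃ q : II, IsStarProjection q ∧
    (∀ x, (q.at' 0).fn x = V ee * star (V ee)) ∧
    ∀ p : II, IsStarProjection p → p ≠ 0 →
      ∃ v : II, star v * v = q ∧ p * v = v ∧ v * star v ≠ p := by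
  obtain ⟨D, G, hD, hD', hG, hGD⟩ := exists_triv
  have hst : star (BB.cst (s 0)) * BB.cst (s 0) = 1 := by
    ext1 x; simp
  have hst1 : star (BB.cst (s 1)) * BB.cst (s 1) = 1 := by
    ext1 x; simp
  have hst01 : star (BB.cst (s 1)) * BB.cst (s 0) = 0 := by
    ext1 x
    simp [star_s_mul_of_ne (show (1 : Fin 2) ≠ 0 by decide)]
  have hj := joined_isoIn 1 (α := BB.cst (s 0)) (β := D) (γα := BB.cst (s 1)) (γβ := G)
    ⟨hst, one_mul _⟩ ⟨hD, one_mul _⟩ ⟨hst1, one_mul _⟩ ⟨hG, one_mul _⟩ hst01 hGD
  obtain ⟨δ, hδ⟩ := hj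
  have hδ1 : ∀ t, star (δ t) * δ t = 1 := fun t => (hδ t).1
  let q : II := II.mk (fun t => δ t * star (δ t)) (by fun_prop)
    ⟨fun _ => 1, fun x => by simp [V_ee]⟩ ⟨fun _ => 1, fun x => by simp [hD']⟩
  refine ⟨q, ⟨?_, ?_⟩, ?_, ?_⟩
  · apply II.ext
    intro t
    change δ t * star (δ t) * (δ t * star (δ t)) = δ t * star (δ t)
    calc _ = δ t * (star (δ t) * δ t) * star (δ t) := by noncomm_ring
      _ = _ := by rw [hδ1]; noncomm_ring
  · apply II.ext
    intro t
    change star (δ t * star (δ t)) = δ t * star (δ t)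
    simp
  · intro x
    change (δ 0 * star (δ 0)).fn x = _
    simp [V_ee]
  intro p hp hne
  obtain ⟨u, hu, hu0, hup, j₀, j₁, hj0, hj1, hj0', hj1'⟩ := exists_data p hp hne
  have hus : ∀ t, star (u t) * u t = 1 := fun t => Unitary.star_mul_self_of_mem (hu t)
  have hus' : ∀ t, u t * star (u t) = 1 := fun t => Unitary.mul_star_self_of_mem (hu t)
  set w : BB := u 1 with hw
  have hwx : ∀ x, star (w.fn x) * w.fn x = 1 := fun x => congrArg (fun g : BB => g.fn x) (hus 1)
  have hwx' : ∀ x, w.fn x * star (w.fn x) = 1 := fun x => congrArg (fun g : BB => g.fn x) (hus' 1)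
  have hx : ∀ x, w.fn x * (V ee * cf0 (p.at' 0) (pa x) * star (V ee)) * star (w.fn x) =
      V (x none) * cf1 (p.at' 1) (pb x) * star (V (x none)) := by
    intro x
    rw [← p.mem0.eq x, ← p.mem1.eq x, ← hup 1]
    rfl
  have hx' : ∀ x, star (w.fn x) * (V (x none) * cf1 (p.at' 1) (pb x) * star (V (x none))) *
      star (star (w.fn x)) = V ee * cf0 (p.at' 0) (pa x) * star (V ee) := by
    intro x
    rw [← hx x, star_star]
    calc _ = (star (w.fn x) * w.fn x) * (V ee * cf0 (p.at' 0) (pa x) * star (V ee)) *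
          (star (w.fn x) * w.fn x) := by noncomm_ring
      _ = _ := by rw [hwx]; noncomm_ring
  -- the isometries under the coefficient projections
  set θ₀ : BB := BB.cst (star (V ee)) * star (fa w) * BB.cst (V ee) * BB.cst j₁ with hθ₀
  set θ₁ : BB := BB.cst (star (V ee)) * star (star (fb w)) * BB.cst (V ee) * BB.cst j₀ with hθ₁
  have hθ₀fn : ∀ x, θ₀.fn x = star (V ee) * star (w.fn (mkx (pa x) (fun _ => ee) ee)) * V ee * j₁ :=
    fun x => rfl
  have hθ₁fn : ∀ x, θ₁.fn x =
      star (V ee) * star (star (w.fn (mkx (fun _ => ee) (pb x) ee))) * V ee * j₀ :=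
    fun x => rfl
  have h0iso : ∀ x, star (θ₀.fn x) * θ₀.fn x = 1 := by
    intro x
    rw [hθ₀fn, inter_iso (star_V_mul_V ee) (star_V_mul_V ee) (hwx _) (hwx' _)
      (hx (mkx (pa x) (fun _ => ee) ee)) hj1' hj1', hj1]
  have h1iso : ∀ x, star (θ₁.fn x) * θ₁.fn x = 1 := by
    intro x
    rw [hθ₁fn, inter_iso (star_V_mul_V ee) (star_V_mul_V ee)
      (w := star (w.fn (mkx (fun _ => ee) (pb x) ee))) (by rw [star_star]; exact hwx' _)
      (by rw [star_star]; exact hwx _)
      (hx' (mkx (fun _ => ee) (pb x) ee)) hj0' hj0', hj0]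
  have h0c : ∀ x, cf0 (p.at' 0) (pa x) * θ₀.fn x = θ₀.fn x := by
    intro x
    rw [hθ₀fn]
    exact (inter_left (star_V_mul_V ee) (star_V_mul_V ee) (hwx _)
      (hx (mkx (pa x) (fun _ => ee) ee)) hj1').2
  have h1c : ∀ x, cf1 (p.at' 1) (pb x) * θ₁.fn x = θ₁.fn x := by
    intro x
    rw [hθ₁fn]
    exact (inter_left (star_V_mul_V ee) (star_V_mul_V ee)
      (w := star (w.fn (mkx (fun _ => ee) (pb x) ee))) (by rw [star_star]; exact hwx' _)
      (hx' (mkx (fun _ => ee) (pb x) ee)) hj0').2
  -- the coefficient projection as a field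
  set c : BB := BB.cst (star (V ee)) * p.at' 0 * BB.cst (V ee) with hc
  have hcfn : ∀ x, c.fn x = cf0 (p.at' 0) (pa x) := by
    intro x
    change star (V ee) * (p.at' 0).fn x * V ee = _
    rw [p.mem0.eq x, star_V_VcV_V]
  -- the four isometries
  set α : BB := θ₀ * BB.cst (S 0) with hα
  set γα : BB := θ₀ * BB.cst (S 1) with hγα
  set k : ℕ → BB := fun n => tw (θ₁ * BB.cst (S n)) * D with hk
  set β : ℕ → BB := fun n => BB.cst (star (V ee)) * star w * k n with hβ
  have hkfn : ∀ n x, (k n).fn x =
      V (x none) * (θ₁.fn x * S n * star (V (x none)) * D.fn x) := by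
    intro n x
    change V (x none) * (θ₁.fn x * S n) * star (V (x none)) * D.fn x = _
    noncomm_ring
  have hβfn : ∀ n x, (β n).fn x = star (V ee) * star (w.fn x) * V (x none) *
      (θ₁.fn x * S n * star (V (x none)) * D.fn x) := by
    intro n x
    change star (V ee) * star (w.fn x) * (k n).fn x = _
    rw [hkfn]; noncomm_ring
  have hDx : ∀ x, star (D.fn x) * D.fn x = 1 := fun x => congrArg (fun g : BB => g.fn x) hD
  have hkc : ∀ n x, cf1 (p.at' 1) (pb x) * (θ₁.fn x * S n * star (V (x none)) * D.fn x) =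
      θ₁.fn x * S n * star (V (x none)) * D.fn x := by
    intro n x
    calc _ = (cf1 (p.at' 1) (pb x) * θ₁.fn x) * S n * star (V (x none)) * D.fn x := by noncomm_ring
      _ = _ := by rw [h1c]
  have hkk : ∀ n m x, star (θ₁.fn x * S n * star (V (x none)) * D.fn x) *
      (θ₁.fn x * S m * star (V (x none)) * D.fn x) = if n = m then 1 else 0 := by
    intro n m x
    have e : star (θ₁.fn x * S n * star (V (x none)) * D.fn x) *
      (θ₁.fn x * S m * star (V (x none)) * D.fn x) = star (D.fn x) * V (x none) *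
        (star (S n) * (star (θ₁.fn x) * θ₁.fn x) * S m) * star (V (x none)) * D.fn x := by
      simp only [star_mul, star_star]
      noncomm_ring
    rw [e, h1iso, mul_one, star_S_mul]
    split_ifs with hnm
    · calc _ = star (D.fn x) * (V (x none) * star (V (x none))) * D.fn x := by noncomm_ring
        _ = star (D.fn x) * (D.fn x * star (D.fn x)) * D.fn x := by rw [hD']
        _ = (star (D.fn x) * D.fn x) * (star (D.fn x) * D.fn x) := by noncomm_ring
        _ = 1 := by rw [hDx]; noncomm_ring
    · noncomm_ring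
  have hββ : ∀ n m, star (β n) * β m = if n = m then 1 else 0 := by
    intro n m
    ext1 x
    rw [BB.fn_mul, BB.fn_star, hβfn, hβfn, inter_iso (star_V_mul_V ee) (star_V_mul_V (x none))
      (hwx x) (hwx' x) (hx x) (hkc m x) (hkc n x), hkk]
    split_ifs <;> rfl
  have hβc : ∀ n, c * β n = β n := by
    intro n
    ext1 x
    rw [BB.fn_mul, hcfn, hβfn]
    exact (inter_left (star_V_mul_V ee) (star_V_mul_V (x none)) (hwx x) (hx x) (hkc n x)).2
  have hβV : ∀ n, BB.cst (V ee) * β n = star w * k n := by
    intro n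
    ext1 x
    have := (inter_left (star_V_mul_V ee) (star_V_mul_V (x none)) (hwx x) (hx x) (hkc n x)).1
    rw [BB.fn_mul, hβfn, BB.fn_cst, this, BB.fn_mul (star w), hkfn, BB.fn_star]
    noncomm_ring
  have hθθ : star θ₀ * θ₀ = 1 := by
    ext1 x; exact h0iso x
  have hcθ : c * θ₀ = θ₀ := by
    ext1 x
    rw [BB.fn_mul, hcfn, h0c]
  have hSS : ∀ n m, star (BB.cst (S n)) * BB.cst (S m) = if n = m then (1 : BB) else 0 := by
    intro n m
    ext1 x
    rw [BB.fn_mul, BB.fn_star, BB.fn_cst, BB.fn_cst, star_S_mul]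
    split_ifs <;> rfl
  have hα1 : ∀ n m, star (θ₀ * BB.cst (S n)) * (θ₀ * BB.cst (S m)) = if n = m then (1 : BB) else 0 := by
    intro n m
    rw [← hSS, star_mul]
    calc _ = star (BB.cst (S n)) * (star θ₀ * θ₀) * BB.cst (S m) := by noncomm_ring
      _ = _ := by rw [hθθ]; noncomm_ring
  have hα2 : ∀ n, c * (θ₀ * BB.cst (S n)) = θ₀ * BB.cst (S n) := by
    intro n
    rw [← mul_assoc, hcθ]
  have hj2 := joined_isoIn c (α := α) (β := β 0) (γα := γα) (γβ := β 1)
    ⟨by rw [hα, hα1]; simp, hα2 0⟩ ⟨by rw [hββ]; simp, hβc 0⟩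
    ⟨by rw [hγα, hα1]; simp, hα2 1⟩ ⟨by rw [hββ]; simp, hβc 1⟩
    (by rw [hγα, hα, hα1]; simp) (by rw [hββ]; simp)
  obtain ⟨θ, hθ⟩ := hj2
  have hθ1 : ∀ t, star (θ t) * θ t = 1 := fun t => (hθ t).1
  have hθ2 : ∀ t, c * θ t = θ t := fun t => (hθ t).2
  have hVV : star (BB.cst (V ee)) * BB.cst (V ee) = 1 := by
    ext1 x; simp
  have hpV : p.at' 0 * BB.cst (V ee) = BB.cst (V ee) * c := by
    ext1 x
    rw [BB.fn_mul, BB.fn_mul, hcfn, BB.fn_cst, p.mem0.eq x]
    calc _ = V ee * cf0 (p.at' 0) (pa x) * (star (V ee) * V ee) := by noncomm_ring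
      _ = _ := by rw [star_V_mul_V]; noncomm_ring
  let v : II := II.mk (fun t => u t * BB.cst (V ee) * θ t * star (δ t)) (by fun_prop)
    ⟨fun a => star (V ee) * star (w.fn (mkx a (fun _ => ee) ee)) * V ee * j₁ * S 0, fun x => by
      simp only [hu0, one_mul, Path.source]
      rw [BB.fn_mul, BB.fn_mul, hα, BB.fn_mul, hθ₀fn, BB.fn_star, BB.fn_cst, BB.fn_cst, BB.fn_cst,
        V_ee]⟩
    ⟨fun b => star (V ee) * star (star (w.fn (mkx (fun _ => ee) b ee))) * V ee * j₀ * S 0,
      fun x => by
      simp only [Path.target]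
      have e : u 1 * BB.cst (V ee) * β 0 * star D = k 0 * star D := by
        calc _ = w * (BB.cst (V ee) * β 0) * star D := by noncomm_ring
          _ = (w * star w) * k 0 * star D := by rw [hβV]; noncomm_ring
          _ = _ := by rw [hus' 1]; noncomm_ring
      rw [e, BB.fn_mul, hkfn, BB.fn_star]
      calc _ = V (x none) * (θ₁.fn x * S 0) * star (V (x none)) * (D.fn x * star (D.fn x)) := by
            noncomm_ring
        _ = V (x none) * (θ₁.fn x * S 0) * (star (V (x none)) * V (x none)) * star (V (x none)) := by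
            rw [hD']; noncomm_ring
        _ = _ := by rw [star_V_mul_V, hθ₁fn]; noncomm_ring⟩
  have hv : ∀ t, v.at' t = u t * BB.cst (V ee) * θ t * star (δ t) := fun t => rfl
  refine ⟨v, ?_, ?_, ?_⟩
  · apply II.ext
    intro t
    rw [II.at'_mul, II.at'_star, hv]
    change _ = δ t * star (δ t)
    calc _ = δ t * (star (θ t) * (star (BB.cst (V ee)) * (star (u t) * u t) * BB.cst (V ee)) * θ t) *
          star (δ t) := by
          simp only [star_mul, star_star]; noncomm_ring
      _ = δ t * (star (θ t) * (star (BB.cst (V ee)) * BB.cst (V ee)) * θ t) * star (δ t) := by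
          rw [hus]; noncomm_ring
      _ = δ t * (star (θ t) * θ t) * star (δ t) := by rw [hVV]; noncomm_ring
      _ = _ := by rw [hθ1]; noncomm_ring
  · apply II.ext
    intro t
    rw [II.at'_mul, hv, ← hup t]
    calc _ = u t * p.at' 0 * (star (u t) * u t) * BB.cst (V ee) * θ t * star (δ t) := by
          noncomm_ring
      _ = u t * (p.at' 0 * BB.cst (V ee)) * θ t * star (δ t) := by rw [hus]; noncomm_ring
      _ = u t * BB.cst (V ee) * (c * θ t) * star (δ t) := by rw [hpV]; noncomm_ring
      _ = _ := by rw [hθ2]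
  · intro hcon
    have h0 := congrArg (fun g : II => g.at' 0) hcon
    simp only [II.at'_mul, II.at'_star, hv, hu0, one_mul, Path.source] at h0
    -- multiply by `V_e θ₀ S 1`
    have h1 : p.at' 0 * (BB.cst (V ee) * (θ₀ * BB.cst (S 1))) = BB.cst (V ee) * (θ₀ * BB.cst (S 1)) := by
      rw [← mul_assoc, hpV, mul_assoc, hα2]
    have h2 : p.at' 0 * (BB.cst (V ee) * (θ₀ * BB.cst (S 1))) = 0 := by
      rw [← h0]
      calc _ = BB.cst (V ee) * α * (star (BB.cst (s 0)) * BB.cst (s 0)) *
            (star α * (star (BB.cst (V ee)) * BB.cst (V ee)) * (θ₀ * BB.cst (S 1))) := by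
            simp only [star_mul, star_star]; noncomm_ring
        _ = BB.cst (V ee) * α * (star α * (θ₀ * BB.cst (S 1))) := by
            rw [hst, hVV]; noncomm_ring
        _ = 0 := by rw [hα, hα1]; simp
    rw [h1] at h2
    have h3 : (1 : BB) = 0 := by
      calc (1 : BB) = star (θ₀ * BB.cst (S 1)) * (θ₀ * BB.cst (S 1)) := by rw [hα1]; simp
        _ = star (θ₀ * BB.cst (S 1)) * (star (BB.cst (V ee)) * BB.cst (V ee)) *
            (θ₀ * BB.cst (S 1)) := by rw [hVV]; noncomm_ring
        _ = star (θ₀ * BB.cst (S 1)) * star (BB.cst (V ee)) *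
            (BB.cst (V ee) * (θ₀ * BB.cst (S 1))) := by noncomm_ring
        _ = 0 := by rw [h2, mul_zero]
    have h4 : (1 : Op) = 0 := congrArg (fun g : BB => g.fn (fun _ => ee)) h3
    exact one_ne_zero h4

end Pool.Agent.Lib.Ell
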