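import Mathlib

set_option autoImplicit false

/-!
MODULE Ell.Corner (pure C*-algebra theory, no dependence on other files).

The corner q A q of a (non-unital) C*-algebra as a unital C*-algebra.
-/

namespace Pool.Agent.Lib.Ell

/-- the corner `q A q` -/
def Corner {A : Type} [NonUnitalCStarAlgebra A] (q : A) (_hq : IsStarProjection q) : Type :=
  {x : A // q * x = x ∧ x * q = x}

namespace Corner

variable {A B : Type} [NonUnitalCStarAlgebra A] [NonUnitalCStarAlgebra B]
  {q : A} {hq : IsStarProjection q}

/-- the inclusion -/
def val (x : Corner q hq) : A := x.1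

theorem val_injective : Function.Injective (val : Corner q hq → A) := Subtype.val_injective

theorem q_mul_val (x : Corner q hq) : q * x.val = x.val := x.2.1
theorem val_mul_q (x : Corner q hq) : x.val * q = x.val := x.2.2

/-- the corner as a closed star subalgebra -/
def sub (q : A) (hq : IsStarProjection q) : NonUnitalStarSubalgebra ℂ A where
  carrier := {x | q * x = x ∧ x * q = x}
  add_mem' := by
    rintro a b ⟨h1, h2⟩ ⟨h3, h4⟩
    exact ⟨by rw [mul_add, h1, h3], by rw [add_mul, h2, h4]⟩
  zero_mem' := ⟨mul_zero _, zero_mul _⟩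
  mul_mem' := by
    rintro a b ⟨h1, h2⟩ ⟨h3, h4⟩
    exact ⟨by rw [← mul_assoc, h1], by rw [mul_assoc, h4]⟩
  smul_mem' := by
    rintro c a ⟨h1, h2⟩
    exact ⟨by rw [mul_smul_comm, h1], by rw [smul_mul_assoc, h2]⟩
  star_mem' := by
    rintro a ⟨h1, h2⟩
    have hs : star q = q := hq.isSelfAdjoint
    exact ⟨by rw [← star_inj, star_mul, star_star, hs, h2],
      by rw [← star_inj, star_mul, star_star, hs, h1]⟩

theorem isClosed_sub (q : A) (hq : IsStarProjection q) : IsClosed (sub q hq : Set A) := by
  have : (sub q hq : Set A) = {x | q * x = x} ∩ {x | x * q = x} := rfl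
  rw [this]
  exact (isClosed_eq (continuous_const.mul continuous_id) continuous_id).inter
    (isClosed_eq (continuous_id.mul continuous_const) continuous_id)

/-- auxiliary (not an instance) -/
@[reducible] noncomputable def nuInst : NonUnitalCStarAlgebra (Corner q hq) :=
  haveI : IsClosed (sub q hq : Set A) := isClosed_sub q hq
  inferInstanceAs (NonUnitalCStarAlgebra (sub q hq))

/-- auxiliary (not an instance) -/
@[reducible] noncomputable def nrInst : NormedRing (Corner q hq) :=
  { (nuInst : NonUnitalCStarAlgebra (Corner q hq)) with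
    one := ⟨q, hq.isIdempotentElem, hq.isIdempotentElem⟩
    one_mul := fun x => Subtype.ext x.2.1
    mul_one := fun x => Subtype.ext x.2.2 }

/-- auxiliary (not an instance) -/
@[reducible] noncomputable def naInst :
    @NormedAlgebra ℂ (Corner q hq) _ (nrInst (q := q) (hq := hq)).toSeminormedRing :=
  letI : NormedRing (Corner q hq) := nrInst
  letI : NonUnitalCStarAlgebra (Corner q hq) := nuInst
  { Algebra.ofModule (R := ℂ) (A := Corner q hq) (fun r x y => smul_mul_assoc r x y)
      (fun r x y => mul_smul_comm r x y) with
    norm_smul_le := fun r x => (nuInst (q := q) (hq := hq)).norm_smul_le r x }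

noncomputable instance : CStarAlgebra (Corner q hq) :=
  { nrInst, naInst, (nuInst : NonUnitalCStarAlgebra (Corner q hq)) with }

theorem val_add (x y : Corner q hq) : (x + y).val = x.val + y.val := rfl
theorem val_sub (x y : Corner q hq) : (x - y).val = x.val - y.val := rfl
theorem val_neg (x : Corner q hq) : (-x).val = -x.val := rfl
theorem val_mul (x y : Corner q hq) : (x * y).val = x.val * y.val := rfl
theorem val_smul (c : ℂ) (x : Corner q hq) : (c • x).val = c • x.val := rfl
theorem val_star (x : Corner q hq) : (star x).val = star x.val := rfl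
theorem val_zero : (0 : Corner q hq).val = 0 := rfl
theorem val_one : (1 : Corner q hq).val = q := rfl
theorem norm_val (x : Corner q hq) : ‖x.val‖ = ‖x‖ := rfl

/-- constructor -/
def mk (x : A) (h1 : q * x = x) (h2 : x * q = x) : Corner q hq := ⟨x, h1, h2⟩

theorem val_mk (x : A) (h1 : q * x = x) (h2 : x * q = x) :
    (mk x h1 h2 : Corner q hq).val = x := rfl

theorem algebraMap_eq (c : ℂ) : (algebraMap ℂ (Corner q hq) c) = c • (1 : Corner q hq) :=
  Algebra.algebraMap_eq_smul_one c

/-- the restriction of a homomorphism to corners -/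
noncomputable def map (φ : A →⋆ₙₐ[ℂ] B) (q : A) (hq : IsStarProjection q)
    (hq' : IsStarProjection (φ q)) : Corner q hq →⋆ₐ[ℂ] Corner (φ q) hq' where
  toFun x := mk (φ x.val) (by rw [← map_mul, q_mul_val]) (by rw [← map_mul, val_mul_q])
  map_one' := rfl
  map_mul' x y := val_injective (map_mul φ x.val y.val)
  map_zero' := val_injective (map_zero φ)
  map_add' x y := val_injective (map_add φ x.val y.val)
  commutes' c := val_injective (by
    have h : φ (c • q) = c • φ q := map_smul φ c q
    rw [algebraMap_eq, algebraMap_eq]
    exact h)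
  map_star' x := val_injective (map_star φ x.val)

theorem val_map (φ : A →⋆ₙₐ[ℂ] B) (q : A) (hq : IsStarProjection q)
    (hq' : IsStarProjection (φ q)) (x : Corner q hq) : (map φ q hq hq' x).val = φ x.val := rfl

theorem map_injective (φ : A →⋆ₙₐ[ℂ] B) (hφ : Function.Injective φ) (q : A)
    (hq : IsStarProjection q) (hq' : IsStarProjection (φ q)) :
    Function.Injective (map φ q hq hq') := by
  intro x y hxy
  apply val_injective
  apply hφ
  rw [← val_map φ q hq hq' x, hxy, val_map]

end Corner

end Pool.Agent.Lib.Ell
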