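import Pool.Agent.Lib.Ell.Hilb
import Pool.Agent.Lib.P81d4f5.Sphere

set_option autoImplicit false

/-!
Strongly continuous fields of operators over a product of spheres, invariant under the rotations
of the single coordinates: the C*-algebra `BB`.
-/

open scoped InnerProductSpace BoundedContinuousFunction

namespace Pool.Agent.Lib.Ell

open Pool.Agent.Lib.P81d4f5 (S3)

/-! ### strongly continuous bounded fields -/

/-- bounded, strongly star-continuous maps into `Op` -/
structure SCont {Y : Type*} [TopologicalSpace Y] (F : Y → Op) : Prop where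
  bdd : ∃ C, ∀ y, ‖F y‖ ≤ C
  cont : ∀ h, Continuous fun y => F y h
  cont_star : ∀ h, Continuous fun y => star (F y) h

section SC

variable {Y Z : Type*} [TopologicalSpace Y] [TopologicalSpace Z]

/-- joint continuity: a bounded strongly continuous field applied to a continuous vector field -/
theorem cont_apply_of {F : Y → Op} (hb : ∃ C, ∀ y, ‖F y‖ ≤ C) (hc : ∀ h, Continuous fun y => F y h)
    {g : Y → Hb} (hg : Continuous g) : Continuous fun y => F y (g y) := by
  obtain ⟨C, hC⟩ := hb
  rw [continuous_iff_continuousAt]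
  intro y₀
  have h1 : Filter.Tendsto (fun y => F y (g y₀)) (nhds y₀) (nhds (F y₀ (g y₀))) :=
    (hc (g y₀)).continuousAt
  have h2 : Filter.Tendsto (fun y => F y (g y) - F y (g y₀)) (nhds y₀) (nhds 0) := by
    rw [tendsto_zero_iff_norm_tendsto_zero]
    have h3 : Filter.Tendsto (fun y => C * ‖g y - g y₀‖) (nhds y₀) (nhds 0) := by
      have h4 : Filter.Tendsto (fun y => ‖g y - g y₀‖) (nhds y₀) (nhds 0) :=
        tendsto_iff_norm_sub_tendsto_zero.1 hg.continuousAt
      simpa using h4.const_mul C
    refine squeeze_zero (fun _ => norm_nonneg _) (fun y => ?_) h3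
    rw [← map_sub]
    exact (F y).le_of_opNorm_le (hC y) _
  have h5 := h2.add h1
  simp only [sub_add_cancel, zero_add] at h5
  exact h5

theorem SCont.apply {F : Y → Op} (hF : SCont F) {g : Y → Hb} (hg : Continuous g) :
    Continuous fun y => F y (g y) := cont_apply_of hF.bdd hF.cont hg

theorem SCont.const (A : Op) : SCont fun _ : Y => A :=
  ⟨⟨‖A‖, fun _ => le_rfl⟩, fun _ => continuous_const, fun _ => continuous_const⟩

theorem SCont.star {F : Y → Op} (hF : SCont F) : SCont fun y => star (F y) := by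
  obtain ⟨⟨C, hC⟩, h1, h2⟩ := hF
  exact ⟨⟨C, fun y => by rw [norm_star]; exact hC y⟩, h2, fun h => by simpa using h1 h⟩

theorem SCont.mul {F G : Y → Op} (hF : SCont F) (hG : SCont G) : SCont fun y => F y * G y := by
  refine ⟨?_, fun h => ?_, fun h => ?_⟩
  · obtain ⟨C, hC⟩ := hF.bdd
    obtain ⟨D, hD⟩ := hG.bdd
    exact ⟨C * D, fun y => (norm_mul_le _ _).trans
      (mul_le_mul (hC y) (hD y) (norm_nonneg _) ((norm_nonneg _).trans (hC y)))⟩
  · exact hF.apply (hG.cont h)
  · have := hG.star.apply (hF.cont_star h)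
    refine this.congr fun y => ?_
    rw [star_mul]; rfl

theorem SCont.add {F G : Y → Op} (hF : SCont F) (hG : SCont G) : SCont fun y => F y + G y := by
  refine ⟨?_, fun h => ?_, fun h => ?_⟩
  · obtain ⟨C, hC⟩ := hF.bdd
    obtain ⟨D, hD⟩ := hG.bdd
    exact ⟨C + D, fun y => (norm_add_le _ _).trans (add_le_add (hC y) (hD y))⟩
  · exact (hF.cont h).add (hG.cont h)
  · refine ((hF.cont_star h).add (hG.cont_star h)).congr fun y => ?_
    rw [star_add]; rfl

theorem SCont.smul {F : Y → Op} (hF : SCont F) {c : Y → ℂ} (hc : Continuous c)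
    (hb : ∃ C, ∀ y, ‖c y‖ ≤ C) : SCont fun y => c y • F y := by
  refine ⟨?_, fun h => ?_, fun h => ?_⟩
  · obtain ⟨C, hC⟩ := hF.bdd
    obtain ⟨D, hD⟩ := hb
    exact ⟨D * C, fun y => by
      rw [norm_smul]
      exact mul_le_mul (hD y) (hC y) (norm_nonneg _) ((norm_nonneg _).trans (hD y))⟩
  · exact hc.smul (hF.cont h)
  · refine ((Complex.continuous_conj.comp hc).smul (hF.cont_star h)).congr fun y => ?_
    rw [star_smul]; rfl

theorem SCont.const_smul {F : Y → Op} (hF : SCont F) (c : ℂ) : SCont fun y => c • F y :=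
  hF.smul continuous_const ⟨‖c‖, fun _ => le_rfl⟩

theorem SCont.neg {F : Y → Op} (hF : SCont F) : SCont fun y => - F y := by
  have := hF.const_smul (-1)
  simpa using this

theorem SCont.sub {F G : Y → Op} (hF : SCont F) (hG : SCont G) : SCont fun y => F y - G y := by
  have := hF.add hG.neg
  simpa [sub_eq_add_neg] using this

theorem SCont.sum {ι : Type*} (t : Finset ι) {F : ι → Y → Op} (hF : ∀ i ∈ t, SCont (F i)) :
    SCont fun y => ∑ i ∈ t, F i y := by
  classical
  induction t using Finset.induction_on with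
  | empty => simpa using SCont.const (Y := Y) 0
  | insert i t hi ih =>
    simp only [Finset.sum_insert hi]
    exact (hF i (Finset.mem_insert_self _ _)).add
      (ih fun j hj => hF j (Finset.mem_insert_of_mem hj))

theorem SCont.comp {F : Y → Op} (hF : SCont F) {g : Z → Y} (hg : Continuous g) :
    SCont fun z => F (g z) := by
  obtain ⟨⟨C, hC⟩, h1, h2⟩ := hF
  exact ⟨⟨C, fun z => hC _⟩, fun h => (h1 h).comp hg, fun h => (h2 h).comp hg⟩

/-- The set of vectors on which a bounded field is continuous is closed. -/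
theorem isClosed_cont {F : Y → Op} (hb : ∃ C, ∀ y, ‖F y‖ ≤ C) :
    IsClosed {h : Hb | Continuous fun y => F y h} := by
  obtain ⟨C, hC⟩ := hb
  rw [← isSeqClosed_iff_isClosed]
  intro h h0 hmem hlim
  have h1 : TendstoUniformly (fun n y => F y (h n)) (fun y => F y h0) Filter.atTop := by
    rw [Metric.tendstoUniformly_iff]
    intro ε hε
    have h2 : ∀ᶠ n in Filter.atTop, (|C| + 1) * ‖h n - h0‖ < ε := by
      have h3 : Filter.Tendsto (fun n => (|C| + 1) * ‖h n - h0‖) Filter.atTop (nhds 0) := by
        have h4 := tendsto_iff_norm_sub_tendsto_zero.1 hlim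
        simpa using h4.const_mul (|C| + 1)
      exact h3.eventually_lt_const hε
    filter_upwards [h2] with n hn y
    rw [dist_eq_norm, ← map_sub, ← neg_sub, map_neg, norm_neg]
    refine lt_of_le_of_lt ((F y).le_of_opNorm_le ((hC y).trans (?_ : C ≤ |C| + 1)) _) hn
    linarith [le_abs_self C]
  exact h1.continuous (Filter.Eventually.frequently (Filter.Eventually.of_forall hmem))

theorem cont_of_S {F : Y → Op} (hb : ∃ C, ∀ y, ‖F y‖ ≤ C)
    (h : ∀ n h, Continuous fun y => F y (S n h)) (h0 : Hb) : Continuous fun y => F y h0 := by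
  have hs := hasSum_S h0
  have hcl := isClosed_cont hb
  refine hcl.mem_of_tendsto hs (Filter.Eventually.of_forall fun t => ?_)
  have : (fun y => F y (∑ n ∈ t, S n (star (S n) h0))) =
      fun y => ∑ n ∈ t, F y (S n (star (S n) h0)) := by
    funext y; rw [map_sum]
  rw [Set.mem_ofPred_eq, this]
  exact continuous_finsetSum _ fun n _ => h n _

theorem SCont.dsum {T : ℕ → Y → Op} (hT : ∀ n, SCont (T n)) (hb : ∃ C, ∀ n y, ‖T n y‖ ≤ C) :
    SCont fun y => dsum fun n => T n y := by
  obtain ⟨C, hC⟩ := hb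
  have hub : ∀ y, UB fun n => T n y := fun y => ⟨C, fun n => hC n y⟩
  rcases isEmpty_or_nonempty Y with hY | ⟨⟨y0⟩⟩
  · exact ⟨⟨0, fun y => hY.elim y⟩, fun _ => continuous_of_const fun y => hY.elim y,
      fun _ => continuous_of_const fun y => hY.elim y⟩
  have hC0 : 0 ≤ C := (norm_nonneg _).trans (hC 0 y0)
  refine ⟨⟨C, fun y => norm_dsum_le hC0 fun n => hC n y⟩, ?_, ?_⟩
  · apply cont_of_S ⟨C, fun y => norm_dsum_le hC0 fun n => hC n y⟩
    intro n h
    have : (fun y => Ell.dsum (fun n => T n y) (S n h)) = fun y => S n (T n y h) := by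
      funext y
      exact congrArg (fun A : Op => A h) (dsum_mul_S (hub y) n)
    rw [this]
    exact (S n).continuous.comp ((hT n).cont h)
  · apply cont_of_S (F := fun y => Star.star (Ell.dsum fun n => T n y))
      ⟨C, fun y => by rw [norm_star]; exact norm_dsum_le hC0 fun n => hC n y⟩
    intro n h
    have : (fun y => Star.star (Ell.dsum (fun n => T n y)) (S n h)) =
        fun y => S n (Star.star (T n y) h) := by
      funext y
      rw [dsum_star (hub y)]
      exact congrArg (fun A : Op => A h) (dsum_mul_S (hub y).star n)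
    rw [this]
    exact (S n).continuous.comp ((hT n).cont_star h)

/-- norm continuous bounded fields are strongly continuous -/
theorem SCont.of_norm {F : Y → Op} (hF : Continuous F) (hb : ∃ C, ∀ y, ‖F y‖ ≤ C) : SCont F :=
  ⟨hb, fun h => hF.clm_apply continuous_const,
    fun h => (continuous_star.comp hF).clm_apply continuous_const⟩

end SC

/-! ### the twisting isometries -/

/-- the base vector `(1, 0)` -/
noncomputable abbrev ee : S3 := S3.base

/-- the isometry `V ζ = ζ₀ s₀ + ζ₁ s₁` -/
noncomputable def V (ζ : S3) : Op := S3.co 0 ζ • s 0 + S3.co 1 ζ • s 1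

theorem V_ee : V ee = s 0 := by
  simp [V, S3.co, S3.base]

theorem star_V (ζ : S3) : star (V ζ) =
    (starRingEnd ℂ) (S3.co 0 ζ) • star (s 0) + (starRingEnd ℂ) (S3.co 1 ζ) • star (s 1) := by
  rw [V, star_add, star_smul, star_smul]; rfl

/-- the inner product of two vectors of the sphere -/
noncomputable def ip (ζ η : S3) : ℂ :=
  (starRingEnd ℂ) (S3.co 0 ζ) * S3.co 0 η + (starRingEnd ℂ) (S3.co 1 ζ) * S3.co 1 η

theorem ip_self (ζ : S3) : ip ζ ζ = 1 := by
  have h := S3.sum_conj ζ
  rw [Fin.sum_univ_two] at h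
  rw [ip, ← h]; ring

theorem star_V_mul_V' (ζ η : S3) : star (V ζ) * V η = ip ζ η • (1 : Op) := by
  rw [star_V, V]
  simp only [add_mul, mul_add, smul_mul_smul_comm, star_s_mul_self,
    star_s_mul_of_ne (show (0 : Fin 2) ≠ 1 by decide),
    star_s_mul_of_ne (show (1 : Fin 2) ≠ 0 by decide), smul_zero, add_zero, zero_add]
  rw [← add_smul, ip]

@[simp] theorem star_V_mul_V (ζ : S3) : star (V ζ) * V ζ = 1 := by
  rw [star_V_mul_V', ip_self, one_smul]

theorem V_rot (z : Circle) (ζ : S3) : V (S3.rot z ζ) = (z : ℂ) • V ζ := by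
  simp [V, smul_smul]

theorem V_comm_S (ζ : S3) (n : ℕ) : V ζ * S n = S n * V ζ := by
  simp [V, add_mul, mul_add, s_mul_S]

theorem star_V_comm_S (ζ : S3) (n : ℕ) : star (V ζ) * S n = S n * star (V ζ) := by
  simp [star_V, add_mul, mul_add, star_s_mul_S]

theorem V_comm_star_S (ζ : S3) (n : ℕ) : V ζ * star (S n) = star (S n) * V ζ := by
  have := congrArg star (star_V_comm_S ζ n)
  simpa using this.symm

theorem star_V_comm_star_S (ζ : S3) (n : ℕ) :
    star (V ζ) * star (S n) = star (S n) * star (V ζ) := by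
  have := congrArg star (V_comm_S ζ n)
  simpa using this.symm

theorem norm_V_le (ζ : S3) : ‖V ζ‖ ≤ 1 := by
  have h := CStarRing.norm_star_mul_self (x := V ζ)
  have h1 : ‖(1 : Op)‖ ≤ 1 := ContinuousLinearMap.opNorm_le_bound _ zero_le_one fun f => by simp
  rw [star_V_mul_V] at h
  nlinarith [norm_nonneg (V ζ)]

theorem continuous_V : Continuous V := by
  unfold V
  exact ((S3.continuous_co 0).smul continuous_const).add
    ((S3.continuous_co 1).smul continuous_const)

theorem SCont.V {Y : Type*} [TopologicalSpace Y] {f : Y → S3} (hf : Continuous f) :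
    SCont fun y => V (f y) :=
  SCont.of_norm (continuous_V.comp hf) ⟨1, fun _ => norm_V_le _⟩

/-! ### the base space -/

/-- index set of the coordinates: `none` is the special coordinate, `some (false, i)` are the
coordinates of the first kind, `some (true, i)` those of the second kind -/
abbrev Ix : Type := Option (Bool × ℕ)

/-- the product of spheres -/
abbrev XX : Type := Ix → S3

/-- rotation of one coordinate -/
noncomputable def rotAt (c : Ix) (z : Circle) (x : XX) : XX := Function.update x c (S3.rot z (x c))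

theorem rotAt_self (c : Ix) (z : Circle) (x : XX) : rotAt c z x c = S3.rot z (x c) := by
  simp [rotAt]

theorem rotAt_of_ne {c d : Ix} (h : d ≠ c) (z : Circle) (x : XX) : rotAt c z x d = x d := by
  simp [rotAt, Function.update_of_ne h]

/-- coordinates of the first kind -/
def pa (x : XX) : ℕ → S3 := fun i => x (some (false, i))

/-- coordinates of the second kind -/
def pb (x : XX) : ℕ → S3 := fun i => x (some (true, i))

/-- the point with given coordinates -/
def mkx (a b : ℕ → S3) (ζ : S3) : XX
  | none => ζ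
  | some (false, i) => a i
  | some (true, i) => b i

@[simp] theorem pa_mkx (a b : ℕ → S3) (ζ : S3) : pa (mkx a b ζ) = a := rfl
@[simp] theorem pb_mkx (a b : ℕ → S3) (ζ : S3) : pb (mkx a b ζ) = b := rfl
@[simp] theorem mkx_none (a b : ℕ → S3) (ζ : S3) : mkx a b ζ none = ζ := rfl

theorem mkx_eta (x : XX) : mkx (pa x) (pb x) (x none) = x := by
  funext c
  rcases c with _ | ⟨_ | _, i⟩ <;> rfl

theorem continuous_pa : Continuous pa := continuous_pi fun i => continuous_apply (some (false, i))
theorem continuous_pb : Continuous pb := continuous_pi fun i => continuous_apply (some (true, i))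

theorem continuous_mkx {Y : Type*} [TopologicalSpace Y] {a b : Y → ℕ → S3} {ζ : Y → S3}
    (ha : Continuous a) (hb : Continuous b) (hζ : Continuous ζ) :
    Continuous fun y => mkx (a y) (b y) (ζ y) := by
  apply continuous_pi
  rintro (_ | ⟨_ | _, i⟩)
  · exact hζ
  · exact (continuous_apply i).comp ha
  · exact (continuous_apply i).comp hb

/-- the base space with the discrete topology -/
def Xd : Type := XX

instance : TopologicalSpace Xd := ⊥
instance : DiscreteTopology Xd := ⟨rfl⟩
instance : Nonempty Xd := inferInstanceAs (Nonempty XX)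

/-- invariant strongly continuous fields -/
structure IsF (F : XX → Op) : Prop where
  sc : SCont F
  inv : ∀ c z x, F (rotAt c z x) = F x

theorem IsF.const (A : Op) : IsF fun _ => A := ⟨SCont.const A, fun _ _ _ => rfl⟩

theorem IsF.mul {F G : XX → Op} (hF : IsF F) (hG : IsF G) : IsF fun x => F x * G x :=
  ⟨hF.sc.mul hG.sc, fun c z x => by rw [hF.inv, hG.inv]⟩

theorem IsF.add {F G : XX → Op} (hF : IsF F) (hG : IsF G) : IsF fun x => F x + G x :=
  ⟨hF.sc.add hG.sc, fun c z x => by rw [hF.inv, hG.inv]⟩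

theorem IsF.sub {F G : XX → Op} (hF : IsF F) (hG : IsF G) : IsF fun x => F x - G x :=
  ⟨hF.sc.sub hG.sc, fun c z x => by rw [hF.inv, hG.inv]⟩

theorem IsF.star {F : XX → Op} (hF : IsF F) : IsF fun x => star (F x) :=
  ⟨hF.sc.star, fun c z x => by rw [hF.inv]⟩

/-- The C*-algebra of invariant strongly continuous fields. -/
noncomputable def Fld : StarSubalgebra ℂ (Xd →ᵇ Op) where
  carrier := {F | IsF fun x => F x}
  mul_mem' hF hG := hF.mul hG
  add_mem' hF hG := hF.add hG
  algebraMap_mem' _ := IsF.const _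
  star_mem' hF := hF.star

theorem mem_Fld {F : Xd →ᵇ Op} : F ∈ Fld ↔ IsF fun x => F x := Iff.rfl

theorem isClosed_Fld : IsClosed (Fld : Set (Xd →ᵇ Op)) := by
  rw [← isSeqClosed_iff_isClosed]
  intro F F0 hmem hlim
  have hu : TendstoUniformly (fun n (x : Xd) => F n x) (fun x => F0 x) Filter.atTop :=
    BoundedContinuousFunction.tendsto_iff_tendstoUniformly.1 hlim
  have hpt : ∀ x : Xd, Filter.Tendsto (fun n => F n x) Filter.atTop (nhds (F0 x)) :=
    fun x => hu.tendsto_at x
  have key : ∀ (h : Hb), TendstoUniformly (fun n (x : XX) => F n x h) (fun x => F0 x h)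
      Filter.atTop := by
    intro h
    rw [Metric.tendstoUniformly_iff] at hu ⊢
    intro ε hε
    filter_upwards [hu (ε / (‖h‖ + 1)) (by positivity)] with n hn x
    have h1 := hn x
    rw [dist_eq_norm] at h1 ⊢
    have h2 : ‖F0 x h - F n x h‖ ≤ ‖F0 x - F n x‖ * ‖h‖ := (F0 x - F n x).le_opNorm h
    have h3 : ‖F0 x - F n x‖ * ‖h‖ ≤ ε / (‖h‖ + 1) * ‖h‖ := by gcongr
    have h4 : ε / (‖h‖ + 1) * ‖h‖ < ε := by
      rw [div_mul_eq_mul_div, div_lt_iff₀ (by positivity)]
      nlinarith [norm_nonneg h]
    linarith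
  have key' : ∀ (h : Hb), TendstoUniformly (fun n (x : XX) => star (F n x) h)
      (fun x => star (F0 x) h) Filter.atTop := by
    intro h
    rw [Metric.tendstoUniformly_iff] at hu ⊢
    intro ε hε
    filter_upwards [hu (ε / (‖h‖ + 1)) (by positivity)] with n hn x
    have h1 := hn x
    rw [dist_eq_norm] at h1 ⊢
    have h2 : ‖star (F0 x) h - star (F n x) h‖ ≤ ‖star (F0 x) - star (F n x)‖ * ‖h‖ :=
      (star (F0 x) - star (F n x)).le_opNorm h
    rw [← star_sub, norm_star] at h2
    have h3 : ‖F0 x - F n x‖ * ‖h‖ ≤ ε / (‖h‖ + 1) * ‖h‖ := by gcongr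
    have h4 : ε / (‖h‖ + 1) * ‖h‖ < ε := by
      rw [div_mul_eq_mul_div, div_lt_iff₀ (by positivity)]
      nlinarith [norm_nonneg h]
    linarith
  refine ⟨⟨⟨‖F0‖, fun x => F0.norm_coe_le_norm x⟩, fun h => ?_, fun h => ?_⟩, fun c z x => ?_⟩
  · exact (key h).continuous (Filter.Frequently.of_forall fun n => (hmem n).sc.cont h)
  · exact (key' h).continuous (Filter.Frequently.of_forall fun n => (hmem n).sc.cont_star h)
  · have h1 := hpt (rotAt c z x)
    have h2 : (fun n => F n (rotAt c z x)) = fun n => F n x := by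
      funext n; exact (hmem n).inv c z x
    rw [h2] at h1
    exact tendsto_nhds_unique h1 (hpt x)

/-- The C*-algebra of invariant strongly continuous fields, as a type. -/
def BB : Type := Fld

noncomputable instance : CStarAlgebra BB :=
  haveI : IsClosed (Fld : Set (Xd →ᵇ Op)) := isClosed_Fld
  inferInstanceAs (CStarAlgebra Fld)

namespace BB

/-- value at a point -/
noncomputable def fn (f : BB) (x : XX) : Op := f.1 x

theorem isF (f : BB) : IsF f.fn := f.2

/-- constructor -/
noncomputable def mk (F : XX → Op) (h : IsF F) : BB :=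
  ⟨BoundedContinuousFunction.ofNormedAddCommGroupDiscrete (α := Xd) F h.sc.bdd.choose
    h.sc.bdd.choose_spec, h⟩

@[simp] theorem fn_mk (F : XX → Op) (h : IsF F) (x : XX) : (mk F h).fn x = F x := rfl

@[ext] theorem ext {f g : BB} (h : ∀ x, f.fn x = g.fn x) : f = g :=
  Subtype.ext (BoundedContinuousFunction.ext h)

@[simp] theorem fn_add (f g : BB) (x : XX) : (f + g).fn x = f.fn x + g.fn x := rfl
@[simp] theorem fn_sub (f g : BB) (x : XX) : (f - g).fn x = f.fn x - g.fn x := rfl
@[simp] theorem fn_neg (f : BB) (x : XX) : (-f).fn x = -f.fn x := rfl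
@[simp] theorem fn_mul (f g : BB) (x : XX) : (f * g).fn x = f.fn x * g.fn x := rfl
@[simp] theorem fn_star (f : BB) (x : XX) : (star f).fn x = star (f.fn x) := rfl
@[simp] theorem fn_smul (c : ℂ) (f : BB) (x : XX) : (c • f).fn x = c • f.fn x := rfl
@[simp] theorem fn_one (x : XX) : (1 : BB).fn x = 1 := rfl
@[simp] theorem fn_zero (x : XX) : (0 : BB).fn x = 0 := rfl

theorem norm_fn_le (f : BB) (x : XX) : ‖f.fn x‖ ≤ ‖f‖ :=
  BoundedContinuousFunction.norm_coe_le_norm f.1 x

theorem norm_le {f : BB} {C : ℝ} (hC : 0 ≤ C) (h : ∀ x, ‖f.fn x‖ ≤ C) : ‖f‖ ≤ C :=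
  (BoundedContinuousFunction.norm_le hC).2 h

theorem inv (f : BB) (c : Ix) (z : Circle) (x : XX) : f.fn (rotAt c z x) = f.fn x :=
  f.isF.inv c z x

theorem scont (f : BB) : SCont f.fn := f.isF.sc

/-- constant fields -/
noncomputable def cst (A : Op) : BB := mk (fun _ => A) (IsF.const A)

@[simp] theorem fn_cst (A : Op) (x : XX) : (cst A).fn x = A := rfl

/-- evaluation at a point, as a homomorphism -/
noncomputable def evh (x : XX) : BB →⋆ₐ[ℂ] Op where
  toFun f := f.fn x
  map_one' := rfl
  map_mul' _ _ := rfl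
  map_zero' := rfl
  map_add' _ _ := rfl
  commutes' _ := rfl
  map_star' _ := rfl

end BB

end Pool.Agent.Lib.Ell
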