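import Pool.Agent.Lib.Ell.Wit
import Pool.Agent.Lib.Ell.XEl

set_option autoImplicit false

/-!
Images of elements with a witness are full.
-/

open scoped InnerProductSpace BoundedContinuousFunction unitInterval

namespace Pool.Agent.Lib.Ell

open Pool.Agent.Lib.P81d4f5 (S3)

/-- the fields `conj(ζ_j) V_ζ` -/
noncomputable def VC (j : Fin 2) : BB :=
  BB.mk (fun x => (starRingEnd ℂ) (S3.co j (x none)) • V (x none)) (by
    refine ⟨(SCont.V (continuous_apply none)).smul
      (Complex.continuous_conj.comp ((S3.continuous_co j).comp (continuous_apply none)))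
      ⟨1, fun x => ?_⟩, fun c z x => ?_⟩
    · rw [RCLike.norm_conj]
      exact S3.norm_co_le j _
    · by_cases h : c = none
      · subst h
        rw [rotAt_self, V_rot, smul_smul, S3.co_rot, map_mul, mul_assoc, mul_comm _ (z : ℂ),
          ← mul_assoc]
        have : (starRingEnd ℂ) (z : ℂ) * (z : ℂ) = 1 := by
          rw [mul_comm, Complex.mul_conj, Circle.normSq_coe]; simp
        rw [this, one_mul]
      · rw [rotAt_of_ne (Ne.symm h)])

theorem fn_VC (j : Fin 2) (x : XX) :
    (VC j).fn x = (starRingEnd ℂ) (S3.co j (x none)) • V (x none) := rfl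

theorem sum_VC (x : XX) (T : Op) :
    ∑ j, star ((VC j).fn x) * T * (VC j).fn x = star (V (x none)) * T * V (x none) := by
  have h := S3.sum_conj (x none)
  simp only [mul_comm (S3.co _ _)] at h
  simp only [fn_VC, star_smul, smul_mul_assoc, mul_smul_comm, smul_smul]
  rw [← Finset.sum_smul]
  simp only [RCLike.star_def, Complex.conj_conj, mul_comm (S3.co _ _)]
  rw [h, one_smul]

/-- the field `V_ζ f V_ζ^*` -/
noncomputable def Vc (f : BB) : BB :=
  BB.mk (fun x => V (x none) * f.fn x * star (V (x none))) (by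
    refine ⟨((SCont.V (continuous_apply none)).mul f.scont).mul
      (SCont.V (continuous_apply none)).star, fun c z x => ?_⟩
    rw [f.inv]
    by_cases h : c = none
    · subst h
      rw [rotAt_self, V_rot, smul_mul_assoc, star_smul, smul_mul_smul_comm]
      have := circle_pow_mul_star z 1
      rw [pow_one] at this
      rw [this, one_smul]
    · rw [rotAt_of_ne (Ne.symm h)])

theorem fn_Vc (f : BB) (x : XX) : (Vc f).fn x = V (x none) * f.fn x * star (V (x none)) := rfl

/-- elements of the block supported under `Q` -/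
noncomputable def mkY (h : I → ℝ) (hc : Continuous h) (A : BB) (Q : II)
    (h0 : InB0 ((h 0 : ℂ) • (A * Q.at' 0))) (h1 : InB1 ((h 1 : ℂ) • (A * Q.at' 1))) : II :=
  II.mk (fun t => (h t : ℂ) • (A * Q.at' t))
    ((Complex.continuous_ofReal.comp hc).smul (continuous_const.mul Q.continuous_at')) h0 h1

theorem at'_mkY (h : I → ℝ) (hc : Continuous h) (A : BB) (Q : II)
    (h0 : InB0 ((h 0 : ℂ) • (A * Q.at' 0))) (h1 : InB1 ((h 1 : ℂ) • (A * Q.at' 1))) (t : I) :
    (mkY h hc A Q h0 h1).at' t = (h t : ℂ) • (A * Q.at' t) := rfl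

theorem mkY_mul (h : I → ℝ) (hc : Continuous h) (A : BB) (Q : II)
    (h0 : InB0 ((h 0 : ℂ) • (A * Q.at' 0))) (h1 : InB1 ((h 1 : ℂ) • (A * Q.at' 1)))
    (hQ : Q * Q = Q) : mkY h hc A Q h0 h1 * Q = mkY h hc A Q h0 h1 := by
  ext t : 1
  have hq : Q.at' t * Q.at' t = Q.at' t := congrArg (fun g : II => g.at' t) hQ
  rw [II.at'_mul, at'_mkY, smul_mul_assoc, mul_assoc, hq]

theorem star_mkY_mul (h : I → ℝ) (hc : Continuous h) (A : BB) (Q : II)
    (h0 : InB0 ((h 0 : ℂ) • (A * Q.at' 0))) (h1 : InB1 ((h 1 : ℂ) • (A * Q.at' 1))) (G : II)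
    (t : I) : (star (mkY h hc A Q h0 h1) * star G * G * mkY h hc A Q h0 h1).at' t =
      ((h t ^ 2 : ℝ) : ℂ) • (star (Q.at' t) *
        (star A * star (G.at' t) * G.at' t * A) * Q.at' t) := by
  simp only [II.at'_mul, II.at'_star, at'_mkY, star_smul, star_mul, smul_mul_assoc, mul_smul_comm,
    smul_smul, RCLike.star_def, Complex.conj_ofReal]
  congr 1
  push_cast; ring

theorem inB0_zero_smul (A : BB) : InB0 (((0 : ℝ) : ℂ) • A) := by
  simpa using InB0.zero

theorem inB1_zero_smul (A : BB) : InB1 (((0 : ℝ) : ℂ) • A) := by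
  simpa using InB1.zero

section pieces

variable {k : ℕ} {g : II}

theorem sum_A {ι : Type} [Fintype ι] {X : ι → BB}
    (hX : ∑ w, star (X w) * star ((par k true).rho false (k + 1) g) *
      (par k true).rho false (k + 1) g * X w = 1) {t : I} (ht : la2 t = 0) :
    ∑ w, star (BB.cst (S 2) * BB.cst (V ee) * X w) * star ((Phi k g).at' t) * (Phi k g).at' t *
      (BB.cst (S 2) * BB.cst (V ee) * X w) = 1 := by
  rw [← hX]
  refine Finset.sum_congr rfl fun w _ => ?_
  ext x : 1
  have h1 : ((Phi k g).at' t).fn x * (S 2 * V ee * (X w).fn x) =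
      S 2 * V ee * (((par k true).rho false (k + 1) g).fn x * (X w).fn x) := by
    rw [← mul_assoc, ← mul_assoc, fn_Phi_mul_S2, ht, psiH_zero]
    have : S 2 * (V ee * ((par k true).rho false (k + 1) g).fn x * star (V ee)) * V ee *
        (X w).fn x = S 2 * V ee * ((par k true).rho false (k + 1) g).fn x *
        (star (V ee) * V ee) * (X w).fn x := by noncomm_ring
    rw [this, star_V_mul_V]; noncomm_ring
  have h2 : star (S 2 * V ee) * (S 2 * V ee) = 1 := by
    rw [star_mul, mul_assoc, ← mul_assoc (star (S 2)), star_S_mul_self, one_mul, star_V_mul_V]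
  simp only [BB.fn_mul, BB.fn_star, BB.fn_cst]
  have h3 : star (S 2 * V ee * (X w).fn x) * star (((Phi k g).at' t).fn x) *
      ((Phi k g).at' t).fn x * (S 2 * V ee * (X w).fn x) =
      star (((Phi k g).at' t).fn x * (S 2 * V ee * (X w).fn x)) *
        (((Phi k g).at' t).fn x * (S 2 * V ee * (X w).fn x)) := by
    simp only [star_mul, mul_assoc]
  rw [h3, h1]
  set R := ((par k true).rho false (k + 1) g).fn x with hR
  rw [star_mul (S 2 * V ee)]
  have h4 : star (R * (X w).fn x) * star (S 2 * V ee) * (S 2 * V ee * (R * (X w).fn x)) =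
      star (R * (X w).fn x) * (star (S 2 * V ee) * (S 2 * V ee)) * (R * (X w).fn x) := by
    simp only [mul_assoc]
  rw [h4, h2, mul_one, star_mul]
  simp only [mul_assoc]

theorem Phi_mul_S1V {t : I} (ht : la1 t = 1) (x : XX) :
    ((Phi k g).at' t).fn x * (S 1 * V (x none)) =
      S 1 * V (x none) * ((par k false).rho true (k + 1) g).fn x := by
  rw [← mul_assoc, fn_Phi_mul_S1, ht, psiH_one]
  have : S 1 * (V (x none) * ((par k false).rho true (k + 1) g).fn x * star (V (x none))) *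
      V (x none) = S 1 * V (x none) * ((par k false).rho true (k + 1) g).fn x *
      (star (V (x none)) * V (x none)) := by simp only [mul_assoc]
  rw [this, star_V_mul_V, mul_one]

theorem star_S1V (ζ : S3) : star (S 1 * V ζ) * (S 1 * V ζ) = 1 := by
  rw [star_mul, mul_assoc, ← mul_assoc (star (S 1)), star_S_mul_self, one_mul, star_V_mul_V]

theorem core1 {t : I} (ht : la1 t = 1) (x : XX) (Z : Op) :
    star (S 1 * V (x none) * Z) * star (((Phi k g).at' t).fn x) *
      ((Phi k g).at' t).fn x * (S 1 * V (x none) * Z) =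
    star Z * star (((par k false).rho true (k + 1) g).fn x) *
      ((par k false).rho true (k + 1) g).fn x * Z := by
  have h3 : star (S 1 * V (x none) * Z) * star (((Phi k g).at' t).fn x) *
      ((Phi k g).at' t).fn x * (S 1 * V (x none) * Z) =
      star Z * star (((Phi k g).at' t).fn x * (S 1 * V (x none))) *
        (((Phi k g).at' t).fn x * (S 1 * V (x none))) * Z := by
    simp only [star_mul, mul_assoc]
  rw [h3, Phi_mul_S1V ht]
  set R := ((par k false).rho true (k + 1) g).fn x with hR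
  rw [star_mul (S 1 * V (x none))]
  have h4 : star Z * (star R * star (S 1 * V (x none))) * (S 1 * V (x none) * R) * Z =
      star Z * star R * (star (S 1 * V (x none)) * (S 1 * V (x none))) * R * Z := by
    simp only [mul_assoc]
  rw [h4, star_S1V, mul_one]

theorem sum_B {ι : Type} [Fintype ι] {X : ι → BB}
    (hX : ∑ w, star (X w) * star ((par k false).rho true (k + 1) g) *
      (par k false).rho true (k + 1) g * X w = 1) {t : I} (ht : la1 t = 1) :
    ∑ p : ι × Fin 2, star (BB.cst (S 1) * VC p.2 * X p.1) * star ((Phi k g).at' t) *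
      (Phi k g).at' t * (BB.cst (S 1) * VC p.2 * X p.1) = 1 := by
  rw [← hX, Fintype.sum_prod_type]
  refine Finset.sum_congr rfl fun w _ => ?_
  ext x : 1
  have h0 : ∀ j : Fin 2, (star (BB.cst (S 1) * VC j * X w) * star ((Phi k g).at' t) *
      (Phi k g).at' t * (BB.cst (S 1) * VC j * X w)).fn x =
      (S3.co j (x none) * (starRingEnd ℂ) (S3.co j (x none))) •
      (star (X w) * star ((par k false).rho true (k + 1) g) *
      (par k false).rho true (k + 1) g * X w).fn x := by
    intro j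
    simp only [BB.fn_mul, BB.fn_star, BB.fn_cst, fn_VC]
    have h1 : S 1 * (starRingEnd ℂ) (S3.co j (x none)) • V (x none) * (X w).fn x =
        S 1 * V (x none) * ((starRingEnd ℂ) (S3.co j (x none)) • (X w).fn x) := by
      simp only [mul_smul_comm, smul_mul_assoc]
    rw [h1, core1 ht x]
    simp only [star_smul, smul_mul_assoc, mul_smul_comm, smul_smul, RCLike.star_def,
      Complex.conj_conj]
    rw [mul_comm]
  have h1 : ∀ F : Fin 2 → BB, (∑ j, F j).fn x = ∑ j, (F j).fn x := fun F => by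
    rw [Fin.sum_univ_two, Fin.sum_univ_two, BB.fn_add]
  rw [h1]
  simp only [h0]
  rw [← Finset.sum_smul, S3.sum_conj, one_smul]

theorem fn_sum {ι : Type} [Fintype ι] (F : ι → BB) (x : XX) : (∑ j, F j).fn x = ∑ j, (F j).fn x :=
  map_sum (BB.evh x) F Finset.univ

theorem sum_C {ι : Type} [Fintype ι] {X : ι → BB}
    (hX : ∑ w, star (X w) * star ((par k false).rho true (k + 1) g) *
      (par k false).rho true (k + 1) g * X w = 1) {t : I} (ht : la1 t = 1) :
    ∑ w, star (BB.cst (S 1) * Vc (X w)) * star ((Phi k g).at' t) *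
      (Phi k g).at' t * (BB.cst (S 1) * Vc (X w)) = Vc 1 := by
  ext x : 1
  rw [fn_sum]
  have h0 : ∀ w, (star (BB.cst (S 1) * Vc (X w)) * star ((Phi k g).at' t) *
      (Phi k g).at' t * (BB.cst (S 1) * Vc (X w))).fn x =
      V (x none) * (star (X w) * star ((par k false).rho true (k + 1) g) *
      (par k false).rho true (k + 1) g * X w).fn x * star (V (x none)) := by
    intro w
    simp only [BB.fn_mul, BB.fn_star, BB.fn_cst, fn_Vc]
    have h1 : S 1 * (V (x none) * (X w).fn x * star (V (x none))) =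
        S 1 * V (x none) * ((X w).fn x * star (V (x none))) := by
      simp only [mul_assoc]
    rw [h1, core1 ht x]
    simp only [star_mul, star_star, mul_assoc]
  simp only [h0]
  rw [← Finset.sum_mul, ← Finset.mul_sum, ← fn_sum, hX, fn_Vc]

end pieces

/-! ### the partition functions -/

/-- real clamp -/
noncomputable def rc (t : ℝ) : ℝ := max 0 (min 1 t)

theorem continuous_rc : Continuous rc := by unfold rc; fun_prop

theorem rc_nonneg (t : ℝ) : 0 ≤ rc t := le_max_left _ _

theorem rc_le_one (t : ℝ) : rc t ≤ 1 := max_le zero_le_one (min_le_left _ _)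

theorem rc_of_le {t : ℝ} (h : t ≤ 0) : rc t = 0 := by
  unfold rc; rw [max_eq_left]; exact (min_le_right _ _).trans h

theorem rc_of_ge {t : ℝ} (h : 1 ≤ t) : rc t = 1 := by
  unfold rc; rw [min_eq_left h]; simp

/-- first weight -/
noncomputable def u0 (t : I) : ℝ := rc (2 - 3 * t)

/-- last weight -/
noncomputable def u1 (d : ℝ) (t : I) : ℝ := rc ((t - (1 - d)) / d)

theorem u0_eq_zero {t : I} (h : 2 / 3 ≤ (t : ℝ)) : u0 t = 0 := rc_of_le (by linarith)

theorem u0_eq_one {t : I} (h : (t : ℝ) ≤ 1 / 3) : u0 t = 1 := rc_of_ge (by linarith)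

theorem u1_eq_zero {d : ℝ} (hd : 0 < d) {t : I} (h : (t : ℝ) ≤ 1 - d) : u1 d t = 0 :=
  rc_of_le (div_nonpos_of_nonpos_of_nonneg (by linarith) hd.le)

theorem u1_one {d : ℝ} (hd : 0 < d) : u1 d 1 = 1 := by
  apply rc_of_ge
  rw [Set.Icc.coe_one]
  field_simp
  linarith

theorem la2_eq_zero {t : I} (h : (t : ℝ) ≤ 2 / 3) : la2 t = 0 := clamp_of_le (by linarith)

theorem la1_eq_one {t : I} (h : 1 / 3 ≤ (t : ℝ)) : la1 t = 1 := clamp_of_ge (by linarith)

theorem continuous_u0 : Continuous u0 := continuous_rc.comp (by fun_prop)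

theorem continuous_u1 (d : ℝ) : Continuous (u1 d) := continuous_rc.comp (by fun_prop)

theorem um_nonneg {d : ℝ} (hd : 0 < d) (hd3 : d ≤ 1 / 3) (t : I) : 0 ≤ 1 - u0 t - u1 d t := by
  rcases le_total (t : ℝ) (2 / 3) with h | h
  · rw [u1_eq_zero hd (by linarith)]
    have : u0 t ≤ 1 := rc_le_one _
    linarith
  · rw [u0_eq_zero h]
    have : u1 d t ≤ 1 := rc_le_one _
    linarith

theorem um_eq_zero {d : ℝ} (hd : 0 < d) (hd3 : d ≤ 1 / 3) {t : I} (h : (t : ℝ) ≤ 1 / 3) :
    1 - u0 t - u1 d t = 0 := by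
  rw [u0_eq_one h, u1_eq_zero hd (by linarith)]; ring

theorem sqrt_ne {a : ℝ} (h : √a ≠ 0) : a ≠ 0 := fun h' => h (by rw [h', Real.sqrt_zero])

theorem norm_proj_le {B : Type*} [NonUnitalCStarAlgebra B] {q : B} (hq : IsStarProjection q) :
    ‖q‖ ≤ 1 := by
  have h1 : ‖q‖ * ‖q‖ = ‖q‖ := by
    rw [← CStarRing.norm_star_mul_self (x := q), hq.isSelfAdjoint.star_eq, hq.isIdempotentElem.eq]
  nlinarith [norm_nonneg q]

/-- images of elements with a witness are full -/
theorem full_of_wit {k : ℕ} {g : II} (hw : Wit k g) {Q : II} (hQ : IsStarProjection Q) :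
    ∃ (ι : Type) (_ : Fintype ι) (Y : ι → II), (∀ i, Y i * Q = Y i) ∧
      ‖∑ i, star (Y i) * star (Phi k g) * Phi k g * Y i - Q‖ ≤ 1 / 2 := by
  obtain ⟨v, δ, a, hδ, hb⟩ := hw.param
  have hN : Function.Injective fun l : ℕ × ℕ => enc.symm (a.1, a.2, l) := by
    intro l l' h
    have := enc.symm.injective h
    simp only [Prod.mk.injEq, true_and] at this
    exact this
  obtain ⟨m0, X0, hX0, hX0s⟩ := exists_X (par k true) false (k + 1) g v hδ _ hN (hb true false)
  obtain ⟨m1, X1, hX1, hX1s⟩ := exists_X (par k false) true (k + 1) g v hδ _ hN (hb false true)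
  have hQQ : Q * Q = Q := hQ.isIdempotentElem
  have hQs : star Q = Q := hQ.isSelfAdjoint.star_eq
  -- the neighbourhood of the final time
  have hcont : Continuous fun t : I => ‖Q.at' t - Vc 1 * Q.at' t‖ :=
    (Q.continuous_at'.sub (continuous_const.mul Q.continuous_at')).norm
  have hone : ‖Q.at' 1 - Vc 1 * Q.at' 1‖ = 0 := by
    rw [norm_eq_zero, sub_eq_zero]
    ext x : 1
    obtain ⟨c, hc⟩ := Q.mem1
    rw [BB.fn_mul, fn_Vc, hc, BB.fn_one, mul_one]
    have : V (x none) * star (V (x none)) * (V (x none) * c (pb x) * star (V (x none))) =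
        V (x none) * (star (V (x none)) * V (x none)) * c (pb x) * star (V (x none)) := by
      simp only [mul_assoc]
    rw [this, star_V_mul_V, mul_one]
  obtain ⟨d, hd, hd3, hdQ⟩ : ∃ d : ℝ, 0 < d ∧ d ≤ 1 / 3 ∧ ∀ t : I, 1 - d ≤ (t : ℝ) →
      ‖Q.at' t - Vc 1 * Q.at' t‖ ≤ 1 / 2 := by
    have h1 := hcont.tendsto 1
    rw [hone] at h1
    have h2 := h1.eventually (gt_mem_nhds (show (0 : ℝ) < 1 / 2 by norm_num))
    obtain ⟨ε, hε, h3⟩ := Metric.eventually_nhds_iff.1 h2
    refine ⟨min (ε / 2) (1 / 3), by positivity, min_le_right _ _, fun t ht => (h3 ?_).le⟩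
    rw [Subtype.dist_eq, Real.dist_eq, Set.Icc.coe_one]
    have h4 := t.2.2
    have h5 := min_le_left (ε / 2) (1 / 3 : ℝ)
    rw [abs_lt]
    constructor <;> linarith
  -- the weights
  let h0 : I → ℝ := fun t => √(u0 t)
  let hm : I → ℝ := fun t => √(1 - u0 t - u1 d t)
  let h1 : I → ℝ := fun t => √(u1 d t)
  have hc0 : Continuous h0 := continuous_u0.sqrt
  have hcm : Continuous hm := ((continuous_const.sub continuous_u0).sub (continuous_u1 d)).sqrt
  have hc1 : Continuous h1 := (continuous_u1 d).sqrt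
  have h0sq : ∀ t, h0 t ^ 2 = u0 t := fun t => Real.sq_sqrt (rc_nonneg _)
  have h1sq : ∀ t, h1 t ^ 2 = u1 d t := fun t => Real.sq_sqrt (rc_nonneg _)
  have hmsq : ∀ t, hm t ^ 2 = 1 - u0 t - u1 d t := fun t => Real.sq_sqrt (um_nonneg hd hd3 t)
  have v00 : h0 1 = 0 := by
    change √(u0 1) = 0
    rw [u0_eq_zero (by rw [Set.Icc.coe_one]; norm_num), Real.sqrt_zero]
  have vm0 : hm 0 = 0 := by
    change √(1 - u0 0 - u1 d 0) = 0
    rw [um_eq_zero hd hd3 (by rw [Set.Icc.coe_zero]; norm_num), Real.sqrt_zero]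
  have vm1 : hm 1 = 0 := by
    change √(1 - u0 1 - u1 d 1) = 0
    rw [u0_eq_zero (by rw [Set.Icc.coe_one]; norm_num), u1_one hd]
    simp
  have v10 : h1 0 = 0 := by
    change √(u1 d 0) = 0
    rw [u1_eq_zero hd (by rw [Set.Icc.coe_zero]; linarith), Real.sqrt_zero]
  -- the elements
  let A0 : Fin m0 → BB := fun w => BB.cst (S 2) * BB.cst (V ee) * X0 w
  let Am : Fin m1 × Fin 2 → BB := fun p => BB.cst (S 1) * VC p.2 * X1 p.1
  let A1 : Fin m1 → BB := fun w => BB.cst (S 1) * Vc (X1 w)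
  have e00 : ∀ w, InB0 ((h0 0 : ℂ) • (A0 w * Q.at' 0)) := by
    intro w
    apply InB0.smul
    obtain ⟨c, hc⟩ := Q.mem0
    refine ⟨fun a => S 2 * (X0 w).fn (mkx a (fun _ => ee) ee) * V ee * c a, fun x => ?_⟩
    rw [BB.fn_mul, hc]
    change S 2 * V ee * (X0 w).fn x * (V ee * c (pa x) * star (V ee)) = _
    rw [hX0 w x (mkx (pa x) (fun _ => ee) ee) (fun i => rfl), ← V_comm_S]
    simp only [mul_assoc]
  have e01 : ∀ w, InB1 ((h0 1 : ℂ) • (A0 w * Q.at' 1)) := fun w => by
    rw [v00]; exact inB1_zero_smul _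
  have em0 : ∀ p, InB0 ((hm 0 : ℂ) • (Am p * Q.at' 0)) := fun w => by
    rw [vm0]; exact inB0_zero_smul _
  have em1 : ∀ p, InB1 ((hm 1 : ℂ) • (Am p * Q.at' 1)) := fun w => by
    rw [vm1]; exact inB1_zero_smul _
  have e10 : ∀ w, InB0 ((h1 0 : ℂ) • (A1 w * Q.at' 0)) := fun w => by
    rw [v10]; exact inB0_zero_smul _
  have e11 : ∀ w, InB1 ((h1 1 : ℂ) • (A1 w * Q.at' 1)) := by
    intro w
    apply InB1.smul
    obtain ⟨c, hc⟩ := Q.mem1
    refine ⟨fun b => S 1 * (X1 w).fn (mkx (fun _ => ee) b ee) * c b, fun x => ?_⟩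
    rw [BB.fn_mul, hc]
    change S 1 * (V (x none) * (X1 w).fn x * star (V (x none))) *
      (V (x none) * c (pb x) * star (V (x none))) = _
    rw [hX1 w x (mkx (fun _ => ee) (pb x) ee) (fun i => rfl)]
    set Z := (X1 w).fn (mkx (fun _ => ee) (pb x) ee) with hZ
    have : S 1 * (V (x none) * Z * star (V (x none))) *
        (V (x none) * c (pb x) * star (V (x none))) =
        (S 1 * V (x none)) * Z * (star (V (x none)) * V (x none)) * c (pb x) *
          star (V (x none)) := by simp only [mul_assoc]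
    rw [this, star_V_mul_V, ← V_comm_S, hZ]
    simp only [mul_assoc, one_mul]
  let Y0 : Fin m0 → II := fun w => mkY h0 hc0 (A0 w) Q (e00 w) (e01 w)
  let Ym : Fin m1 × Fin 2 → II := fun p => mkY hm hcm (Am p) Q (em0 p) (em1 p)
  let Y1 : Fin m1 → II := fun w => mkY h1 hc1 (A1 w) Q (e10 w) (e11 w)
  refine ⟨Fin m0 ⊕ ((Fin m1 × Fin 2) ⊕ Fin m1), inferInstance, Sum.elim Y0 (Sum.elim Ym Y1),
    ?_, ?_⟩
  · rintro (w | p | w)
    · exact mkY_mul h0 hc0 (A0 w) Q (e00 w) (e01 w) hQQ
    · exact mkY_mul hm hcm (Am p) Q (em0 p) (em1 p) hQQ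
    · exact mkY_mul h1 hc1 (A1 w) Q (e10 w) (e11 w) hQQ
  · apply II.norm_le (by norm_num)
    intro t
    have hsum : ∀ {κ : Type} [Fintype κ] (F : κ → II), (∑ j, F j).at' t = ∑ j, (F j).at' t := by
      intro κ _ F
      let ev : II →+ BB := ⟨⟨fun g => g.at' t, rfl⟩, fun _ _ => rfl⟩
      exact map_sum ev F Finset.univ
    have hqt : star (Q.at' t) = Q.at' t := congrArg (fun g : II => g.at' t) hQs
    have hqq : Q.at' t * Q.at' t = Q.at' t := congrArg (fun g : II => g.at' t) hQQ
    have hqn : ‖Q.at' t‖ ≤ 1 := norm_proj_le ⟨hqq, hqt⟩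
    rw [II.at'_sub, hsum, Fintype.sum_sum_type, Fintype.sum_sum_type]
    simp only [Sum.elim_inl, Sum.elim_inr]
    have s0 : ∑ w, (star (Y0 w) * star (Phi k g) * Phi k g * Y0 w).at' t =
        ((u0 t : ℝ) : ℂ) • Q.at' t := by
      simp only [Y0, star_mkY_mul, h0sq]
      rw [← Finset.smul_sum, ← Finset.sum_mul, ← Finset.mul_sum]
      by_cases hz : u0 t = 0
      · rw [hz]; simp
      · have ht : (t : ℝ) ≤ 2 / 3 := by
          by_contra hcon
          exact hz (u0_eq_zero (by linarith))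
        rw [sum_A hX0s (la2_eq_zero ht), mul_one, hqt, hqq]
    have sm : ∑ p, (star (Ym p) * star (Phi k g) * Phi k g * Ym p).at' t =
        ((1 - u0 t - u1 d t : ℝ) : ℂ) • Q.at' t := by
      simp only [Ym, star_mkY_mul, hmsq]
      rw [← Finset.smul_sum, ← Finset.sum_mul, ← Finset.mul_sum]
      by_cases hz : 1 - u0 t - u1 d t = 0
      · rw [hz]; simp
      · have ht : 1 / 3 ≤ (t : ℝ) := by
          by_contra hcon
          exact hz (um_eq_zero hd hd3 (by linarith))
        rw [sum_B hX1s (la1_eq_one ht), mul_one, hqt, hqq]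
    have s1 : ∑ w, (star (Y1 w) * star (Phi k g) * Phi k g * Y1 w).at' t =
        ((u1 d t : ℝ) : ℂ) • (Q.at' t * Vc 1 * Q.at' t) := by
      simp only [Y1, star_mkY_mul, h1sq]
      rw [← Finset.smul_sum, ← Finset.sum_mul, ← Finset.mul_sum]
      by_cases hz : u1 d t = 0
      · rw [hz]; simp
      · have ht : 1 - d ≤ (t : ℝ) := by
          by_contra hcon
          exact hz (u1_eq_zero hd (by linarith))
        rw [sum_C hX1s (la1_eq_one (by linarith)), hqt]
    rw [s0, sm, s1]
    have hfin : ((u0 t : ℝ) : ℂ) • Q.at' t + (((1 - u0 t - u1 d t : ℝ) : ℂ) • Q.at' t +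
        ((u1 d t : ℝ) : ℂ) • (Q.at' t * Vc 1 * Q.at' t)) - Q.at' t =
        -(((u1 d t : ℝ) : ℂ) • (Q.at' t * (Q.at' t - Vc 1 * Q.at' t))) := by
      rw [mul_sub, hqq, ← mul_assoc, smul_sub]
      push_cast
      rw [sub_smul, sub_smul, one_smul]
      abel
    rw [hfin, norm_neg, norm_smul, Complex.norm_real,
      Real.norm_of_nonneg (show 0 ≤ u1 d t from rc_nonneg _)]
    by_cases hz : u1 d t = 0
    · rw [hz, zero_mul]; norm_num
    · have ht : 1 - d ≤ (t : ℝ) := by
        by_contra hcon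
        exact hz (u1_eq_zero hd (by linarith))
      have h5 := hdQ t ht
      have h6 : u1 d t ≤ 1 := rc_le_one _
      have h7 : 0 ≤ u1 d t := rc_nonneg _
      calc u1 d t * ‖Q.at' t * (Q.at' t - Vc 1 * Q.at' t)‖
          ≤ 1 * (1 * (1 / 2)) := by
            gcongr
            exact (norm_mul_le _ _).trans (by gcongr)
        _ = 1 / 2 := by norm_num

end Pool.Agent.Lib.Ell
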