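import Pool.Agent.Lib.Ell.Fld
import Pool.Agent.Lib.P81d4f5.Obstruct

set_option autoImplicit false

/-!
MODULE Ell.Good (uses Fld.lean, Hilb.lean and P81d4f5/Obstruct.lean).

Fields of operators dominated by sums of line bundles with distinct representing coordinates, and
the Euler class obstruction for them.

PROOF of `GoodIn.exists_small`.  Suppose ⟪f x, h x (f x)⟫.re > ε for all x.  For each x there is a
finite J_x with ∑_{J_x} ‖⟪ℓ i x, f x⟫‖² > 0 (use the domination with ε/2), hence > 0 in an open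
neighbourhood of x (finite sum of continuous functions); XX is compact, so some finite J works for
all x: for every x some i ∈ J has ⟪ℓ i x, f x⟫ ≠ 0.  Apply
`Pool.Agent.Lib.P81d4f5.exists_common_zero` with κ = J (as a Fintype, DecidableEq), F_i on κ → S3:
F_i(y) = ⟪f x, ℓ i x⟫ where x = x(y) has coordinate some (r i') equal to y i' (i' ∈ J, r injective)
and all the other coordinates ee; weights w i i' = ω i (some (r i')), w i i ≥ 1.  HasWt
(see P81d4f5/Good.lean: rotm rotates all coordinates simultaneously, product of the factors) follows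
from HasW by rotating the coordinates one after the other (Finset induction).
-/

open scoped InnerProductSpace unitInterval

namespace Pool.Agent.Lib.Ell

open Pool.Agent.Lib.P81d4f5 (S3)

/-- vector fields with non-negative weights -/
def HasW (ω : Ix → ℕ) (ℓ : XX → Hb) : Prop :=
  ∀ c (z : Circle) x, ℓ (rotAt c z x) = ((z : ℂ) ^ (ω c)) • ℓ x

/-- fields dominated by a sum of line bundles with distinct representing coordinates in `D` -/
def GoodIn (D : Set (Bool × ℕ)) (h : XX → Op) : Prop :=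
  ∃ (ι : Type) (ℓ : ι → XX → Hb) (ω : ι → Ix → ℕ) (r : ι → Bool × ℕ),
    (∀ i, Continuous (ℓ i)) ∧ (∀ i, HasW (ω i) (ℓ i)) ∧ Function.Injective r ∧
    (∀ i, r i ∈ D) ∧ (∀ i, 1 ≤ ω i (some (r i))) ∧
    ∀ x f (ε : ℝ), 0 < ε → ∃ J : Finset ι,
      (⟪f, h x f⟫_ℂ).re ≤ ∑ i ∈ J, ‖⟪ℓ i x, f⟫_ℂ‖ ^ 2 + ε

section aux

variable {κ : Type}

open Classical in
/-- rotate the coordinates `r s`, `s ∈ T` -/
noncomputable def rotT (r : κ → Bool × ℕ) (c : κ → Circle) (T : Finset κ) (x : XX) : XX :=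
  fun d => if h : ∃ s ∈ T, some (r s) = d then S3.rot (c h.choose) (x d) else x d

theorem rotT_empty (r : κ → Bool × ℕ) (c : κ → Circle) (x : XX) : rotT r c ∅ x = x := by
  funext d
  simp [rotT]

theorem rotT_of_mem {r : κ → Bool × ℕ} (hr : Function.Injective r) (c : κ → Circle) {T : Finset κ}
    (x : XX) {s : κ} (hs : s ∈ T) : rotT r c T x (some (r s)) = S3.rot (c s) (x (some (r s))) := by
  have h : ∃ s' ∈ T, some (r s') = some (r s) := ⟨s, hs, rfl⟩
  have h1 : h.choose = s := hr (Option.some_injective _ h.choose_spec.2)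
  rw [rotT, dif_pos h, h1]

theorem rotT_of_not {r : κ → Bool × ℕ} (c : κ → Circle) {T : Finset κ}
    (x : XX) {d : Ix} (hd : ¬ ∃ s ∈ T, some (r s) = d) : rotT r c T x d = x d := by
  rw [rotT, dif_neg hd]

theorem rotT_insert [DecidableEq κ] {r : κ → Bool × ℕ} (hr : Function.Injective r) (c : κ → Circle)
    {T : Finset κ} {s : κ} (hs : s ∉ T) (x : XX) :
    rotT r c (insert s T) x = rotAt (some (r s)) (c s) (rotT r c T x) := by
  funext d
  by_cases hd : d = some (r s)
  · subst hd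
    rw [rotAt_self, rotT_of_mem hr c x (Finset.mem_insert_self s T), rotT_of_not c x]
    rintro ⟨s', hs', he⟩
    exact hs (hr (Option.some_injective _ he) ▸ hs')
  · rw [rotAt_of_ne hd]
    by_cases h : ∃ s' ∈ T, some (r s') = d
    · obtain ⟨s', hs', rfl⟩ := h
      rw [rotT_of_mem hr c x hs', rotT_of_mem hr c x (Finset.mem_insert_of_mem hs')]
    · rw [rotT_of_not c x h, rotT_of_not c x]
      rintro ⟨s', hs', he⟩
      rcases Finset.mem_insert.1 hs' with rfl | h'
      · exact hd he.symm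
      · exact h ⟨s', h', he⟩

theorem inv_rotT {r : κ → Bool × ℕ} (hr : Function.Injective r) (c : κ → Circle) {f : XX → Hb}
    (hinv : ∀ c (z : Circle) x, f (rotAt c z x) = f x) (T : Finset κ) (x : XX) :
    f (rotT r c T x) = f x := by
  classical
  induction T using Finset.induction_on with
  | empty => rw [rotT_empty]
  | insert s T hs ih => rw [rotT_insert hr c hs, hinv, ih]

theorem HasW.rotT {r : κ → Bool × ℕ} (hr : Function.Injective r) (c : κ → Circle) {ω : Ix → ℕ}
    {ℓ : XX → Hb} (hℓ : HasW ω ℓ) (T : Finset κ) (x : XX) :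
    ℓ (rotT r c T x) = (∏ s ∈ T, (c s : ℂ) ^ (ω (some (r s)))) • ℓ x := by
  classical
  induction T using Finset.induction_on with
  | empty => rw [rotT_empty]; simp
  | insert s T hs ih =>
    rw [rotT_insert hr c hs, hℓ, ih, Finset.prod_insert hs, smul_smul]

open Classical in
/-- the point with prescribed coordinates `r s` -/
noncomputable def ptT (r : κ → Bool × ℕ) (y : κ → S3) : XX :=
  fun d => if h : ∃ s, some (r s) = d then y h.choose else ee

theorem ptT_of_mem {r : κ → Bool × ℕ} (hr : Function.Injective r) (y : κ → S3) (s : κ) :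
    ptT r y (some (r s)) = y s := by
  have h : ∃ s', some (r s') = some (r s) := ⟨s, rfl⟩
  have h1 : h.choose = s := hr (Option.some_injective _ h.choose_spec)
  rw [ptT, dif_pos h, h1]

theorem ptT_of_not {r : κ → Bool × ℕ} (y : κ → S3) {d : Ix} (hd : ¬ ∃ s, some (r s) = d) :
    ptT r y d = ee := by
  rw [ptT, dif_neg hd]

theorem continuous_ptT (r : κ → Bool × ℕ) : Continuous (ptT r) := by
  apply continuous_pi
  intro d
  by_cases h : ∃ s, some (r s) = d
  · simp only [ptT, dif_pos h]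
    exact continuous_apply _
  · simp only [ptT, dif_neg h]
    exact continuous_const

theorem ptT_rotm [Fintype κ] {r : κ → Bool × ℕ} (hr : Function.Injective r) (c : κ → Circle) (y : κ → S3) :
    ptT r (Pool.Agent.Lib.P81d4f5.rotm c y) = rotT r c Finset.univ (ptT r y) := by
  funext d
  by_cases h : ∃ s, some (r s) = d
  · obtain ⟨s, rfl⟩ := h
    rw [ptT_of_mem hr, rotT_of_mem hr c _ (Finset.mem_univ s), ptT_of_mem hr]
    rfl
  · rw [ptT_of_not _ h, rotT_of_not c, ptT_of_not _ h]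
    rintro ⟨s, -, hs⟩
    exact h ⟨s, hs⟩

end aux

theorem GoodIn.exists_small {D : Set (Bool × ℕ)} {h : XX → Op} (hg : GoodIn D h) {f : XX → Hb}
    (hf : Continuous f) (hinv : ∀ c (z : Circle) x, f (rotAt c z x) = f x) {ε : ℝ} (hε : 0 < ε) :
    ∃ x, (⟪f x, h x (f x)⟫_ℂ).re ≤ ε := by
  classical
  by_contra hcon
  push Not at hcon
  obtain ⟨ι, ℓ, ω, r, hcont, hW, hinj, hD, hw, hdom⟩ := hg
  have h1 : ∀ x, ∃ J : Finset ι, 0 < ∑ i ∈ J, ‖⟪ℓ i x, f x⟫_ℂ‖ ^ 2 := by
    intro x
    obtain ⟨J, hJ⟩ := hdom x (f x) (ε / 2) (by positivity)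
    exact ⟨J, by linarith [hcon x]⟩
  choose J hJ using h1
  have hopen : ∀ x, IsOpen {y | 0 < ∑ i ∈ J x, ‖⟪ℓ i y, f y⟫_ℂ‖ ^ 2} := by
    intro x
    refine isOpen_lt continuous_const (continuous_finsetSum _ fun i _ => ?_)
    exact ((hcont i).inner hf).norm.pow 2
  obtain ⟨t, ht⟩ := isCompact_univ.elim_finite_subcover
    (fun x => {y | 0 < ∑ i ∈ J x, ‖⟪ℓ i y, f y⟫_ℂ‖ ^ 2}) hopen
    (fun y _ => Set.mem_iUnion.2 ⟨y, hJ y⟩)
  let K : Finset ι := t.biUnion J
  have hK : ∀ y, ∃ i ∈ K, ⟪ℓ i y, f y⟫_ℂ ≠ 0 := by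
    intro y
    have hy := ht (Set.mem_univ y)
    simp only [Set.mem_iUnion] at hy
    obtain ⟨x, hx, hxy⟩ := hy
    change 0 < ∑ i ∈ J x, ‖⟪ℓ i y, f y⟫_ℂ‖ ^ 2 at hxy
    obtain ⟨i, hi, hne⟩ := Finset.exists_ne_zero_of_sum_ne_zero hxy.ne'
    refine ⟨i, Finset.mem_biUnion.2 ⟨x, hx, hi⟩, fun h0 => hne ?_⟩
    rw [h0]; simp
  let r' : K → Bool × ℕ := fun i => r i
  have hr' : Function.Injective r' := fun a b hab => Subtype.ext (hinj hab)
  let F : K → C(K → S3, ℂ) := fun i =>
    ⟨fun y => ⟪f (ptT r' y), ℓ i (ptT r' y)⟫_ℂ,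
      (hf.comp (continuous_ptT r')).inner ((hcont i).comp (continuous_ptT r'))⟩
  obtain ⟨y, hy⟩ := Pool.Agent.Lib.P81d4f5.exists_common_zero (κ := K)
    (fun (i s : K) => ω i (some (r' s))) (fun i => hw i) F (by
      intro i c y
      change ⟪f (ptT r' _), ℓ i (ptT r' _)⟫_ℂ = _ * ⟪f (ptT r' y), ℓ i (ptT r' y)⟫_ℂ
      rw [ptT_rotm hr', inv_rotT hr' c hinv, (hW i).rotT hr' c, inner_smul_right]
      simp only [zpow_natCast])
  obtain ⟨i, hi, hne⟩ := hK (ptT r' y)
  apply hne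
  have h2 : ⟪f (ptT r' y), ℓ i (ptT r' y)⟫_ℂ = 0 := hy ⟨i, hi⟩
  rw [← inner_conj_symm, h2, map_zero]

end Pool.Agent.Lib.Ell
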