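import Mathlib

set_option autoImplicit false

/-!
The Hilbert space `Hb`, the algebra `Op` of bounded operators on it, Cuntz isometries `S n`
(`n : ℕ`) and `s j` (`j : Fin 2`) which commute with each other, and infinite direct sums
`dsum T = ∑ S n (T n) (S n)^*`.
-/

open scoped InnerProductSpace

namespace Pool.Agent.Lib.Ell

/-- The Hilbert space. -/
abbrev Hb : Type := lp (fun _ : ℕ × ℕ => ℂ) 2

/-- Bounded operators. -/
abbrev Op : Type := Hb →L[ℂ] Hb

noncomputable instance : CStarAlgebra Op where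

/-- the standard Hilbert basis -/
noncomputable def bas : HilbertBasis (ℕ × ℕ) ℂ Hb := ⟨LinearIsometryEquiv.refl ℂ Hb⟩

/-- basis vectors -/
noncomputable def eb (i : ℕ × ℕ) : Hb := bas i

theorem orthonormal_eb : Orthonormal ℂ eb := bas.orthonormal

theorem norm_eb (i : ℕ × ℕ) : ‖eb i‖ = 1 := orthonormal_eb.1 i

theorem inner_eb_eb (i j : ℕ × ℕ) : ⟪eb i, eb j⟫_ℂ = if i = j then 1 else 0 := by
  classical
  exact orthonormal_iff_ite.1 orthonormal_eb i j

theorem eb_ne_zero (i : ℕ × ℕ) : eb i ≠ 0 := by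
  intro h
  have := norm_eb i
  rw [h, norm_zero] at this
  exact zero_ne_one this

instance : Nontrivial Hb := ⟨⟨eb (0, 0), 0, eb_ne_zero _⟩⟩

theorem hasSum_eb (f : Hb) : HasSum (fun i => ⟪eb i, f⟫_ℂ • eb i) f := by
  have h := bas.hasSum_repr f
  simp only [bas.repr_apply_apply] at h
  exact h

theorem vec_ext {f g : Hb} (h : ∀ i, ⟪eb i, f⟫_ℂ = ⟪eb i, g⟫_ℂ) : f = g := by
  have h1 := hasSum_eb f
  have h2 := hasSum_eb g
  simp only [h] at h1
  exact h1.unique h2

theorem op_ext {A B : Op} (h : ∀ i, A (eb i) = B (eb i)) : A = B := by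
  ext1 f
  have h1 := (hasSum_eb f).mapL A
  have h2 := (hasSum_eb f).mapL B
  simp only [map_smul, h] at h1
  simp only [map_smul] at h2
  exact h1.unique h2

theorem inner_star_left (A : Op) (f g : Hb) : ⟪star A f, g⟫_ℂ = ⟪f, A g⟫_ℂ :=
  ContinuousLinearMap.adjoint_inner_left A g f

theorem inner_star_right (A : Op) (f g : Hb) : ⟪f, star A g⟫_ℂ = ⟪A f, g⟫_ℂ :=
  ContinuousLinearMap.adjoint_inner_right A f g

theorem mul_apply' (A B : Op) (f : Hb) : (A * B) f = A (B f) := rfl

/-- the isometry with `eb i ↦ v i` -/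
noncomputable def isoOf (v : ℕ × ℕ → Hb) (hv : Orthonormal ℂ v) : Op :=
  hv.orthogonalFamily.linearIsometry.toContinuousLinearMap

theorem isoOf_eb (v : ℕ × ℕ → Hb) (hv : Orthonormal ℂ v) (i : ℕ × ℕ) :
    isoOf v hv (eb i) = v i := by
  classical
  have h1 : eb i = lp.single 2 i (1 : ℂ) := by
    rw [eb, bas]
    exact (HilbertBasis.repr_symm_single (⟨LinearIsometryEquiv.refl ℂ Hb⟩ :
      HilbertBasis (ℕ × ℕ) ℂ Hb) i).symm
  rw [h1]
  have := hv.orthogonalFamily.linearIsometry_apply_single (i := i) (1 : ℂ)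
  simp [isoOf, this]

theorem norm_isoOf (v : ℕ × ℕ → Hb) (hv : Orthonormal ℂ v) (f : Hb) : ‖isoOf v hv f‖ = ‖f‖ :=
  hv.orthogonalFamily.linearIsometry.norm_map f

theorem star_mul_self_of_norm {A : Op} (h : ∀ f, ‖A f‖ = ‖f‖) : star A * A = 1 := by
  have h1 := (ContinuousLinearMap.norm_map_iff_adjoint_comp_self A).1 h
  exact h1

theorem norm_of_star_mul_self {A : Op} (h : star A * A = 1) (f : Hb) : ‖A f‖ = ‖f‖ :=
  (ContinuousLinearMap.norm_map_iff_adjoint_comp_self A).2 h f

theorem star_isoOf_mul (v : ℕ × ℕ → Hb) (hv : Orthonormal ℂ v) :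
    star (isoOf v hv) * isoOf v hv = 1 :=
  star_mul_self_of_norm (norm_isoOf v hv)

/-- the isometry permuting basis vectors along an injection -/
noncomputable def pm (f : ℕ × ℕ → ℕ × ℕ) (hf : Function.Injective f) : Op :=
  isoOf (fun i => eb (f i)) (orthonormal_eb.comp f hf)

theorem pm_eb (f : ℕ × ℕ → ℕ × ℕ) (hf : Function.Injective f) (i : ℕ × ℕ) :
    pm f hf (eb i) = eb (f i) := isoOf_eb _ _ i

theorem star_pm_mul (f : ℕ × ℕ → ℕ × ℕ) (hf : Function.Injective f) :
    star (pm f hf) * pm f hf = 1 := star_isoOf_mul _ _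

theorem star_pm_eb (f : ℕ × ℕ → ℕ × ℕ) (hf : Function.Injective f) (i : ℕ × ℕ) :
    star (pm f hf) (eb (f i)) = eb i := by
  rw [← pm_eb f hf i, ← mul_apply', star_pm_mul]; rfl

theorem star_pm_eb_of_notMem (f : ℕ × ℕ → ℕ × ℕ) (hf : Function.Injective f) {j : ℕ × ℕ}
    (hj : ∀ i, f i ≠ j) : star (pm f hf) (eb j) = 0 := by
  apply vec_ext
  intro i
  rw [inner_star_right, pm_eb, inner_eb_eb, if_neg (hj i), inner_zero_right]

/-- the injection behind `S n` -/
def Sf (n : ℕ) (i : ℕ × ℕ) : ℕ × ℕ := (Nat.pair n i.1, i.2)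

theorem Sf_injective (n : ℕ) : Function.Injective (Sf n) := by
  rintro ⟨a, b⟩ ⟨c, d⟩ h
  simp only [Sf, Prod.mk.injEq, Nat.pair_eq_pair, true_and] at h
  exact Prod.ext h.1 h.2

/-- the injection behind `s j` -/
def sf (j : Fin 2) (i : ℕ × ℕ) : ℕ × ℕ := (i.1, 2 * i.2 + j.1)

theorem sf_injective (j : Fin 2) : Function.Injective (sf j) := by
  rintro ⟨a, b⟩ ⟨c, d⟩ h
  simp only [sf, Prod.mk.injEq] at h
  exact Prod.ext h.1 (by simp only; omega)

/-- infinitely many isometries with orthogonal ranges -/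
noncomputable def S (n : ℕ) : Op := pm (Sf n) (Sf_injective n)

/-- two isometries with orthogonal ranges which add up to one -/
noncomputable def s (j : Fin 2) : Op := pm (sf j) (sf_injective j)

theorem S_eb (n : ℕ) (i : ℕ × ℕ) : S n (eb i) = eb (Sf n i) := pm_eb _ _ i

theorem s_eb (j : Fin 2) (i : ℕ × ℕ) : s j (eb i) = eb (sf j i) := pm_eb _ _ i

@[simp] theorem star_S_mul_self (n : ℕ) : star (S n) * S n = 1 := star_pm_mul _ _

@[simp] theorem star_s_mul_self (j : Fin 2) : star (s j) * s j = 1 := star_pm_mul _ _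

theorem star_S_mul_of_ne {n m : ℕ} (h : n ≠ m) : star (S n) * S m = 0 := by
  apply op_ext
  intro i
  rw [mul_apply', S_eb]
  rw [S, star_pm_eb_of_notMem]
  · rfl
  · intro k hk
    simp only [Sf, Prod.mk.injEq, Nat.pair_eq_pair] at hk
    exact h hk.1.1

theorem star_S_mul (n m : ℕ) : star (S n) * S m = if n = m then 1 else 0 := by
  split_ifs with h
  · subst h; exact star_S_mul_self n
  · exact star_S_mul_of_ne h

theorem star_s_mul_of_ne {i j : Fin 2} (h : i ≠ j) : star (s i) * s j = 0 := by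
  apply op_ext
  intro k
  rw [mul_apply', s_eb]
  rw [s, star_pm_eb_of_notMem]
  · rfl
  · intro l hl
    simp only [sf, Prod.mk.injEq] at hl
    apply h
    ext
    omega

theorem star_s_mul (i j : Fin 2) : star (s i) * s j = if i = j then 1 else 0 := by
  split_ifs with h
  · subst h; exact star_s_mul_self i
  · exact star_s_mul_of_ne h

theorem sum_s_mul_star : s 0 * star (s 0) + s 1 * star (s 1) = 1 := by
  apply op_ext
  rintro ⟨a, b⟩
  change s 0 (star (s 0) (eb (a, b))) + s 1 (star (s 1) (eb (a, b))) = eb (a, b)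
  rcases Nat.even_or_odd' b with ⟨c, hc | hc⟩
  · have h0 : ((a, b) : ℕ × ℕ) = sf 0 (a, c) := by simp [sf, hc]
    have h1 : star (s 0) (eb (a, b)) = eb (a, c) := by rw [h0]; exact star_pm_eb _ _ _
    have h2 : star (s 1) (eb (a, b)) = 0 := by
      apply star_pm_eb_of_notMem
      rintro ⟨x, y⟩ hk
      simp [sf] at hk
      omega
    rw [h1, h2, s_eb, map_zero, add_zero, ← h0]
  · have h0 : ((a, b) : ℕ × ℕ) = sf 1 (a, c) := by simp [sf, hc]
    have h1 : star (s 1) (eb (a, b)) = eb (a, c) := by rw [h0]; exact star_pm_eb _ _ _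
    have h2 : star (s 0) (eb (a, b)) = 0 := by
      apply star_pm_eb_of_notMem
      rintro ⟨x, y⟩ hk
      simp [sf] at hk
      omega
    rw [h1, h2, s_eb, map_zero, zero_add, ← h0]

theorem s_mul_S (j : Fin 2) (n : ℕ) : s j * S n = S n * s j := by
  apply op_ext
  intro i
  rw [mul_apply', mul_apply', S_eb, s_eb, s_eb, S_eb]
  rfl

theorem star_s_mul_S (j : Fin 2) (n : ℕ) : star (s j) * S n = S n * star (s j) := by
  apply op_ext
  rintro ⟨a, b⟩
  rw [mul_apply', mul_apply', S_eb]
  by_cases h : ∃ c, b = 2 * c + j.1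
  · obtain ⟨c, hc⟩ := h
    have h0 : ((a, b) : ℕ × ℕ) = sf j (a, c) := by simp [sf, hc]
    have h1 : star (s j) (eb (a, b)) = eb (a, c) := by rw [h0]; exact star_pm_eb _ _ _
    have h2 : Sf n (a, b) = sf j (Sf n (a, c)) := by simp [sf, Sf, hc]
    rw [h1, S_eb, h2]
    exact star_pm_eb _ _ _
  · have h1 : star (s j) (eb (a, b)) = 0 := by
      apply star_pm_eb_of_notMem
      rintro ⟨x, y⟩ hk
      simp only [sf, Prod.mk.injEq] at hk
      exact h ⟨y, hk.2.symm⟩
    have h2 : star (s j) (eb (Sf n (a, b))) = 0 := by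
      apply star_pm_eb_of_notMem
      rintro ⟨x, y⟩ hk
      simp only [sf, Sf, Prod.mk.injEq] at hk
      exact h ⟨y, hk.2.symm⟩
    rw [h1, h2, map_zero]

theorem star_S_mul_s (j : Fin 2) (n : ℕ) : star (S n) * s j = s j * star (S n) := by
  have := congrArg star (star_s_mul_S j n)
  simpa using this

theorem star_S_mul_star_s (j : Fin 2) (n : ℕ) :
    star (S n) * star (s j) = star (s j) * star (S n) := by
  have := congrArg star (s_mul_S j n)
  simpa using this

/-! ### infinite direct sums -/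

theorem inner_S_S (n m : ℕ) (f g : Hb) :
    ⟪S n f, S m g⟫_ℂ = if n = m then ⟪f, g⟫_ℂ else 0 := by
  rw [← inner_star_right, ← mul_apply', star_S_mul]
  split_ifs
  · rfl
  · change ⟪f, (0 : Hb)⟫_ℂ = 0
    rw [inner_zero_right]

theorem norm_S (n : ℕ) (f : Hb) : ‖S n f‖ = ‖f‖ := norm_of_star_mul_self (star_S_mul_self n) f

/-- `S n` as a linear isometry -/
noncomputable def Siso (n : ℕ) : Hb →ₗᵢ[ℂ] Hb where
  toLinearMap := (S n).toLinearMap
  norm_map' := norm_S n

theorem Siso_apply (n : ℕ) (f : Hb) : Siso n f = S n f := rfl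

theorem orthogonalFamily_S : OrthogonalFamily ℂ (fun _ : ℕ => Hb) Siso := by
  intro n m hnm f g
  rw [Siso_apply, Siso_apply, inner_S_S, if_neg hnm]

theorem isHilbertSum_S : IsHilbertSum ℂ (fun _ : ℕ => Hb) Siso := by
  apply IsHilbertSum.mk (𝕜 := ℂ) orthogonalFamily_S
  rw [← bas.dense_span]
  apply Submodule.topologicalClosure_mono
  rw [Submodule.span_le]
  rintro _ ⟨⟨a, b⟩, rfl⟩
  apply Submodule.mem_iSup_of_mem (Nat.unpair a).1
  refine ⟨eb ((Nat.unpair a).2, b), ?_⟩
  change S _ (eb _) = bas (a, b)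
  rw [S_eb, Sf]
  simp only [Nat.pair_unpair]
  rfl

/-- the unitary from `Hb` to the sum of copies of `Hb` -/
noncomputable def Ueq : Hb ≃ₗᵢ[ℂ] lp (fun _ : ℕ => Hb) 2 := isHilbertSum_S.linearIsometryEquiv

theorem Ueq_symm_single (n : ℕ) (f : Hb) : Ueq.symm (lp.single 2 n f) = S n f := by
  classical
  have := IsHilbertSum.linearIsometryEquiv_symm_apply_single isHilbertSum_S (i := n) f
  exact this

theorem Ueq_S (n : ℕ) (f : Hb) : Ueq (S n f) = lp.single 2 n f := by
  rw [← Ueq_symm_single, LinearIsometryEquiv.apply_symm_apply]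

theorem Ueq_apply (f : Hb) (n : ℕ) : (Ueq f : ∀ _ : ℕ, Hb) n = star (S n) f := by
  classical
  apply ext_inner_left ℂ
  intro g
  have h1 : ⟪g, star (S n) f⟫_ℂ = ⟪Ueq (S n g), Ueq f⟫_ℂ := by
    rw [inner_star_right, LinearIsometryEquiv.inner_map_map]
  rw [h1, Ueq_S, lp.inner_single_left]

theorem hasSum_S (f : Hb) : HasSum (fun n => S n (star (S n) f)) f := by
  have h := isHilbertSum_S.hasSum_linearIsometryEquiv_symm (Ueq f)
  have h2 : isHilbertSum_S.linearIsometryEquiv.symm (Ueq f) = f := by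
    change Ueq.symm (Ueq f) = f
    simp
  rw [h2] at h
  have h3 : (fun n => S n (star (S n) f)) = fun n => Siso n ((Ueq f : ∀ _ : ℕ, Hb) n) := by
    funext n
    rw [Ueq_apply]
    rfl
  rw [h3]
  exact h

theorem hasSum_norm_sq_S (f : Hb) : HasSum (fun n => ‖star (S n) f‖ ^ 2) (‖f‖ ^ 2) := by
  have h := (hasSum_S f).mapL (innerSL ℂ f)
  have h2 := Complex.hasSum_re h
  simp only [innerSL_apply_apply] at h2
  rw [inner_self_eq_norm_sq_to_K] at h2
  have h3 : (fun n => (⟪f, S n (star (S n) f)⟫_ℂ).re) = fun n => ‖star (S n) f‖ ^ 2 := by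
    funext n
    rw [← inner_star_left, inner_self_eq_norm_sq_to_K]
    norm_cast
  rw [h3] at h2
  convert h2 using 1
  norm_cast

theorem ext_S {A B : Op} (h : ∀ n, A * S n = B * S n) : A = B := by
  ext1 f
  have h1 := (hasSum_S f).mapL A
  have h2 := (hasSum_S f).mapL B
  have h3 : (fun n => A (S n (star (S n) f))) = fun n => B (S n (star (S n) f)) := by
    funext n
    exact congrArg (fun T : Op => T (star (S n) f)) (h n)
  rw [h3] at h1
  exact h1.unique h2

theorem summable_S {g : ℕ → Hb} (hg : Summable fun n => ‖g n‖ ^ 2) :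
    Summable fun n => S n (g n) := by
  have := (orthogonalFamily_S.summable_iff_norm_sq_summable g).2 hg
  exact this

theorem norm_sq_tsum_S {g : ℕ → Hb} (hg : Summable fun n => ‖g n‖ ^ 2) :
    ‖∑' n, S n (g n)‖ ^ 2 = ∑' n, ‖g n‖ ^ 2 := by
  set f := ∑' n, S n (g n) with hf
  have h1 : ∀ m, star (S m) f = g m := by
    intro m
    have h2 := (summable_S hg).hasSum.mapL (star (S m))
    have h3 : ∀ n, n ≠ m → star (S m) (S n (g n)) = 0 := by
      intro n hn
      rw [← mul_apply', star_S_mul_of_ne (Ne.symm hn)]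
      rfl
    have h4 := hasSum_single (f := fun n => star (S m) (S n (g n))) m h3
    rw [h2.unique h4, ← mul_apply', star_S_mul_self]
    rfl
  rw [← (hasSum_norm_sq_S f).tsum_eq]
  simp only [h1]

/-- uniformly bounded families -/
def UB (T : ℕ → Op) : Prop := ∃ C, ∀ n, ‖T n‖ ≤ C

theorem UB.summable {T : ℕ → Op} (hT : UB T) (f : Hb) :
    Summable fun n => ‖T n (star (S n) f)‖ ^ 2 := by
  obtain ⟨C, hC⟩ := hT
  have hC0 : 0 ≤ C := (norm_nonneg _).trans (hC 0)
  refine Summable.of_nonneg_of_le (fun _ => sq_nonneg _) (fun n => ?_)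
    ((hasSum_norm_sq_S f).summable.mul_left (C ^ 2))
  rw [← mul_pow]
  exact pow_le_pow_left₀ (norm_nonneg _) ((T n).le_of_opNorm_le (hC n) _) 2

open Classical in
/-- the direct sum `∑ S n (T n) (S n)^*` -/
noncomputable def dsum (T : ℕ → Op) : Op :=
  if h : UB T then
    LinearMap.mkContinuous
      { toFun := fun f => ∑' n, S n (T n (star (S n) f))
        map_add' := fun f g => by
          simp only [map_add]
          exact (summable_S (h.summable f)).tsum_add (summable_S (h.summable g))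
        map_smul' := fun c f => by
          simp only [map_smul, RingHom.id_apply]
          exact (summable_S (h.summable f)).tsum_const_smul c } h.choose (fun f => by
        have hC := h.choose_spec
        have hC0 : 0 ≤ h.choose := (norm_nonneg _).trans (hC 0)
        have h1 : ‖∑' n, S n (T n (star (S n) f))‖ ^ 2 ≤ (h.choose * ‖f‖) ^ 2 := by
          rw [norm_sq_tsum_S (h.summable f), mul_pow, ← (hasSum_norm_sq_S f).tsum_eq,
            ← tsum_mul_left]
          refine (h.summable f).tsum_le_tsum (fun n => ?_)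
            ((hasSum_norm_sq_S f).summable.mul_left _)
          rw [← mul_pow]
          exact pow_le_pow_left₀ (norm_nonneg _) ((T n).le_of_opNorm_le (hC n) _) 2
        exact (abs_le_of_sq_le_sq' h1 (by positivity)).2)
  else 0

theorem dsum_apply {T : ℕ → Op} (h : UB T) (f : Hb) :
    dsum T f = ∑' n, S n (T n (star (S n) f)) := by
  rw [dsum, dif_pos h]; rfl

theorem hasSum_dsum {T : ℕ → Op} (h : UB T) (f : Hb) :
    HasSum (fun n => S n (T n (star (S n) f))) (dsum T f) := by
  rw [dsum_apply h]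
  exact (summable_S (h.summable f)).hasSum

theorem dsum_mul_S {T : ℕ → Op} (h : UB T) (n : ℕ) : dsum T * S n = S n * T n := by
  ext1 f
  have h1 := hasSum_dsum h (S n f)
  have h3 : ∀ m, m ≠ n → S m (T m (star (S m) (S n f))) = 0 := by
    intro m hm
    rw [← mul_apply' (star (S m)), star_S_mul_of_ne hm]
    simp
  have h4 := hasSum_single (f := fun m => S m (T m (star (S m) (S n f)))) n h3
  rw [mul_apply', h1.unique h4, ← mul_apply' (star (S n)), star_S_mul_self]
  rfl

theorem norm_dsum_le {T : ℕ → Op} {C : ℝ} (hC0 : 0 ≤ C) (hC : ∀ n, ‖T n‖ ≤ C) :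
    ‖dsum T‖ ≤ C := by
  have h : UB T := ⟨C, hC⟩
  apply ContinuousLinearMap.opNorm_le_bound _ hC0
  intro f
  rw [dsum_apply h]
  have h1 : ‖∑' n, S n (T n (star (S n) f))‖ ^ 2 ≤ (C * ‖f‖) ^ 2 := by
    rw [norm_sq_tsum_S (h.summable f), mul_pow, ← (hasSum_norm_sq_S f).tsum_eq,
      ← tsum_mul_left]
    refine (h.summable f).tsum_le_tsum (fun n => ?_)
      ((hasSum_norm_sq_S f).summable.mul_left _)
    rw [← mul_pow]
    exact pow_le_pow_left₀ (norm_nonneg _) ((T n).le_of_opNorm_le (hC n) _) 2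
  exact (abs_le_of_sq_le_sq' h1 (by positivity)).2

theorem UB.star {T : ℕ → Op} (h : UB T) : UB fun n => star (T n) := by
  obtain ⟨C, hC⟩ := h
  exact ⟨C, fun n => by rw [norm_star]; exact hC n⟩

theorem UB.mul {T T' : ℕ → Op} (h : UB T) (h' : UB T') : UB fun n => T n * T' n := by
  obtain ⟨C, hC⟩ := h
  obtain ⟨C', hC'⟩ := h'
  exact ⟨C * C', fun n => (norm_mul_le _ _).trans
    (mul_le_mul (hC n) (hC' n) (norm_nonneg _) ((norm_nonneg _).trans (hC n)))⟩

theorem UB.add {T T' : ℕ → Op} (h : UB T) (h' : UB T') : UB fun n => T n + T' n := by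
  obtain ⟨C, hC⟩ := h
  obtain ⟨C', hC'⟩ := h'
  exact ⟨C + C', fun n => (norm_add_le _ _).trans (add_le_add (hC n) (hC' n))⟩

theorem UB.sub {T T' : ℕ → Op} (h : UB T) (h' : UB T') : UB fun n => T n - T' n := by
  obtain ⟨C, hC⟩ := h
  obtain ⟨C', hC'⟩ := h'
  exact ⟨C + C', fun n => (norm_sub_le _ _).trans (add_le_add (hC n) (hC' n))⟩

theorem UB.smul {T : ℕ → Op} (h : UB T) (c : ℂ) : UB fun n => c • T n := by
  obtain ⟨C, hC⟩ := h
  exact ⟨‖c‖ * C, fun n => by rw [norm_smul]; gcongr; exact hC n⟩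

theorem UB.const (A : Op) : UB fun _ => A := ⟨‖A‖, fun _ => le_rfl⟩

theorem dsum_mul {T T' : ℕ → Op} (h : UB T) (h' : UB T') :
    dsum T * dsum T' = dsum fun n => T n * T' n := by
  apply ext_S
  intro n
  rw [mul_assoc, dsum_mul_S h', ← mul_assoc, dsum_mul_S h, dsum_mul_S (h.mul h'), mul_assoc]

theorem dsum_add {T T' : ℕ → Op} (h : UB T) (h' : UB T') :
    dsum T + dsum T' = dsum fun n => T n + T' n := by
  apply ext_S
  intro n
  rw [add_mul, dsum_mul_S h', dsum_mul_S h, dsum_mul_S (h.add h'), mul_add]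

theorem dsum_sub {T T' : ℕ → Op} (h : UB T) (h' : UB T') :
    dsum T - dsum T' = dsum fun n => T n - T' n := by
  apply ext_S
  intro n
  rw [sub_mul, dsum_mul_S h', dsum_mul_S h, dsum_mul_S (h.sub h'), mul_sub]

theorem dsum_smul {T : ℕ → Op} (h : UB T) (c : ℂ) :
    c • dsum T = dsum fun n => c • T n := by
  apply ext_S
  intro n
  rw [smul_mul_assoc, dsum_mul_S h, dsum_mul_S (h.smul c), mul_smul_comm]

theorem dsum_one : (dsum fun _ => 1) = 1 := by
  apply ext_S
  intro n
  rw [dsum_mul_S (UB.const 1)]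
  simp

theorem dsum_zero : (dsum fun _ => 0) = 0 := by
  apply ext_S
  intro n
  rw [dsum_mul_S (UB.const 0)]
  simp

theorem dsum_star {T : ℕ → Op} (h : UB T) : star (dsum T) = dsum fun n => star (T n) := by
  apply ext_S
  intro n
  rw [dsum_mul_S h.star]
  -- compare after multiplying by `star (S m)` on the left
  have h1 : ∀ m, star (S m) * (star (dsum T) * S n) = star (S m) * (S n * star (T n)) := by
    intro m
    rw [← mul_assoc, ← star_mul, dsum_mul_S h, star_mul, mul_assoc, star_S_mul, ← mul_assoc,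
      star_S_mul]
    split_ifs with hmn
    · subst hmn; simp
    · simp
  have h2 : star (star (dsum T) * S n) = star (S n * star (T n)) := by
    apply ext_S
    intro m
    have := congrArg star (h1 m)
    rw [star_mul, star_star, star_mul _ (S n * star (T n)), star_star] at this
    exact this
  exact star_injective h2

theorem star_S_mul_dsum {T : ℕ → Op} (h : UB T) (n : ℕ) :
    star (S n) * dsum T = T n * star (S n) := by
  have h1 := congrArg star (dsum_mul_S h.star n)
  rw [star_mul, star_mul, ← dsum_star h, star_star, star_star] at h1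
  exact h1

theorem dsum_comm_s {T : ℕ → Op} (h : UB T) (j : Fin 2) :
    s j * dsum T = dsum (fun n => s j * T n) := by
  apply ext_S
  intro n
  rw [mul_assoc, dsum_mul_S h, dsum_mul_S ((UB.const (s j)).mul h), ← mul_assoc, s_mul_S,
    mul_assoc]

theorem dsum_mul_s {T : ℕ → Op} (h : UB T) (j : Fin 2) :
    dsum T * s j = dsum (fun n => T n * s j) := by
  apply ext_S
  intro n
  rw [mul_assoc, s_mul_S, ← mul_assoc, dsum_mul_S h, dsum_mul_S (h.mul (UB.const (s j))),
    mul_assoc]

theorem dsum_injective {T T' : ℕ → Op} (h : UB T) (h' : UB T') (he : dsum T = dsum T') (n : ℕ) :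
    T n = T' n := by
  have h1 := congrArg (fun A => star (S n) * (A * S n)) he
  simp only [dsum_mul_S h, dsum_mul_S h', ← mul_assoc, star_S_mul_self, one_mul] at h1
  exact h1

/-- the quadratic form of a direct sum -/
theorem hasSum_inner_dsum {T : ℕ → Op} (h : UB T) (f : Hb) :
    HasSum (fun n => ⟪star (S n) f, T n (star (S n) f)⟫_ℂ) ⟪f, dsum T f⟫_ℂ := by
  have h1 := (hasSum_dsum h f).mapL (innerSL ℂ f)
  simp only [innerSL_apply_apply] at h1
  have h3 : (fun n => ⟪f, S n (T n (star (S n) f))⟫_ℂ) =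
      fun n => ⟪star (S n) f, T n (star (S n) f)⟫_ℂ := by
    funext n
    rw [inner_star_left]
  rw [h3] at h1
  exact h1

end Pool.Agent.Lib.Ell
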