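import Pool.Agent.Lib.Ell.ProjHom
import Pool.Agent.Lib.CStarLim.Simple

set_option autoImplicit false

/-!
Projections of an inductive limit are unitarily equivalent to projections of the building blocks.
-/

open Filter Topology

namespace Pool.Agent.Lib.Ell

/-- the continuous cut off function -/
noncomputable def cut (t : ℝ) : ℝ := max 0 (min 1 (4 * t - 3 / 2))

theorem cut_of_le {t : ℝ} (h : t ≤ 3 / 8) : cut t = 0 := by
  unfold cut; rw [max_eq_left]; exact (min_le_right _ _).trans (by linarith)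

theorem cut_of_ge {t : ℝ} (h : 5 / 8 ≤ t) : cut t = 1 := by
  unfold cut; rw [min_eq_left (by linarith)]; simp

theorem continuous_cut : Continuous cut := by unfold cut; fun_prop

theorem exists_near {A : Type*} [CStarAlgebra A] {a : A} (ha : IsSelfAdjoint a)
    (h : ‖a * a - a‖ ≤ 1 / 8) : ∃ e : A, IsStarProjection e ∧ ‖a - e‖ ≤ 3 / 8 := by
  have hsp : ∀ t ∈ spectrum ℝ a, |t * t - t| ≤ 1 / 8 := by
    intro t ht
    have h1 : a * a - a = cfc (fun t : ℝ => t * t - t) a := by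
      rw [cfc_sub (fun t : ℝ => t * t) (fun t : ℝ => t) a, cfc_mul (fun t : ℝ => t)
        (fun t : ℝ => t) a, cfc_id' ℝ a]
    have h2 := norm_apply_le_norm_cfc (fun t : ℝ => t * t - t) a ht
    rw [← h1] at h2
    exact h2.trans h
  have hcase : ∀ t ∈ spectrum ℝ a, (t ≤ 3 / 8 ∧ -(3 / 8) ≤ t) ∨ (5 / 8 ≤ t ∧ t ≤ 11 / 8) := by
    intro t ht
    have h1 := abs_le.1 (hsp t ht)
    rcases le_or_gt t (3 / 8) with h2 | h2
    · left
      refine ⟨h2, ?_⟩
      by_contra h3
      push Not at h3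
      nlinarith
    · right
      constructor
      · by_contra h3
        push Not at h3
        nlinarith
      · by_contra h3
        push Not at h3
        nlinarith
  refine ⟨cfc cut a, ⟨?_, cfc_predicate _ a⟩, ?_⟩
  · rw [IsIdempotentElem, ← cfc_mul cut cut a continuous_cut.continuousOn
      continuous_cut.continuousOn]
    apply cfc_congr
    intro t ht
    rcases hcase t ht with h1 | h1
    · simp [cut_of_le h1.1]
    · simp [cut_of_ge h1.1]
  · have h1 : a - cfc cut a = cfc (fun t : ℝ => t - cut t) a := by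
      rw [cfc_sub (fun t : ℝ => t) cut a continuousOn_id continuous_cut.continuousOn,
        cfc_id' ℝ a]
    rw [h1]
    apply norm_cfc_le (by norm_num)
    intro t ht
    rw [Real.norm_eq_abs, abs_le]
    rcases hcase t ht with h1 | h1
    · rw [cut_of_le h1.1]; constructor <;> linarith [h1.1, h1.2]
    · rw [cut_of_ge h1.1]; constructor <;> linarith [h1.1, h1.2]

open CStarLim in
theorem exists_proj_lim {A : ℕ → Type} [∀ n, CStarAlgebra (A n)] {s : IndSys A} {p : s.Lim}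
    (hp : IsStarProjection p) (hp0 : p ≠ 0) : ∃ (n : ℕ) (e : A n) (u : s.Lim),
      IsStarProjection e ∧ e ≠ 0 ∧ u ∈ unitary s.Lim ∧ u * p * star u = s.ι n e := by
  have hpn : ‖p‖ = 1 := by
    have h1 : ‖p‖ * ‖p‖ = ‖p‖ := by
      rw [← CStarRing.norm_star_mul_self (x := p), hp.isSelfAdjoint.star_eq,
        hp.isIdempotentElem.eq]
    have h2 : ‖p‖ ≠ 0 := norm_ne_zero_iff.2 hp0
    exact mul_right_cancel₀ h2 (h1.trans (one_mul _).symm)
  obtain ⟨n, -, a₀, ha₀⟩ := IndSys.exists_ι_norm_sub_lt p (by norm_num : (0 : ℝ) < 1 / 100) 0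
  set a : A n := (realPart a₀ : A n) with ha
  have has : IsSelfAdjoint a := (realPart a₀).2
  have hca : ‖p - s.ι n a‖ ≤ 1 / 100 := by
    have h1 : s.ι n a = (realPart (s.ι n a₀) : s.Lim) := by
      rw [ha, realPart_apply_coe, realPart_apply_coe, ← map_star, ← map_add]
      have h3 : ((2⁻¹ : ℝ) • (a₀ + star a₀)) = ((2⁻¹ : ℝ) : ℂ) • (a₀ + star a₀) :=
        (Complex.coe_smul _ _).symm
      have h4 : ((2⁻¹ : ℝ) • (s.ι n (a₀ + star a₀))) = ((2⁻¹ : ℝ) : ℂ) • s.ι n (a₀ + star a₀) :=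
        (Complex.coe_smul _ _).symm
      rw [h3, h4, map_smul]
    have h2 : p = (realPart p : s.Lim) := (hp.isSelfAdjoint.coe_realPart).symm
    have h3 : p - s.ι n a = (realPart (p - s.ι n a₀) : s.Lim) := by
      rw [map_sub, AddSubgroupClass.coe_sub, ← h2, ← h1]
    rw [h3]
    exact (realPart.norm_le _).trans ha₀.le
  have hn : ‖s.ι n a‖ ≤ 1 + 1 / 100 := by
    calc ‖s.ι n a‖ = ‖p - (p - s.ι n a)‖ := by rw [sub_sub_cancel]
      _ ≤ ‖p‖ + ‖p - s.ι n a‖ := norm_sub_le _ _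
      _ ≤ 1 + 1 / 100 := by rw [hpn]; linarith
  have hsq : ‖a * a - a‖ ≤ 1 / 8 := by
    rw [← IndSys.norm_ι (s := s), map_sub, map_mul]
    set b := s.ι n a with hb
    have h1 : b * b - b = (p - b) - (b * (p - b) + (p - b) * p) := by
      have := hp.isIdempotentElem.eq
      rw [mul_sub, sub_mul, this]; abel
    rw [h1]
    calc ‖(p - b) - (b * (p - b) + (p - b) * p)‖
        ≤ ‖p - b‖ + ‖b * (p - b) + (p - b) * p‖ := norm_sub_le _ _
      _ ≤ ‖p - b‖ + (‖b‖ * ‖p - b‖ + ‖p - b‖ * ‖p‖) := by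
          gcongr
          exact (norm_add_le _ _).trans (add_le_add (norm_mul_le _ _) (norm_mul_le _ _))
      _ ≤ 1 / 100 + ((1 + 1 / 100) * (1 / 100) + 1 / 100 * 1) := by
          rw [hpn]; gcongr
      _ ≤ 1 / 8 := by norm_num
  obtain ⟨e, he, hae⟩ := exists_near has hsq
  have hpe : ‖p - s.ι n e‖ < 1 := by
    calc ‖p - s.ι n e‖ = ‖(p - s.ι n a) + s.ι n (a - e)‖ := by rw [map_sub]; congr 1; abel
      _ ≤ ‖p - s.ι n a‖ + ‖s.ι n (a - e)‖ := norm_add_le _ _
      _ ≤ 1 / 100 + 3 / 8 := by rw [IndSys.norm_ι (s := s)]; gcongr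
      _ < 1 := by norm_num
  have he' : IsStarProjection (s.ι n e) := he.map (s.ι n)
  obtain ⟨u, hu, huu⟩ := exists_unitary_of_norm_lt hp he' hpe
  refine ⟨n, e, u, he, ?_, hu, huu⟩
  rintro rfl
  rw [map_zero, sub_zero, hpn] at hpe
  exact lt_irrefl _ hpe

end Pool.Agent.Lib.Ell
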