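import Mathlib

set_option autoImplicit false

/-!
MODULE Ell.Sep (pure C*-algebra theory, no dependence on other files).

(1) `one_le_of_infinite`: in a simple unital C*-algebra the unit is Murray-von Neumann below every
  infinite projection.
PROOF.  w* w = q, q w = w, w w* ≠ q.  So w q = w, and e = q - w w* ≠ 0 is a projection with
  e ≤ q, e w = 0.  The elements w^n e (n ≥ 0) have (w^m e)^*(w^n e) = 0 for m ≠ n and = e for
  m = n. By simplicity ∑ z_i^* e z_i = 1 for a finite family z_i, and r = ∑ w^i e z_i satisfies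
  r* q r = 1.
(2) `exists_separable`: Loewenheim-Skolem.
PROOF.  A countable set S ⊆ A which contains b, v and a dense set of scalars, closed under
  x + y, x * y, star x and countably many witnesses:
  * for d: the cutoff g of star d * d and, if g ≠ 0, a finite family with ∑ z_i^* g^2 z_i = 1;
  * for d: a contraction r with ‖star r * d * r - 1‖ < 1/2, if there is one.
  The closure of S has the required properties.
-/

open Filter Topology
open scoped Pointwise

namespace Pool.Agent.Lib.Ell

section Order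

variable {A : Type*} [CStarAlgebra A] [PartialOrder A] [StarOrderedRing A]

lemma exists_normalize {t : A} (h0 : 0 ≤ t) (hu : IsUnit t) :
    ∃ s : A, star s = s ∧ s * t * s = 1 := by
  refine ⟨t ^ (-(1/2) : ℝ), (IsSelfAdjoint.of_nonneg CFC.rpow_nonneg).star_eq, ?_⟩
  have h1 : t ^ (-(1/2):ℝ) * t * t^(-(1/2):ℝ) = t ^ ((-(1/2) + 1) + -(1/2) : ℝ) := by
    rw [CFC.rpow_add hu, CFC.rpow_add hu, CFC.rpow_one t]
  rw [h1]
  have : ((-(1/2) + 1) + -(1/2) : ℝ) = 0 := by norm_num
  rw [this, CFC.rpow_zero t]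

lemma sum_star_mul_sum_le {ι : Type*} [Fintype ι] (u : ι → A) :
    star (∑ i, u i) * ∑ i, u i ≤ (Fintype.card ι : ℝ) • ∑ i, star (u i) * u i := by
  have key : (2:ℝ) • ((Fintype.card ι : ℝ) • ∑ i, star (u i) * u i -
      star (∑ i, u i) * ∑ i, u i) = ∑ i, ∑ j, star (u i - u j) * (u i - u j) := by
    have h1 : ∀ i j, star (u i - u j) * (u i - u j) =
        star (u i) * u i + star (u j) * u j - (star (u i) * u j + star (u j) * u i) := by
      intro i j
      rw [star_sub]
      noncomm_ring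
    simp_rw [h1, Finset.sum_sub_distrib, Finset.sum_add_distrib]
    have h2 : ∑ i, ∑ _j : ι, star (u i) * u i =
        (Fintype.card ι : ℝ) • ∑ i, star (u i) * u i := by
      simp_rw [Finset.sum_const, Finset.card_univ]
      rw [← Finset.smul_sum, Nat.cast_smul_eq_nsmul]
    have h3 : ∑ _i : ι, ∑ j, star (u j) * u j =
        (Fintype.card ι : ℝ) • ∑ i, star (u i) * u i := by
      rw [Finset.sum_const, Finset.card_univ, Nat.cast_smul_eq_nsmul]
    have h4 : ∑ i, ∑ j, star (u i) * u j = star (∑ i, u i) * ∑ i, u i := by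
      rw [star_sum, Finset.sum_mul_sum]
    have h5 : ∑ i, ∑ j, star (u j) * u i = star (∑ i, u i) * ∑ i, u i := by
      rw [star_sum, Finset.sum_mul_sum, Finset.sum_comm]
    rw [h2, h3, h4, h5, smul_sub, two_smul, two_smul]
  have h2 : 0 ≤ (2:ℝ) • ((Fintype.card ι : ℝ) • ∑ i, star (u i) * u i -
      star (∑ i, u i) * ∑ i, u i) := by
    rw [key]
    exact Finset.sum_nonneg fun i _ => Finset.sum_nonneg fun j _ => star_mul_self_nonneg _
  have h3 : 0 ≤ (1/2:ℝ) • ((2:ℝ) • ((Fintype.card ι : ℝ) • ∑ i, star (u i) * u i -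
      star (∑ i, u i) * ∑ i, u i)) := smul_nonneg (by norm_num) h2
  rw [smul_smul, show (1/2:ℝ) * 2 = 1 by norm_num, one_smul] at h3
  exact sub_nonneg.1 h3

lemma isUnit_of_algebraMap_le {δ : ℝ} (hδ : 0 < δ) {z : A} (h : algebraMap ℝ A δ ≤ z) :
    IsUnit z := by
  refine CStarAlgebra.isUnit_of_le (algebraMap ℝ A δ) h ?_
  refine IsStrictlyPositive.of_le ?_ le_rfl
  refine ⟨?_, ?_⟩
  · exact algebraMap_nonneg A (by positivity)
  · exact (IsUnit.mk0 _ (by positivity : (δ : ℝ) ≠ 0)).map (algebraMap ℝ A)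

/-- the key functional calculus facts -/
theorem cutoff_facts (a : A) (ha : IsSelfAdjoint a) :
    ∃ g : A, IsSelfAdjoint g ∧ a ≤ g + algebraMap ℝ A (1 / 2) ∧
      algebraMap ℝ A (3 / 8) * (g * g) ≤ g * (a - algebraMap ℝ A (1 / 8)) * g := by
  refine ⟨cfc (fun t : ℝ => max (t - 1 / 2) 0) a, cfc_predicate _ a, ?_, ?_⟩
  · have h1 : cfc (fun t : ℝ => max (t - 1 / 2) 0) a + algebraMap ℝ A (1 / 2) =
        cfc (fun t : ℝ => max (t - 1 / 2) 0 + 1 / 2) a := by
      rw [cfc_add_const (1 / 2 : ℝ) (fun t : ℝ => max (t - 1 / 2) 0) a]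
    rw [h1]
    conv_lhs => rw [← cfc_id ℝ a ha]
    refine cfc_mono fun t _ => ?_
    simp only [id]
    have := le_max_left (t - 1 / 2) 0
    linarith
  · have h1 : a - algebraMap ℝ A (1 / 8) = cfc (fun t : ℝ => t - 1 / 8) a := by
      rw [cfc_sub (fun t : ℝ => t) (fun _ : ℝ => 1 / 8) a, cfc_id' ℝ a,
        cfc_const (1 / 8 : ℝ) a ha]
    have h2 : algebraMap ℝ A (3 / 8) = cfc (fun _ : ℝ => 3 / 8) a := by
      rw [cfc_const (3 / 8 : ℝ) a ha]
    rw [h1, h2, ← cfc_mul _ _ a, ← cfc_mul _ _ a, ← cfc_mul _ _ a, ← cfc_mul _ _ a]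
    refine cfc_mono fun t _ => ?_
    rcases le_total (t - 1 / 2) 0 with h | h
    · rw [max_eq_right h]
      simp
    · rw [max_eq_left h]
      have h3 : 0 ≤ (t - 1 / 2) * (t - 1 / 2) := mul_nonneg h h
      nlinarith

/-- Simplicity in the form of a sum of squares. -/
theorem exists_sum_eq_one_aux (hs : IsSimpleRing A) {c : A} (hc : c ≠ 0) :
    ∃ (ι : Type) (_ : Fintype ι) (z : ι → A), ∑ i, star (z i) * (star c * c) * z i = 1 := by
  -- the ideal generated by `c`
  have h1 : (1 : A) ∈ TwoSidedIdeal.span {c} := by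
    have hs' := hs.simple
    rcases hs'.eq_bot_or_eq_top (TwoSidedIdeal.span {c}) with h | h
    · exfalso
      apply hc
      have : c ∈ TwoSidedIdeal.span {c} := TwoSidedIdeal.subset_span rfl
      rw [h, TwoSidedIdeal.mem_bot] at this
      exact this
    · rw [h]
      exact trivial
  rw [TwoSidedIdeal.mem_span_iff_mem_addSubgroup_closure] at h1
  have h2 : ∀ z ∈ AddSubgroup.closure ((Set.univ : Set A) * ({c} : Set A) * (Set.univ : Set A)),
      ∃ (ι : Type) (_ : Fintype ι) (x y : ι → A), z = ∑ i, x i * c * y i := by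
    intro z hz
    induction hz using AddSubgroup.closure_induction with
    | mem z hz =>
      obtain ⟨w, ⟨x, -, c', hc', rfl⟩, y, -, rfl⟩ := hz
      rw [Set.mem_singleton_iff] at hc'
      subst hc'
      exact ⟨Unit, inferInstance, fun _ => x, fun _ => y, by simp⟩
    | zero => exact ⟨Empty, inferInstance, fun _ => 0, fun _ => 0, by simp⟩
    | add z w _ _ hz hw =>
      obtain ⟨ι, _, x, y, rfl⟩ := hz
      obtain ⟨κ, _, x', y', rfl⟩ := hw
      refine ⟨ι ⊕ κ, inferInstance, Sum.elim x x', Sum.elim y y', ?_⟩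
      rw [Fintype.sum_sum_type]
      simp
    | neg z _ hz =>
      obtain ⟨ι, _, x, y, rfl⟩ := hz
      refine ⟨ι, inferInstance, fun i => - x i, y, ?_⟩
      simp
  obtain ⟨ι, _, x, y, hxy⟩ := h2 1 h1
  -- the inequality
  set N : ℝ := (Fintype.card ι : ℝ) with hN
  have hN0 : 0 ≤ N := Nat.cast_nonneg _
  set z : ι → A := fun i => (Real.sqrt N * ‖x i‖ : ℝ) • y i with hz
  have hle : (1 : A) ≤ ∑ i, star (z i) * (star c * c) * z i := by
    have h3 := sum_star_mul_sum_le (fun i => x i * c * y i)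
    rw [← hxy, star_one, one_mul] at h3
    refine h3.trans ?_
    rw [Finset.smul_sum]
    refine Finset.sum_le_sum fun i _ => ?_
    have h4 : star (x i * c * y i) * (x i * c * y i) =
        star (c * y i) * (star (x i) * x i) * (c * y i) := by
      simp only [star_mul]
      noncomm_ring
    have h5 : star (c * y i) * (star (x i) * x i) * (c * y i) ≤
        ‖star (x i) * x i‖ • (star (c * y i) * (c * y i)) :=
      CStarAlgebra.star_left_conjugate_le_norm_smul (IsSelfAdjoint.star_mul_self _)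
    rw [h4]
    have h6 : star (z i) * (star c * c) * z i =
        N • (‖star (x i) * x i‖ • (star (c * y i) * (c * y i))) := by
      simp only [hz, star_smul, star_mul, smul_mul_assoc, mul_smul_comm, smul_smul,
        CStarRing.norm_star_mul_self, star_trivial]
      congr 1
      · nlinarith [Real.mul_self_sqrt hN0]
      · noncomm_ring
    rw [h6]
    exact smul_le_smul_of_nonneg_left h5 hN0
  have hu : IsUnit (∑ i, star (z i) * (star c * c) * z i) := by
    apply isUnit_of_algebraMap_le one_pos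
    rw [map_one]
    exact hle
  have h0 : 0 ≤ ∑ i, star (z i) * (star c * c) * z i := zero_le_one.trans hle
  obtain ⟨s, hs1, hs2⟩ := exists_normalize h0 hu
  refine ⟨ι, inferInstance, fun i => z i * s, ?_⟩
  rw [← hs2, Finset.mul_sum, Finset.sum_mul]
  refine Finset.sum_congr rfl fun i _ => ?_
  rw [star_mul, hs1]
  noncomm_ring

end Order

/-- Simplicity in the form of a sum of squares. -/
theorem exists_sum_eq_one {A : Type*} [CStarAlgebra A] (hs : IsSimpleRing A) {c : A}
    (hc : c ≠ 0) :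
    ∃ (ι : Type) (_ : Fintype ι) (z : ι → A), ∑ i, star (z i) * (star c * c) * z i = 1 := by
  let _ : PartialOrder A := CStarAlgebra.spectralOrder A
  have := CStarAlgebra.spectralOrderedRing A
  exact exists_sum_eq_one_aux hs hc

theorem one_le_of_infinite {A : Type} [CStarAlgebra A] (hs : IsSimpleRing A) {q w : A}
    (hq : IsStarProjection q) (hw : star w * w = q) (hqw : q * w = w) (hne : w * star w ≠ q) :
    ∃ r : A, star r * q * r = 1 := by
  have hqs : star q = q := hq.isSelfAdjoint.star_eq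
  have hqq : q * q = q := hq.isIdempotentElem
  have hwq : w * q = w := by
    have h1 : star (w * q - w) * (w * q - w) = 0 := by
      rw [star_sub, star_mul, hqs]
      have : (q * star w - star w) * (w * q - w) =
          q * (star w * w) * q - q * (star w * w) - (star w * w) * q + star w * w := by
        noncomm_ring
      rw [this, hw, hqq, hqq]
      simp
    have h2 := CStarRing.star_mul_self_eq_zero_iff (w * q - w) |>.1 h1
    exact sub_eq_zero.1 h2
  have hwsq : star w * q = star w := by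
    have := congrArg star hqw
    rwa [star_mul, hqs] at this
  set e : A := q - w * star w with he
  have he0 : e ≠ 0 := fun h => hne (sub_eq_zero.1 h).symm
  have hes : star e = e := by
    rw [he, star_sub, star_mul, star_star, hqs]
  have hqe : q * e = e := by
    rw [he, mul_sub, hqq, ← mul_assoc, hqw]
  have heq : e * q = e := by
    rw [he, sub_mul, hqq, mul_assoc, hwsq]
  have hew : e * w = 0 := by
    rw [he, sub_mul, hqw, mul_assoc, hw, hwq, sub_self]
  have hee : e * e = e := by
    nth_rewrite 2 [he]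
    rw [mul_sub, heq, ← mul_assoc, hew, zero_mul, sub_zero]
  -- the orthogonality relations
  have hqwj : ∀ j, 1 ≤ j → q * w ^ j = w ^ j := by
    intro j hj
    obtain ⟨j, rfl⟩ : ∃ k, j = k + 1 := ⟨j - 1, by omega⟩
    rw [pow_succ', ← mul_assoc, hqw]
  have hqwe : ∀ j, q * (w ^ j * e) = w ^ j * e := by
    intro j
    rcases Nat.eq_zero_or_pos j with rfl | hj
    · rw [pow_zero, one_mul, hqe]
    · rw [← mul_assoc, hqwj j hj]
  have horth : ∀ i j, e * (star w ^ i * (w ^ j * e)) = if i = j then e else 0 := by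
    intro i
    induction i with
    | zero =>
      intro j
      rcases Nat.eq_zero_or_pos j with rfl | hj
      · simp [hee]
      · rw [if_neg (by omega), pow_zero, one_mul]
        obtain ⟨j, rfl⟩ : ∃ k, j = k + 1 := ⟨j - 1, by omega⟩
        rw [pow_succ', mul_assoc, ← mul_assoc, hew, zero_mul]
    | succ i ih =>
      intro j
      rcases Nat.eq_zero_or_pos j with rfl | hj
      · rw [if_neg (by omega), pow_zero, one_mul, pow_succ]
        have : star w * e = 0 := by
          have := congrArg star hew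
          rwa [star_mul, hes, star_zero] at this
        rw [mul_assoc (star w ^ i), this]
        simp
      · obtain ⟨j, rfl⟩ : ∃ k, j = k + 1 := ⟨j - 1, by omega⟩
        have h1 : star w ^ (i+1) * (w ^ (j+1) * e) = star w ^ i * (w ^ j * e) := by
          rw [pow_succ, pow_succ', mul_assoc, ← mul_assoc (star w), ← mul_assoc (star w), hw,
            mul_assoc q, hqwe]
        rw [h1, ih j]
        simp
  obtain ⟨ι, _, z, hz⟩ := exists_sum_eq_one hs he0
  rw [hes, hee] at hz
  -- enumerate the index set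
  let φ := Fintype.equivFin ι
  refine ⟨∑ i, w ^ (φ i : ℕ) * e * z i, ?_⟩
  have h1 : q * ∑ i, w ^ (φ i : ℕ) * e * z i = ∑ i, w ^ (φ i : ℕ) * e * z i := by
    rw [Finset.mul_sum]
    refine Finset.sum_congr rfl fun i _ => ?_
    rw [← mul_assoc, hqwe]
  rw [mul_assoc, h1, star_sum, Finset.sum_mul_sum, ← hz]
  refine Finset.sum_congr rfl fun i _ => ?_
  rw [Finset.sum_eq_single i]
  · have := horth (φ i) (φ i)
    rw [if_pos rfl] at this
    calc star (w ^ (φ i : ℕ) * e * z i) * (w ^ (φ i : ℕ) * e * z i)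
        = star (z i) * (e * (star w ^ (φ i : ℕ) * (w ^ (φ i : ℕ) * e))) * z i := by
          simp only [star_mul, star_pow, hes]
          noncomm_ring
      _ = _ := by rw [this]
  · intro j _ hj
    have hne' : ((φ i : ℕ)) ≠ (φ j : ℕ) := by
      intro h
      exact hj (φ.injective (Fin.ext h)).symm
    have := horth (φ i) (φ j)
    rw [if_neg hne'] at this
    calc star (w ^ (φ i : ℕ) * e * z i) * (w ^ (φ j : ℕ) * e * z j)
        = star (z i) * (e * (star w ^ (φ i : ℕ) * (w ^ (φ j : ℕ) * e))) * z j := by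
          simp only [star_mul, star_pow, hes]
          noncomm_ring
      _ = 0 := by rw [this]; simp
  · intro h
    exact absurd (Finset.mem_univ i) h

/-- Closing off a countable set under countably many binary operations. -/
lemma exists_countable_closed {A : Type*} (S0 : Set A) (h0 : S0.Countable) (G : A → A → Set A)
    (hG : ∀ x y, (G x y).Countable) :
    ∃ S : Set A, S0 ⊆ S ∧ S.Countable ∧ ∀ x ∈ S, ∀ y ∈ S, G x y ⊆ S := by
  let T : Set A → Set A := fun S => S ∪ ⋃ x ∈ S, ⋃ y ∈ S, G x y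
  let F : ℕ → Set A := fun n => T^[n] S0
  have hF0 : F 0 = S0 := rfl
  have hFs : ∀ n, F (n+1) = F n ∪ ⋃ x ∈ F n, ⋃ y ∈ F n, G x y := by
    intro n
    simp only [F, Function.iterate_succ_apply']
    rfl
  have hF : ∀ n, (F n).Countable := by
    intro n
    induction n with
    | zero => exact h0
    | succ n ih =>
      rw [hFs]
      exact ih.union (ih.biUnion fun x _ => ih.biUnion fun y _ => hG x y)
  have hmono : Monotone F := monotone_nat_of_le_succ fun n => by
    rw [hFs]
    exact Set.subset_union_left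
  refine ⟨⋃ n, F n, Set.subset_iUnion F 0, Set.countable_iUnion hF, ?_⟩
  intro x hx y hy
  obtain ⟨n, hn⟩ := Set.mem_iUnion.1 hx
  obtain ⟨m, hm⟩ := Set.mem_iUnion.1 hy
  have hx' : x ∈ F (max n m) := hmono (le_max_left _ _) hn
  have hy' : y ∈ F (max n m) := hmono (le_max_right _ _) hm
  refine Set.Subset.trans ?_ (Set.subset_iUnion F (max n m + 1))
  rw [hFs]
  refine Set.Subset.trans ?_ Set.subset_union_right
  intro z hz
  simp only [Set.mem_iUnion]
  exact ⟨x, hx', y, hy', hz⟩

/-- The closed star subalgebra with a given dense subset. -/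
def closureSub {A : Type} [CStarAlgebra A] (S : Set A) (hadd : ∀ x ∈ S, ∀ y ∈ S, x + y ∈ S)
    (hmul : ∀ x ∈ S, ∀ y ∈ S, x * y ∈ S) (hstar : ∀ x ∈ S, star x ∈ S) (D : Set ℂ)
    (hD : Dense D) (hDS : ∀ c ∈ D, algebraMap ℂ A c ∈ S) : StarSubalgebra ℂ A where
  carrier := closure S
  mul_mem' := fun hx hy => map_mem_closure₂ continuous_mul hx hy fun a ha b hb => hmul a ha b hb
  add_mem' := fun hx hy => map_mem_closure₂ continuous_add hx hy fun a ha b hb => hadd a ha b hb
  algebraMap_mem' := fun c =>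
    map_mem_closure (continuous_algebraMap ℂ A) (hD c) fun a ha => hDS a ha
  star_mem' := fun hx => map_mem_closure continuous_star hx fun a ha => hstar a ha

theorem exists_separable {A : Type} [CStarAlgebra A] (hs : IsSimpleRing A)
    (hp : ∀ p : A, IsStarProjection p → p ≠ 0 → ∃ r : A, star r * p * r = 1)
    (v : A) (hv : star v * v = 1) (hv' : v * star v ≠ 1)
    (b : A) (hb : b ≠ 0) (hnd : ∀ r : A, 1 / 2 ≤ ‖star r * (star b * b) * r - 1‖) :
    ∃ (A0 : Type) (_ : CStarAlgebra A0), TopologicalSpace.SeparableSpace A0 ∧ IsSimpleRing A0 ∧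
      (∀ p : A0, IsStarProjection p → p ≠ 0 → ∃ r : A0, star r * p * r = 1) ∧
      (∃ v : A0, star v * v = 1 ∧ v * star v ≠ 1) ∧
      ∃ b : A0, b ≠ 0 ∧ ∀ r : A0, 1 / 2 ≤ ‖star r * (star b * b) * r - 1‖ := by
  let _ : PartialOrder A := CStarAlgebra.spectralOrder A
  have := CStarAlgebra.spectralOrderedRing A
  have hnt : Nontrivial A := ⟨b, 0, hb⟩
  -- witnesses
  have hW1 : ∀ d : A, ∃ W : Set A, W.Countable ∧ ∃ g ∈ W, IsSelfAdjoint g ∧
      star d * d ≤ g + algebraMap ℝ A (1 / 2) ∧
      algebraMap ℝ A (3 / 8) * (g * g) ≤ g * (star d * d - algebraMap ℝ A (1 / 8)) * g ∧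
      (g ≠ 0 → ∃ (ι : Type) (_ : Fintype ι) (z : ι → A), (∀ i, z i ∈ W) ∧
        ∑ i, star (z i) * (g * g) * z i = 1) := by
    intro d
    obtain ⟨g, hg1, hg2, hg3⟩ := cutoff_facts (star d * d) (IsSelfAdjoint.star_mul_self d)
    by_cases hg : g = 0
    · exact ⟨{g}, Set.countable_singleton g, g, rfl, hg1, hg2, hg3, fun h => absurd hg h⟩
    · obtain ⟨ι, hι, z, hz⟩ := exists_sum_eq_one hs hg
      refine ⟨insert g (Set.range z), (Set.countable_range z).insert g, g,
        Set.mem_insert _ _, hg1, hg2, hg3, fun _ => ⟨ι, hι, z, fun i =>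
          Set.mem_insert_of_mem _ (Set.mem_range_self i), ?_⟩⟩
      rw [hg1.star_eq] at hz
      exact hz
  have hW2 : ∀ d : A, ∃ W : Set A, W.Countable ∧
      ((∃ r : A, ‖r‖ ≤ 1 ∧ ‖star r * d * r - 1‖ < 1 / 2) →
        ∃ r ∈ W, ‖r‖ ≤ 1 ∧ ‖star r * d * r - 1‖ < 1 / 2) := by
    intro d
    by_cases h : ∃ r : A, ‖r‖ ≤ 1 ∧ ‖star r * d * r - 1‖ < 1 / 2
    · obtain ⟨r, hr⟩ := h
      exact ⟨{r}, Set.countable_singleton r, fun _ => ⟨r, rfl, hr⟩⟩
    · exact ⟨∅, Set.countable_empty, fun h' => absurd h' h⟩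
  choose W1 hW1c hW1 using hW1
  choose W2 hW2c hW2 using hW2
  obtain ⟨D, hDc, hDd⟩ := TopologicalSpace.exists_countable_dense ℂ
  obtain ⟨S, hS0, hSc, hSG⟩ := exists_countable_closed
    ({b, v} ∪ (algebraMap ℂ A) '' D)
    (((Set.countable_singleton v).insert b).union (hDc.image _))
    (fun x y => {x + y, x * y, star x} ∪ (W1 x ∪ W2 x))
    (fun x y => ((Set.toFinite _).countable).union ((hW1c x).union (hW2c x)))
  have hadd : ∀ x ∈ S, ∀ y ∈ S, x + y ∈ S := fun x hx y hy =>
    hSG x hx y hy (Or.inl (by simp))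
  have hmul : ∀ x ∈ S, ∀ y ∈ S, x * y ∈ S := fun x hx y hy =>
    hSG x hx y hy (Or.inl (by simp))
  have hstar : ∀ x ∈ S, star x ∈ S := fun x hx =>
    hSG x hx x hx (Or.inl (by simp))
  have hSW1 : ∀ x ∈ S, W1 x ⊆ S := fun x hx y hy => hSG x hx x hx (Or.inr (Or.inl hy))
  have hSW2 : ∀ x ∈ S, W2 x ⊆ S := fun x hx y hy => hSG x hx x hx (Or.inr (Or.inr hy))
  let B : StarSubalgebra ℂ A := closureSub S hadd hmul hstar D hDd
    (fun c hc => hS0 (Or.inr ⟨c, hc, rfl⟩))
  have hBcl : IsClosed (B : Set A) := isClosed_closure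
  have hBmem : ∀ x, x ∈ B ↔ x ∈ closure S := fun x => Iff.rfl
  have hSB : ∀ x ∈ S, x ∈ B := fun x hx => subset_closure hx
  refine ⟨B, StarSubalgebra.cstarAlgebra B, ?_, ?_, ?_, ?_, ?_⟩
  · -- separable
    have h1 : TopologicalSpace.IsSeparable (B : Set A) := (hSc.isSeparable).closure
    exact h1.separableSpace
  · -- simple
    have hntB : Nontrivial B := ⟨⟨⟨b, hSB b (hS0 (Or.inl (by simp)))⟩, 0, fun h =>
      hb (congrArg Subtype.val h)⟩⟩
    refine ⟨{ toNontrivial := inferInstance, eq_bot_or_eq_top := fun I => ?_ }⟩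
    by_cases hI : I = ⊥
    · exact Or.inl hI
    right
    obtain ⟨y, hyI, hy0⟩ : ∃ y ∈ I, y ≠ 0 := by
      by_contra hcon
      push Not at hcon
      apply hI
      refine le_antisymm (fun x hx => ?_) bot_le
      rw [TwoSidedIdeal.mem_bot]
      exact hcon x hx
    have hny : 0 < ‖(y : A)‖ := norm_pos_iff.2 (fun h => hy0 (Subtype.ext h))
    -- normalise
    set y' : B := ((‖(y : A)‖⁻¹ : ℝ) : ℂ) • y with hy'
    have hy'I : y' ∈ I := by
      have : y' = (((‖(y : A)‖⁻¹ : ℝ) : ℂ) • (1 : B)) * y := by rw [hy', smul_one_mul]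
      rw [this]
      exact I.mul_mem_left _ _ hyI
    have hy'n : ‖(y' : A)‖ = 1 := by
      have : (y' : A) = ((‖(y : A)‖⁻¹ : ℝ) : ℂ) • (y : A) := rfl
      rw [this, norm_smul, Complex.norm_real, Real.norm_of_nonneg (by positivity)]
      field_simp
    set c : A := star (y' : A) * (y' : A) with hc
    have hc0 : 0 ≤ c := star_mul_self_nonneg _
    have hcn : ‖c‖ = 1 := by rw [hc, CStarRing.norm_star_mul_self, hy'n, one_mul]
    have hcs : IsSelfAdjoint c := IsSelfAdjoint.of_nonneg hc0
    obtain ⟨d, hd, hdS⟩ : ∃ d, ‖c - star d * d‖ < 1 / 8 ∧ d ∈ S := by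
      have hmem : (y' : A) ∈ closure S := (hBmem _).1 y'.2
      have hopen : IsOpen {x : A | ‖c - star x * x‖ < 1 / 8} :=
        isOpen_lt (by fun_prop) continuous_const
      obtain ⟨d, hd1, hd2⟩ := mem_closure_iff.1 hmem _ hopen (by simp [hc])
      exact ⟨d, hd1, hd2⟩
    obtain ⟨g, hgW, hgs, hg1, hg2, hg3⟩ := hW1 d
    have hgS : g ∈ S := hSW1 d hdS hgW
    have hsa : IsSelfAdjoint (c - star d * d) := hcs.sub (IsSelfAdjoint.star_mul_self d)
    have h8 : c ≤ star d * d + algebraMap ℝ A (1 / 8) := by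
      have h1 := hsa.le_algebraMap_norm_self
      have h2 : algebraMap ℝ A ‖c - star d * d‖ ≤ algebraMap ℝ A (1 / 8) :=
        algebraMap_mono A hd.le
      have h3 := h1.trans h2
      rwa [sub_le_iff_le_add'] at h3
    have h8' : star d * d - algebraMap ℝ A (1 / 8) ≤ c := by
      have h1 := hsa.neg_algebraMap_norm_le_self
      have h2 : algebraMap ℝ A ‖c - star d * d‖ ≤ algebraMap ℝ A (1 / 8) :=
        algebraMap_mono A hd.le
      have h3 := (neg_le_neg h2).trans h1
      rw [neg_le_sub_iff_le_add] at h3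
      rw [sub_le_iff_le_add]
      exact h3
    have hg0 : g ≠ 0 := by
      rintro rfl
      rw [zero_add] at hg1
      have h2 : c ≤ algebraMap ℝ A (5 / 8) := by
        refine h8.trans ?_
        have h3 : algebraMap ℝ A (5 / 8) = algebraMap ℝ A (1 / 2) +
            algebraMap ℝ A (1 / 8) := by
          rw [← map_add]; norm_num
        rw [h3]
        gcongr
      have h4 := (CStarAlgebra.norm_le_iff_le_algebraMap c (by norm_num : (0 : ℝ) ≤ 5 / 8) hc0).2 h2
      rw [hcn] at h4
      norm_num at h4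
    obtain ⟨ι, _, z, hzW, hz⟩ := hg3 hg0
    have hzS : ∀ i, z i ∈ B := fun i => hSB _ (hSW1 d hdS (hzW i))
    -- the invertible element of the ideal
    let g' : B := ⟨g, hSB g hgS⟩
    let z' : ι → B := fun i => ⟨z i, hzS i⟩
    set u : B := ∑ i, star (z' i) * (g' * (star y' * y') * g') * z' i with hu
    have huI : u ∈ I := by
      refine sum_mem fun i _ => ?_
      refine I.mul_mem_right _ _ (I.mul_mem_left _ _ ?_)
      exact I.mul_mem_right _ _ (I.mul_mem_left _ _ (I.mul_mem_left _ _ hy'I))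
    have huA : (u : A) = ∑ i, star (z i) * (g * c * g) * z i := by
      rw [hu]
      push_cast
      rfl
    have h9 : algebraMap ℝ A (3 / 8) * (g * g) ≤ g * c * g := by
      have h2 := star_left_conjugate_le_conjugate h8' g
      rw [hgs.star_eq] at h2
      exact hg2.trans h2
    have h10 : algebraMap ℝ A (3 / 8) ≤ (u : A) := by
      have h1 : algebraMap ℝ A (3 / 8) = ∑ i, star (z i) * (algebraMap ℝ A (3 / 8) * (g * g)) *
          z i := by
        have h11 : algebraMap ℝ A (3 / 8) =
            algebraMap ℝ A (3 / 8) * ∑ i, star (z i) * (g * g) * z i := by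
          rw [hz, mul_one]
        rw [Finset.mul_sum] at h11
        refine h11.trans (Finset.sum_congr rfl fun i _ => ?_)
        rw [← mul_assoc, ← mul_assoc, Algebra.commutes (3 / 8 : ℝ) (star (z i)), mul_assoc (star (z i))]
      rw [huA, h1]
      refine Finset.sum_le_sum fun i _ => ?_
      exact star_left_conjugate_le_conjugate h9 (z i)
    have hunitA : IsUnit (u : A) := isUnit_of_algebraMap_le (by norm_num) h10
    have hunit : IsUnit u := (StarSubalgebra.coe_isUnit B (hS := hBcl)).1 hunitA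
    obtain ⟨w, hw⟩ := hunit
    rw [← TwoSidedIdeal.one_mem_iff]
    have : (1 : B) = ↑w⁻¹ * u := by rw [← hw, Units.inv_mul]
    rw [this]
    exact I.mul_mem_left _ _ huI
  · -- projections
    intro p hpp hp0
    have hpA : IsStarProjection (p : A) :=
      ⟨congrArg Subtype.val hpp.isIdempotentElem, congrArg Subtype.val hpp.isSelfAdjoint⟩
    have hpA0 : (p : A) ≠ 0 := fun h => hp0 (Subtype.ext h)
    obtain ⟨r, hr⟩ := hp p hpA hpA0
    have hps : star (p : A) = p := hpA.isSelfAdjoint.star_eq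
    have hpI : (p : A) * p = p := hpA.isIdempotentElem
    have hr1 : star ((p : A) * r) * ((p : A) * r) = 1 := by
      rw [star_mul, hps, mul_assoc, ← mul_assoc (p : A), hpI, ← mul_assoc, hr]
    have hrn : ‖(p : A) * r‖ = 1 := by
      have h1 := CStarRing.norm_star_mul_self (x := (p : A) * r)
      rw [hr1, CStarRing.norm_one] at h1
      nlinarith [norm_nonneg ((p : A) * r)]
    have hr2 : star ((p : A) * r) * (p : A) * ((p : A) * r) = 1 := by
      rw [mul_assoc, ← mul_assoc (p : A), hpI, hr1]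
    obtain ⟨d, hd, hdS⟩ : ∃ d, ‖d - (p : A)‖ < 1 / 4 ∧ d ∈ S := by
      have hmem : (p : A) ∈ closure S := (hBmem _).1 p.2
      obtain ⟨d, hd1, hd2⟩ := Metric.mem_closure_iff.1 hmem (1 / 4) (by norm_num)
      refine ⟨d, ?_, hd1⟩
      rw [dist_comm, dist_eq_norm] at hd2
      exact hd2
    have hb1 : ‖star ((p : A) * r) * d * ((p : A) * r) - 1‖ < 1 / 2 := by
      have h1 : star ((p : A) * r) * d * ((p : A) * r) - 1 =
          star ((p : A) * r) * (d - (p : A)) * ((p : A) * r) := by
        rw [mul_sub, sub_mul, hr2]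
      rw [h1]
      calc ‖star ((p : A) * r) * (d - (p : A)) * ((p : A) * r)‖
          ≤ ‖star ((p : A) * r) * (d - (p : A))‖ * ‖(p : A) * r‖ := norm_mul_le _ _
        _ ≤ ‖star ((p : A) * r)‖ * ‖d - (p : A)‖ * ‖(p : A) * r‖ := by
            gcongr
            exact norm_mul_le _ _
        _ = ‖d - (p : A)‖ := by rw [norm_star, hrn]; ring
        _ < 1 / 2 := by linarith
    obtain ⟨r', hr'W, hr'n, hr'd⟩ := hW2 d ⟨_, hrn.le, hb1⟩
    have hr'B : r' ∈ B := hSB _ (hSW2 d hdS hr'W)
    let x : B := ⟨r', hr'B⟩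
    have hb2 : ‖star x * p * x - 1‖ < 1 := by
      have h1 : ((star x * p * x - 1 : B) : A) = (star r' * d * r' - 1) +
          star r' * ((p : A) - d) * r' := by
        have h0 : ((star x * p * x - 1 : B) : A) = star r' * (p : A) * r' - 1 := rfl
        rw [h0]
        noncomm_ring
      have h2 : ‖((star x * p * x - 1 : B) : A)‖ < 1 := by
        rw [h1]
        refine (norm_add_le _ _).trans_lt ?_
        have h3 : ‖star r' * ((p : A) - d) * r'‖ ≤ 1 / 4 := by
          calc ‖star r' * ((p : A) - d) * r'‖ ≤ ‖star r' * ((p : A) - d)‖ * ‖r'‖ :=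
                norm_mul_le _ _
            _ ≤ ‖star r'‖ * ‖(p : A) - d‖ * ‖r'‖ := by
                gcongr
                exact norm_mul_le _ _
            _ ≤ 1 * (1 / 4) * 1 := by
                rw [norm_star, norm_sub_rev]
                gcongr
            _ = 1 / 4 := by ring
        linarith
      exact h2
    have hunit : IsUnit (star x * p * x) := by
      have h1 : ‖1 - star x * p * x‖ < 1 := by rw [norm_sub_rev]; exact hb2
      have h2 := isUnit_one_sub_of_norm_lt_one h1
      rwa [sub_sub_cancel] at h2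
    have hpos : ∃ s : B, star s = s ∧ s * (star x * p * x) * s = 1 := by
      let _ : PartialOrder B := CStarAlgebra.spectralOrder B
      have := CStarAlgebra.spectralOrderedRing B
      apply exists_normalize _ hunit
      have h1 : star x * p * x = star (p * x) * (p * x) := by
        rw [star_mul, hpp.isSelfAdjoint.star_eq, mul_assoc, mul_assoc, ← mul_assoc p,
          hpp.isIdempotentElem]
      rw [h1]
      exact star_mul_self_nonneg _
    obtain ⟨s, hs1, hs2⟩ := hpos
    refine ⟨x * s, ?_⟩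
    rw [← hs2, star_mul, hs1]
    noncomm_ring
  · -- the isometry
    refine ⟨⟨v, hSB v (hS0 (Or.inl (by simp)))⟩, Subtype.ext hv, fun h => hv' ?_⟩
    exact congrArg Subtype.val h
  · refine ⟨⟨b, hSB b (hS0 (Or.inl (by simp)))⟩, fun h => hb (congrArg Subtype.val h), ?_⟩
    intro r
    exact hnd (r : A)

end Pool.Agent.Lib.Ell
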