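import Pool.Agent.Lib.Ell.Full
import Pool.Agent.Lib.Ell.Base
import Pool.Agent.Lib.Ell.Class
import Pool.Agent.Lib.Ell.Corner
import Pool.Agent.Lib.Ell.Sep
import Pool.Agent.Lib.Ell.Near

set_option autoImplicit false

/-!
The inductive limit and its properties.
-/

open scoped InnerProductSpace BoundedContinuousFunction unitInterval
open CStarLim

namespace Pool.Agent.Lib.Ell

open Pool.Agent.Lib.P81d4f5 (S3)

/-- the smallest projection -/
noncomputable def q0 : II := exists_q.choose

theorem q0_proj : IsStarProjection q0 := exists_q.choose_spec.1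

theorem q0_zero (x : XX) : (q0.at' 0).fn x = V ee * star (V ee) := exists_q.choose_spec.2.1 x

theorem exists_v {p : II} (hp : IsStarProjection p) (hp0 : p ≠ 0) :
    ∃ v : II, star v * v = q0 ∧ p * v = v ∧ v * star v ≠ p := exists_q.choose_spec.2.2 p hp hp0

theorem q0_ne : q0 ≠ 0 := by
  intro h
  have h1 := q0_zero (fun _ => ee)
  rw [h] at h1
  have h2 : star (V ee) * (V ee * star (V ee)) * V ee = 1 := by
    have : star (V ee) * (V ee * star (V ee)) * V ee = (star (V ee) * V ee) * (star (V ee) * V ee) := by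
      simp only [mul_assoc]
    rw [this, star_V_mul_V, one_mul]
  rw [← h1] at h2
  simp only [II.at'_zero, BB.fn_zero, mul_zero, zero_mul] at h2
  exact zero_ne_one h2

/-- the units of the building blocks -/
noncomputable def qs : ℕ → II
  | 0 => q0
  | k + 1 => Phi k (qs k)

theorem qs_proj : ∀ k, IsStarProjection (qs k)
  | 0 => q0_proj
  | k + 1 => (qs_proj k).map (Phi k)

theorem qs_ne : ∀ k, qs k ≠ 0
  | 0 => q0_ne
  | k + 1 => by
    intro h
    apply qs_ne k
    apply Phi_injective k
    rw [map_zero]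
    exact h

/-- the building blocks -/
abbrev E (k : ℕ) : Type := Corner (qs k) (qs_proj k)

/-- the inductive system -/
noncomputable def sys : IndSys E where
  map k := Corner.map (Phi k) (qs k) (qs_proj k) (qs_proj (k + 1))
  inj k := Corner.map_injective (Phi k) (Phi_injective k) (qs k) (qs_proj k) (qs_proj (k + 1))

theorem val_sys_map (k : ℕ) (x : E k) : (sys.map k x).val = Phi k x.val := rfl

theorem nontrivial_E (k : ℕ) : Nontrivial (E k) :=
  ⟨⟨1, 0, fun h => qs_ne k (congrArg Corner.val h)⟩⟩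

/-- the limit -/
abbrev Lm : Type := sys.Lim

theorem nontrivial_Lm : Nontrivial Lm := by
  have := nontrivial_E 0
  exact ⟨⟨sys.ι 0 1, sys.ι 0 0, fun h => one_ne_zero (sys.ι_injective 0 h)⟩⟩

/-! ### projections -/

/-- every non-zero projection of a block dominates an infinite projection -/
theorem exists_inf {n : ℕ} {e : E n} (he : IsStarProjection e) (he0 : e ≠ 0) :
    ∃ f w : E n, IsStarProjection f ∧ e * f = f ∧ star w * w = f ∧ f * w = w ∧ w * star w ≠ f := by
  have hev : IsStarProjection e.val :=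
    ⟨congrArg Corner.val he.isIdempotentElem.eq, congrArg Corner.val he.isSelfAdjoint.star_eq⟩
  have hev0 : e.val ≠ 0 := fun h => he0 (Corner.val_injective h)
  obtain ⟨v, hv1, hv2, -⟩ := exists_v hev hev0
  obtain ⟨v0, hv01, hv02, hv03⟩ := exists_v q0_proj q0_ne
  have hq := q0_proj.isIdempotentElem.eq
  have hqs := q0_proj.isSelfAdjoint.star_eq
  have hvq : v * q0 = v := by
    have h1 : star (v * q0 - v) * (v * q0 - v) = 0 := by
      have : star (v * q0 - v) * (v * q0 - v) = star q0 * (star v * v) * q0 - star q0 * (star v * v)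
          - (star v * v) * q0 + star v * v := by
        rw [star_sub, star_mul]; noncomm_ring
      rw [this, hv1, hqs, hq, hq]; abel
    exact sub_eq_zero.1 (CStarRing.star_mul_self_eq_zero_iff _ |>.1 h1)
  have hv0q : v0 * q0 = v0 := by
    have h1 : star (v0 * q0 - v0) * (v0 * q0 - v0) = 0 := by
      have : star (v0 * q0 - v0) * (v0 * q0 - v0) = star q0 * (star v0 * v0) * q0 -
          star q0 * (star v0 * v0) - (star v0 * v0) * q0 + star v0 * v0 := by
        rw [star_sub, star_mul]; noncomm_ring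
      rw [this, hv01, hqs, hq, hq]; abel
    exact sub_eq_zero.1 (CStarRing.star_mul_self_eq_zero_iff _ |>.1 h1)
  have hsv : q0 * star v = star v := by
    rw [← hqs, ← star_mul, hvq]
  have hnv : qs n * v = v := by
    rw [← hv2, ← mul_assoc, e.q_mul_val]
  have hvn : star v * qs n = star v := by
    have := congrArg star hnv
    rwa [star_mul, (qs_proj n).isSelfAdjoint.star_eq] at this
  let f : E n := Corner.mk (v * star v) (by rw [← mul_assoc, hnv]) (by rw [mul_assoc, hvn])
  let w : E n := Corner.mk (v * v0 * star v) (by rw [← mul_assoc, ← mul_assoc, hnv])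
    (by rw [mul_assoc, hvn])
  refine ⟨f, w, ⟨Corner.val_injective ?_, Corner.val_injective ?_⟩, Corner.val_injective ?_,
    Corner.val_injective ?_, Corner.val_injective ?_, ?_⟩
  · change v * star v * (v * star v) = v * star v
    have : v * star v * (v * star v) = v * (star v * v) * star v := by simp only [mul_assoc]
    rw [this, hv1, hvq]
  · change star (v * star v) = v * star v
    rw [star_mul, star_star]
  · change e.val * (v * star v) = v * star v
    rw [← mul_assoc, hv2]
  · change star (v * v0 * star v) * (v * v0 * star v) = v * star v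
    have : star (v * v0 * star v) * (v * v0 * star v) =
        v * (star v0 * ((star v * v) * v0)) * star v := by
      simp only [star_mul, star_star, mul_assoc]
    rw [this, hv1, hv02, hv01, hvq]
  · change v * star v * (v * v0 * star v) = v * v0 * star v
    have : v * star v * (v * v0 * star v) = v * ((star v * v) * v0) * star v := by
      simp only [mul_assoc]
    rw [this, hv1, hv02]
  · intro h
    have h1 : v * v0 * star v * star (v * v0 * star v) = v * star v := congrArg Corner.val h
    have h2 : v * v0 * star v * star (v * v0 * star v) =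
        v * (v0 * ((star v * v) * star v0)) * star v := by
      simp only [star_mul, star_star, mul_assoc]
    have hq0 : q0 * star v0 = star v0 := by
      rw [← hqs, ← star_mul, hv0q]
    rw [h2, hv1, hq0] at h1
    have h3 := congrArg (fun z => star v * z * v) h1
    have h4 : star v * (v * (v0 * star v0) * star v) * v =
        (star v * v) * (v0 * star v0) * (star v * v) := by simp only [mul_assoc]
    have h5 : star v * (v * star v) * v = (star v * v) * (star v * v) := by simp only [mul_assoc]
    rw [h4, h5, hv1, hq] at h3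
    have h6 : q0 * (v0 * star v0) * q0 = v0 * star v0 := by
      rw [← mul_assoc, hv02, mul_assoc]
      have := congrArg star hv02
      rw [star_mul, hqs] at this
      rw [this]
    rw [h6] at h3
    exact hv03 h3

/-! ### the limit is simple -/

theorem wit_gen {n : ℕ} (c : E n) {N : ℕ} (hc : Wit N c.val) {k : ℕ} (hk : n ≤ k) :
    Wit N (sys.gen n c k).val := by
  induction k, hk using Nat.le_induction with
  | base => rw [sys.gen_self]; exact hc
  | succ k hk ih =>
    rw [sys.gen_succ hk, val_sys_map]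
    exact ih.step k

theorem isSimple_Lm : IsSimpleRing Lm := by
  have := nontrivial_Lm
  let _ : PartialOrder Lm := CStarAlgebra.spectralOrder Lm
  have : StarOrderedRing Lm := CStarAlgebra.spectralOrderedRing Lm
  apply isSimpleRing_lim
  intro n c hc
  have hc' : c.val ≠ 0 := fun h => hc (Corner.val_injective h)
  obtain ⟨N, hN⟩ := exists_wit hc'
  set k := max n N with hk
  have h1 : Wit k (sys.gen n c k).val := (wit_gen c hN (le_max_left _ _)).mono (le_max_right _ _)
  obtain ⟨κ, hκ, Y, hY1, hY2⟩ := full_of_wit h1 (qs_proj (k + 1))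
  set g : E k := sys.gen n c k with hg
  -- elements of the corner
  have hqq := (qs_proj (k + 1)).isIdempotentElem.eq
  have hqsa := (qs_proj (k + 1)).isSelfAdjoint.star_eq
  let Z : κ → E (k + 1) := fun i => Corner.mk (qs (k + 1) * Y i) (by rw [← mul_assoc, hqq])
    (by rw [mul_assoc, hY1])
  have hZ : ∀ i, (star (Z i) * sys.map k (star g * g) * Z i).val =
      star (Y i) * star (Phi k g.val) * Phi k g.val * Y i := by
    intro i
    rw [Corner.val_mul, Corner.val_mul, Corner.val_star, map_mul, Corner.val_mul, map_star,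
      Corner.val_star, val_sys_map]
    change star (qs (k + 1) * Y i) * (star (Phi k g.val) * Phi k g.val) * (qs (k + 1) * Y i) = _
    have h2 : Phi k g.val * qs (k + 1) = Phi k g.val := (sys.map k g).val_mul_q
    have h3 : qs (k + 1) * star (Phi k g.val) = star (Phi k g.val) := by
      rw [← hqsa, ← star_mul, h2]
    rw [star_mul, hqsa]
    have h4 : star (Y i) * qs (k + 1) * (star (Phi k g.val) * Phi k g.val) * (qs (k + 1) * Y i) =
        star (Y i) * (qs (k + 1) * star (Phi k g.val)) * (Phi k g.val * qs (k + 1)) * Y i := by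
      simp only [mul_assoc]
    rw [h4, h2, h3]
  refine ⟨κ, hκ, fun i => sys.ι (k + 1) (star (Z i)), 1 / 2, by norm_num, ?_⟩
  have hsum : ∑ i, sys.ι (k + 1) (star (Z i)) * sys.ι n (star c * c) *
      star (sys.ι (k + 1) (star (Z i))) =
      sys.ι (k + 1) (∑ i, star (Z i) * sys.map k (star g * g) * Z i) := by
    rw [map_sum]
    refine Finset.sum_congr rfl fun i _ => ?_
    have h5 : sys.ι n (star c * c) = sys.ι (k + 1) (sys.map k (star g * g)) := by
      rw [sys.ι_map, map_mul, map_mul, map_star, map_star, hg, sys.ι_gen n c (le_max_left _ _)]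
    rw [h5, ← map_star, star_star, ← map_mul, ← map_mul]
  rw [hsum]
  set T := sys.ι (k + 1) (∑ i, star (Z i) * sys.map k (star g * g) * Z i) with hT
  have hTsa : IsSelfAdjoint T := by
    rw [hT]
    apply IsSelfAdjoint.map
    rw [IsSelfAdjoint, star_sum]
    refine Finset.sum_congr rfl fun i _ => ?_
    rw [star_mul, star_mul, star_star, ← map_star, star_mul, star_star]
    simp only [mul_assoc]
  have hTn : ‖T - 1‖ ≤ 1 / 2 := by
    rw [hT, ← map_one (sys.ι (k + 1)), ← map_sub, IndSys.norm_ι, ← Corner.norm_val,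
      Corner.val_sub, Corner.val_one]
    have hvs : ∀ F : κ → E (k + 1), (∑ i, F i).val = ∑ i, (F i).val := by
      intro F
      let ev : E (k + 1) →+ II := ⟨⟨Corner.val, Corner.val_zero⟩, Corner.val_add⟩
      exact map_sum ev F Finset.univ
    rw [hvs]
    simp only [hZ]
    exact hY2
  have hTsa1 : IsSelfAdjoint (1 - T) := (IsSelfAdjoint.one _).sub hTsa
  have h6 := hTsa1.le_algebraMap_norm_self
  have h7 : algebraMap ℝ Lm ‖1 - T‖ ≤ algebraMap ℝ Lm (1 / 2) := by
    apply algebraMap_mono
    rw [← norm_neg, neg_sub]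
    exact hTn
  have h8 := h6.trans h7
  have h9 : (1 : Lm) - algebraMap ℝ Lm (1 / 2) ≤ T := by
    rw [sub_le_comm]; exact h8
  have h10 : (1 : Lm) - algebraMap ℝ Lm (1 / 2) = algebraMap ℝ Lm (1 / 2) := by
    rw [← map_one (algebraMap ℝ Lm), ← map_sub]
    norm_num
  rwa [h10] at h9

/-! ### projections of the limit -/

theorem proj_Lm {p : Lm} (hp : IsStarProjection p) (hp0 : p ≠ 0) : ∃ r : Lm, star r * p * r = 1 := by
  obtain ⟨n, e, u, he, he0, hu, huu⟩ := exists_proj_lim hp hp0
  obtain ⟨f, w, hf, hef, hw, hfw, hne⟩ := exists_inf he he0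
  obtain ⟨r, hr⟩ := one_le_of_infinite (A := Lm) isSimple_Lm (q := sys.ι n f) (w := sys.ι n w)
    (hf.map _) (by rw [← map_star, ← map_mul, hw]) (by rw [← map_mul, hfw])
    (by rw [← map_star, ← map_mul]; exact fun h => hne (sys.ι_injective n h))
  refine ⟨star u * (sys.ι n f * r), ?_⟩
  have hfs := hf.isSelfAdjoint.star_eq
  have hff := hf.isIdempotentElem.eq
  calc star (star u * (sys.ι n f * r)) * p * (star u * (sys.ι n f * r))
      = star r * star (sys.ι n f) * (u * p * star u) * sys.ι n f * r := by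
        simp only [star_mul, star_star, mul_assoc]
    _ = star r * (sys.ι n f * sys.ι n e * sys.ι n f) * r := by
        rw [huu, ← map_star, hfs]; simp only [mul_assoc]
    _ = star r * sys.ι n f * r := by
        rw [← map_mul, ← map_mul, mul_assoc f e f, hef, hff]
    _ = 1 := hr

theorem one_inf_Lm : ∃ v : Lm, star v * v = 1 ∧ v * star v ≠ 1 := by
  obtain ⟨v0, hv01, hv02, hv03⟩ := exists_v q0_proj q0_ne
  have hq := q0_proj.isIdempotentElem.eq
  have hqs := q0_proj.isSelfAdjoint.star_eq
  have hv0q : v0 * q0 = v0 := by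
    have h1 : star (v0 * q0 - v0) * (v0 * q0 - v0) = 0 := by
      have : star (v0 * q0 - v0) * (v0 * q0 - v0) = star q0 * (star v0 * v0) * q0 -
          star q0 * (star v0 * v0) - (star v0 * v0) * q0 + star v0 * v0 := by
        rw [star_sub, star_mul]; noncomm_ring
      rw [this, hv01, hqs, hq, hq]; abel
    exact sub_eq_zero.1 (CStarRing.star_mul_self_eq_zero_iff _ |>.1 h1)
  let v : E 0 := Corner.mk v0 hv02 hv0q
  refine ⟨sys.ι 0 v, ?_, ?_⟩
  · rw [← map_star, ← map_mul, ← map_one (sys.ι 0)]
    congr 1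
    exact Corner.val_injective hv01
  · rw [← map_star, ← map_mul, ← map_one (sys.ι 0)]
    intro h
    exact hv03 (congrArg Corner.val (sys.ι_injective 0 h))

/-! ### the small element -/

theorem GoodIn.of_le {D : Set (Bool × ℕ)} {h h' : XX → Op} (hg : GoodIn D h)
    (hle : ∀ x f, (⟪f, h' x f⟫_ℂ).re ≤ (⟪f, h x f⟫_ℂ).re) : GoodIn D h' := by
  obtain ⟨ι, ℓ, ω, r, h1, h2, h3, h4, h5, h6⟩ := hg
  refine ⟨ι, ℓ, ω, r, h1, h2, h3, h4, h5, fun x f ε hε => ?_⟩
  obtain ⟨J, hJ⟩ := h6 x f ε hε
  exact ⟨J, (hle x f).trans hJ⟩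

theorem inner_star_mul_self (T : Op) (f : Hb) : (⟪f, (star T * T) f⟫_ℂ).re = ‖T f‖ ^ 2 := by
  rw [mul_apply', inner_star_right, inner_self_eq_norm_sq_to_K]
  norm_cast

theorem exists_small : ∃ b : E 0, b ≠ 0 ∧
    ∀ t, GoodIn Set.univ (((star b * b).val).at' t).fn := by
  obtain ⟨y, hy1, hy2⟩ := exists_base
  have hq := q0_proj.isIdempotentElem.eq
  have hqs' := q0_proj.isSelfAdjoint.star_eq
  let b : E 0 := Corner.mk (q0 * y * q0) (by
    change q0 * (q0 * y * q0) = q0 * y * q0
    rw [← mul_assoc, ← mul_assoc, hq]) (by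
    change q0 * y * q0 * q0 = q0 * y * q0
    rw [mul_assoc, hq])
  refine ⟨b, fun h => ?_, fun t => ?_⟩
  · have h1 : q0 * y * q0 = 0 := congrArg Corner.val h
    have h2 := congrArg (fun g : II => (g.at' 0).fn fun _ => ee) h1
    simp only [II.at'_mul, BB.fn_mul, II.at'_zero, BB.fn_zero, q0_zero] at h2
    rw [mul_assoc, (hy2 _).2] at h2
    obtain ⟨c, hc⟩ := y.mem0
    have h3 := hc fun _ => ee
    have h4 : V ee * star (V ee) * (y.at' 0).fn (fun _ => ee) = (y.at' 0).fn fun _ => ee := by
      rw [h3]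
      have : V ee * star (V ee) * (V ee * c (pa fun _ => ee) * star (V ee)) =
          V ee * (star (V ee) * V ee) * c (pa fun _ => ee) * star (V ee) := by
        simp only [mul_assoc]
      rw [this, star_V_mul_V, mul_one]
    rw [h4] at h2
    exact (hy2 _).1 h2
  · have hqt : star (q0.at' t) = q0.at' t := congrArg (fun g : II => g.at' t) hqs'
    have hqq : q0.at' t * q0.at' t = q0.at' t := congrArg (fun g : II => g.at' t) hq
    have h1 := (hy1 t).conj (q0.at' t).isF
    refine h1.of_le fun x f => ?_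
    have hb : (((star b * b).val).at' t).fn x =
        star ((q0.at' t).fn x * (y.at' t).fn x * (q0.at' t).fn x) *
          ((q0.at' t).fn x * (y.at' t).fn x * (q0.at' t).fn x) := rfl
    have hx : star ((q0.at' t).fn x) = (q0.at' t).fn x := congrArg (fun g : BB => g.fn x) hqt
    have h2 : (q0.at' t).fn x * ((star y * y).at' t).fn x * star ((q0.at' t).fn x) =
        star ((y.at' t).fn x * (q0.at' t).fn x) * ((y.at' t).fn x * (q0.at' t).fn x) := by
      rw [star_mul, hx]
      simp only [II.at'_mul, II.at'_star, BB.fn_mul, BB.fn_star, mul_assoc]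
    rw [hb, h2, inner_star_mul_self, inner_star_mul_self]
    have h3 : ‖(q0.at' t).fn x‖ ≤ 1 :=
      (BB.norm_fn_le _ _).trans (norm_proj_le ⟨hqq, hqt⟩)
    have h4 : ‖((q0.at' t).fn x * (y.at' t).fn x * (q0.at' t).fn x) f‖ ≤
        ‖((y.at' t).fn x * (q0.at' t).fn x) f‖ := by
      have h5 : ((q0.at' t).fn x * (y.at' t).fn x * (q0.at' t).fn x) f =
          (q0.at' t).fn x (((y.at' t).fn x * (q0.at' t).fn x) f) := rfl
      rw [h5]
      have := ((q0.at' t).fn x).le_of_opNorm_le h3 (((y.at' t).fn x * (q0.at' t).fn x) f)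
      rwa [one_mul] at this
    exact pow_le_pow_left₀ (norm_nonneg _) h4 2

theorem good_gen {c : E 0} (hc : ∀ t, GoodIn Set.univ ((c.val).at' t).fn) (k : ℕ) (t : I) :
    GoodIn Set.univ (((sys.gen 0 c k).val).at' t).fn := by
  induction k generalizing t with
  | zero => rw [sys.gen_self]; exact hc t
  | succ k ih =>
    rw [sys.gen_succ (Nat.zero_le k), val_sys_map]
    exact Phi_good k ih t

/-- the unit is not Cuntz below the small element, at a finite stage -/
theorem not_below {G : II} (hG : ∀ t, GoodIn Set.univ (G.at' t).fn) {p : II}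
    (hp : IsStarProjection p) (hp0 : p ≠ 0) (a : II) : 1 / 2 ≤ ‖star a * G * a - p‖ := by
  by_contra hcon
  push Not at hcon
  obtain ⟨v, hv1, hv2, -⟩ := exists_v hp hp0
  have hqn : ‖q0‖ ≤ 1 := norm_proj_le q0_proj
  have hvn : ‖v‖ ≤ 1 := by
    have := CStarRing.norm_star_mul_self (x := v)
    rw [hv1] at this
    nlinarith [norm_nonneg v]
  have h1 : star (a * v) * G * (a * v) - q0 = star v * (star a * G * a - p) * v := by
    have : star v * (star a * G * a - p) * v = star (a * v) * G * (a * v) - star v * (p * v) := by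
      rw [star_mul]; simp only [mul_sub, sub_mul, mul_assoc]
    rw [this, hv2, hv1]
  have h2 : ‖star (a * v) * G * (a * v) - q0‖ < 1 / 2 := by
    rw [h1]
    calc ‖star v * (star a * G * a - p) * v‖ ≤ ‖star v‖ * ‖star a * G * a - p‖ * ‖v‖ :=
          (norm_mul_le _ _).trans (by gcongr; exact norm_mul_le _ _)
      _ ≤ 1 * ‖star a * G * a - p‖ * 1 := by
          gcongr
          rw [norm_star]; exact hvn
      _ < 1 / 2 := by linarith
  set h := star (a * v) * G * (a * v) with hh
  have hgood : GoodIn Set.univ (h.at' 0).fn := by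
    have h3 := (hG 0).conj (star ((a * v).at' 0)).isF
    refine h3.of_le fun x f => le_of_eq ?_
    rw [BB.fn_star, star_star]
    rfl
  obtain ⟨x, hx⟩ := hgood.exists_small (f := fun _ => V ee (eb (0, 0))) continuous_const
    (fun _ _ _ => rfl) (show (0 : ℝ) < 1 / 4 by norm_num)
  set f : Hb := V ee (eb (0, 0)) with hf
  have hfn : ‖f‖ = 1 := by
    rw [hf, norm_of_star_mul_self (star_V_mul_V ee), norm_eb]
  have hq0f : (q0.at' 0).fn x f = f := by
    rw [q0_zero, hf, ← mul_apply', mul_assoc, star_V_mul_V, mul_one]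
  have h4 : ⟪f, (h.at' 0).fn x f⟫_ℂ = 1 + ⟪f, ((h - q0).at' 0).fn x f⟫_ℂ := by
    have : (h.at' 0).fn x f = f + ((h - q0).at' 0).fn x f := by
      rw [II.at'_sub, BB.fn_sub, sub_apply, hq0f]; abel
    rw [this, inner_add_right, inner_self_eq_norm_sq_to_K, hfn]
    congr 1
    norm_num
  have h5 : ‖⟪f, ((h - q0).at' 0).fn x f⟫_ℂ‖ < 1 / 2 := by
    calc ‖⟪f, ((h - q0).at' 0).fn x f⟫_ℂ‖ ≤ ‖f‖ * ‖((h - q0).at' 0).fn x f‖ :=
          norm_inner_le_norm _ _
      _ ≤ 1 * (‖h - q0‖ * 1) := by
          rw [hfn]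
          gcongr
          have h6 : ‖((h - q0).at' 0).fn x‖ ≤ ‖h - q0‖ :=
            (BB.norm_fn_le _ _).trans (II.norm_at'_le _ _)
          have := (((h - q0).at' 0).fn x).le_of_opNorm_le h6 f
          rwa [hfn] at this
      _ < 1 / 2 := by linarith
  have h6 : (⟪f, (h.at' 0).fn x f⟫_ℂ).re = 1 + (⟪f, ((h - q0).at' 0).fn x f⟫_ℂ).re := by
    rw [h4]; simp
  have h7 := (abs_le.1 (Complex.abs_re_le_norm (⟪f, ((h - q0).at' 0).fn x f⟫_ℂ))).1
  have hx' : (⟪f, (h.at' 0).fn x f⟫_ℂ).re ≤ 1 / 4 := hx
  linarith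

theorem not_below_Lm {b : E 0} (hb : ∀ t, GoodIn Set.univ (((star b * b).val).at' t).fn) (r : Lm) :
    1 / 2 ≤ ‖star r * (star (sys.ι 0 b) * sys.ι 0 b) * r - 1‖ := by
  have hcl : IsClosed {r : Lm | 1 / 2 ≤ ‖star r * (star (sys.ι 0 b) * sys.ι 0 b) * r - 1‖} := by
    apply isClosed_le continuous_const
    exact (((continuous_star.mul continuous_const).mul continuous_id).sub
      continuous_const).norm
  refine IndSys.lim_induction (P := fun r => 1 / 2 ≤
    ‖star r * (star (sys.ι 0 b) * sys.ι 0 b) * r - 1‖) hcl (fun n a => ?_) r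
  have h1 : star (sys.ι n a) * (star (sys.ι 0 b) * sys.ι 0 b) * sys.ι n a - 1 =
      sys.ι n (star a * sys.gen 0 (star b * b) n * a - 1) := by
    rw [map_sub, map_mul, map_mul, map_star, sys.ι_gen 0 (star b * b) (Nat.zero_le n), map_mul,
      map_star, map_one]
  rw [h1, IndSys.norm_ι, ← Corner.norm_val]
  exact not_below (good_gen hb n) (qs_proj n) (qs_ne n) a.val

/-- the main result about the limit -/
theorem exists_algebra :
    ∃ (A0 : Type) (_ : CStarAlgebra A0), TopologicalSpace.SeparableSpace A0 ∧ IsSimpleRing A0 ∧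
      (∀ p : A0, IsStarProjection p → p ≠ 0 → ∃ r : A0, star r * p * r = 1) ∧
      (∃ v : A0, star v * v = 1 ∧ v * star v ≠ 1) ∧
      ∃ b : A0, b ≠ 0 ∧ ∀ r : A0, 1 / 2 ≤ ‖star r * (star b * b) * r - 1‖ := by
  obtain ⟨b, hb0, hb⟩ := exists_small
  obtain ⟨v, hv1, hv2⟩ := one_inf_Lm
  exact exists_separable (A := Lm) isSimple_Lm (fun p hp hp0 => proj_Lm hp hp0) v hv1 hv2
    (sys.ι 0 b) (fun h => hb0 (sys.ι_injective 0 (by rw [h, map_zero]))) (not_below_Lm hb)

end Pool.Agent.Lib.Ell
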