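import Pool.Agent.Lib.Ell.Blk
import Pool.Agent.Lib.Ell.Good

set_option autoImplicit false

/-!
Pulling back along selections of coordinates.
-/

open scoped InnerProductSpace BoundedContinuousFunction unitInterval

namespace Pool.Agent.Lib.Ell

open Pool.Agent.Lib.P81d4f5 (S3)

/-- evaluation of a selected coordinate or of a constant -/
noncomputable def pick (o : Option Ix) (w : S3) (x : XX) : S3 :=
  match o with
  | some c => x c
  | none => w

@[simp] theorem pick_some (c : Ix) (w : S3) (x : XX) : pick (some c) w x = x c := rfl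
@[simp] theorem pick_none (w : S3) (x : XX) : pick none w x = w := rfl

theorem continuous_pick (o : Option Ix) (w : S3) : Continuous (pick o w) := by
  rcases o with _ | c
  · exact continuous_const
  · exact continuous_apply c

theorem pick_rot_of_ne {o : Option Ix} {c : Ix} (h : o ≠ some c) (w : S3) (z : Circle) (x : XX) :
    pick o w (rotAt c z x) = pick o w x := by
  rcases o with _ | d
  · rfl
  · simp only [pick_some]
    apply rotAt_of_ne
    rintro rfl
    exact h rfl

theorem pick_rot_self (c : Ix) (w : S3) (z : Circle) (x : XX) :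
    pick (some c) w (rotAt c z x) = S3.rot z (pick (some c) w x) := rotAt_self c z x

/-- pulling back along a selection of coordinates -/
noncomputable def pull (src : Ix → Option Ix) (cs : Ix → S3) (x : XX) : XX :=
  fun d => pick (src d) (cs d) x

/-- every coordinate is selected at most once -/
def InjSrc (src : Ix → Option Ix) : Prop := ∀ d d' c, src d = some c → src d' = some c → d = d'

theorem continuous_pull (src : Ix → Option Ix) (cs : Ix → S3) : Continuous (pull src cs) :=
  continuous_pi fun d => continuous_pick _ _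

theorem pull_rot_of_some {src : Ix → Option Ix} (hs : InjSrc src) (cs : Ix → S3) {c d : Ix}
    (h : src d = some c) (z : Circle) (x : XX) :
    pull src cs (rotAt c z x) = rotAt d z (pull src cs x) := by
  funext e
  by_cases he : e = d
  · subst he
    rw [rotAt_self, pull, pull, h, pick_rot_self]
  · rw [rotAt_of_ne he, pull, pull]
    exact pick_rot_of_ne (fun h' => he (hs _ _ _ h' h)) _ _ _

theorem pull_rot_of_none {src : Ix → Option Ix} (cs : Ix → S3) {c : Ix}
    (h : ∀ d, src d ≠ some c) (z : Circle) (x : XX) :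
    pull src cs (rotAt c z x) = pull src cs x := by
  funext e
  exact pick_rot_of_ne (h e) _ _ _

theorem IsF.pull {F : XX → Op} (hF : IsF F) {src : Ix → Option Ix} (hs : InjSrc src)
    (cs : Ix → S3) : IsF fun x => F (pull src cs x) := by
  refine ⟨hF.sc.comp (continuous_pull src cs), fun c z x => ?_⟩
  by_cases h : ∃ d, src d = some c
  · obtain ⟨d, hd⟩ := h
    rw [pull_rot_of_some hs cs hd, hF.inv]
  · rw [pull_rot_of_none cs (fun d hd => h ⟨d, hd⟩)]

open Classical in
/-- weights after pulling back -/
noncomputable def pw (src : Ix → Option Ix) (ω : Ix → ℕ) (c : Ix) : ℕ :=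
  if h : ∃ d, src d = some c then ω h.choose else 0

theorem pw_of_some {src : Ix → Option Ix} (hs : InjSrc src) (ω : Ix → ℕ) {c d : Ix}
    (h : src d = some c) : pw src ω c = ω d := by
  have h' : ∃ d, src d = some c := ⟨d, h⟩
  rw [pw, dif_pos h', hs _ _ _ h'.choose_spec h]

theorem pw_of_none {src : Ix → Option Ix} (ω : Ix → ℕ) {c : Ix}
    (h : ∀ d, src d ≠ some c) : pw src ω c = 0 := by
  rw [pw, dif_neg]
  rintro ⟨d, hd⟩
  exact h d hd

theorem HasW.pull {ω : Ix → ℕ} {ℓ : XX → Hb} (hl : HasW ω ℓ) {src : Ix → Option Ix}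
    (hs : InjSrc src) (cs : Ix → S3) : HasW (pw src ω) fun x => ℓ (pull src cs x) := by
  intro c z x
  beta_reduce
  by_cases h : ∃ d, src d = some c
  · obtain ⟨d, hd⟩ := h
    rw [pull_rot_of_some hs cs hd, hl, pw_of_some hs ω hd]
  · have h' : ∀ d, src d ≠ some c := fun d hd => h ⟨d, hd⟩
    rw [pull_rot_of_none cs h', pw_of_none ω h', pow_zero, one_smul]

theorem HasW.apply {ω : Ix → ℕ} {ℓ : XX → Hb} (hl : HasW ω ℓ) {T : XX → Op}
    (hT : ∀ c z x, T (rotAt c z x) = T x) : HasW ω fun x => T x (ℓ x) := by
  intro c z x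
  beta_reduce
  rw [hT, hl, map_smul]

/-- the weight of a selected coordinate -/
def sw (o : Option Ix) (c : Ix) : ℕ := if o = some c then 1 else 0

theorem V_pick_rot (o : Option Ix) (w : S3) (c : Ix) (z : Circle) (x : XX) :
    V (pick o w (rotAt c z x)) = ((z : ℂ) ^ sw o c) • V (pick o w x) := by
  unfold sw
  split_ifs with h
  · subst h
    rw [pick_rot_self, V_rot, pow_one]
  · rw [pick_rot_of_ne h, pow_zero, one_smul]

/-- pulling back as a homomorphism of `BB` -/
noncomputable def pullHom (src : Ix → Option Ix) (hs : InjSrc src) (cs : Ix → S3) :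
    BB →⋆ₐ[ℂ] BB where
  toFun f := BB.mk (fun x => f.fn (pull src cs x)) (f.isF.pull hs cs)
  map_one' := by ext x : 1; rfl
  map_mul' f g := by ext x : 1; rfl
  map_zero' := by ext x : 1; rfl
  map_add' f g := by ext x : 1; rfl
  commutes' c := by ext x : 1; rfl
  map_star' f := by ext x : 1; rfl

@[simp] theorem fn_pullHom (src : Ix → Option Ix) (hs : InjSrc src) (cs : Ix → S3) (f : BB)
    (x : XX) : (pullHom src hs cs f).fn x = f.fn (pull src cs x) := rfl

end Pool.Agent.Lib.Ell
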